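import Pool.Agent.UCN.Defs2
import Pool.Agent.UM.Modes

/-!
# PP mode with any number of coins at each step
-/

set_option autoImplicit false

namespace Pool.Agent.UCN

open Finset
open Pool.Agent.UM (Mach InPSPACE)

namespace CNT

open Pool.Agent.UM.MODES (withAcc withAcc_accepts withAcc_far)

variable {s b : ℕ} {I A V G : Type} {T δ J : ℕ} {L : (I → A) → Prop}

/-- PP mode with coins is threshold mode. -/
theorem thr (h : InCoins s b I A V G T δ J L) : InThrs s (Fin b → Bool) I A V G T δ J L := by
  obtain ⟨M, _, _, h3, h4, h5⟩ := h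
  refine ⟨M, 2 ^ (b * T) / 2, h3, h4, fun x => (h5 x).trans ?_⟩
  rw [div_lt_iff₀' (by norm_num : (0 : ℝ) < 2)]

/-- The value is the number of accepting strings. -/
theorem value_eq (M : WMach I A V G (Fin b → Bool)) (h1 : ∀ t v a g c, M.wt t v a g c = 1)
    (h2 : ∀ v, M.val v = 0 ∨ M.val v = 1) (x : I → A) :
    M.value T x = (Nat.card {c : Fin T → Fin b → Bool // M.val ((M.fix (ext c)).conf x T).1 = 1} :
      ℝ) := by
  classical
  unfold WMach.value
  rw [Nat.card_eq_fintype_card, Fintype.card_subtype, card_filter, Nat.cast_sum]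
  refine sum_congr rfl fun c _ => ?_
  have h3 : ∏ t : Fin T, M.stepWt x (ext c) t = 1 := by
    refine prod_eq_one fun t _ => ?_
    unfold WMach.stepWt
    exact h1 _ _ _ _ _
  rw [h3, one_mul]
  rcases h2 ((M.fix (ext c)).conf x T).1 with h | h
  · rw [h, if_neg (by norm_num)]
    norm_num
  · rw [h, if_pos rfl]
    norm_num

theorem dec_const (h : Decs s I A V G T δ J L) (b : Prop) :
    Decs s I A V G T δ J fun _ => b := by
  obtain ⟨M, hM, hL⟩ := h
  refine ⟨withAcc M fun _ => b, fun x => ?_, fun x => ?_⟩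
  · rw [withAcc_far]
    exact hM x
  · rw [withAcc_accepts]

/-- PP mode with coins is PSPACE mode. -/
theorem pspace (h : InCoins s b I A V G T δ J L) :
    InPSPACE (Decs s I A V G T δ J) (b * T * (b * T + 3) / 2) L := by
  refine UM.MODES.pp (fun _ b h => dec_const h b) ?_
  obtain ⟨M, h1, h2, h3, _, h5⟩ := h
  let e : Fin (2 ^ (b * T)) ≃ (Fin T → Fin b → Bool) :=
    (Fintype.equivFinOfCardEq (by
      rw [Fintype.card_fun, Fintype.card_fun, Fintype.card_bool, Fintype.card_fin,
        Fintype.card_fin, pow_mul])).symm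
  refine ⟨fun w x => M.val ((M.fix (ext (e w))).conf (many s x) T).1 = 1, fun w => ?_,
    fun x => ?_⟩
  · refine ⟨withAcc (M.fix (ext (e w))) fun v => M.val v = 1, fun x => ?_, fun x => ?_⟩
    · rw [withAcc_far]
      exact h3 x (ext (e w))
    · rw [withAcc_accepts]
  · rw [h5, value_eq M h1 h2]
    have h6 : Nat.card {w // M.val ((M.fix (ext (e w))).conf (many s x) T).1 = 1} =
        Nat.card {c : Fin T → Fin b → Bool //
          M.val ((M.fix (ext c)).conf (many s x) T).1 = 1} :=
      Nat.card_congr (e.subtypeEquiv fun w => Iff.rfl)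
    rw [h6]
    constructor
    · intro h
      exact_mod_cast h
    · intro h
      exact_mod_cast h

end CNT

end Pool.Agent.UCN
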