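import Pool.Agent.UCN.Stmts
import Pool.Agent.UM.Sysom
import Pool.Agent.UM.One
import Pool.Agent.UM.Mix
import Pool.Agent.UM.Reco
import Pool.Agent.UM.Comp
import Pool.Agent.UM.Sparse
import Pool.Agent.UM.Off
import Pool.Agent.UM.Restr

/-!
# CSYS: the system of pieces of a machine with outcomes
-/

set_option autoImplicit false
set_option linter.unusedSectionVars false
set_option linter.unusedFintypeInType false
set_option linter.unusedDecidableInType false

namespace Pool.Agent.UCN

open Finset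
open Pool.Agent.Lib_helper26.TS (fil)
open Pool.Agent.Lib_helper26.TB (Cell)
open Pool.Agent.UM (OM Mach ECell einp eblk erd SYSOM.pieces SYSOM.Dat SYSOM.cnt SYSOM.ext
  SYSOM.pgo SYSOM.f1 SYSOM.f2 SYSOM.cnt_le SYSOM.card_f1 SYSOM.card_f2 SYSOM.tot SYSOM.mem_pieces)

namespace CSYS

section gen

variable {I A V R G O β κ : Type} [Fintype I] [Fintype V] [Nonempty V] [Fintype G] [Fintype O]
    [Nonempty O] [Fintype κ] [DecidableEq κ] [DecidableEq R] [DecidableEq β]
variable (M : OM I A V R G) (pg : O → R → β) (v : ℕ) (slot : O → R → Fin v) (L T K : ℕ)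
    (φ : κ → ℕ → V → V → Bool) (sel : (κ → ℕ) → O)

/-- few changes of page on the input `x` -/
def Few (x : I → A) : Prop :=
  ((range (T - 1)).filter fun t => M.blk (pg (SYSOM.pgo M T φ sel x)) x t ≠
    M.blk (pg (SYSOM.pgo M T φ sel x)) x (t + 1)).card ≤ K

/-- the data of an input -/
noncomputable def dat (hL : 0 < L) (ω : {j // j ∈ SYSOM.pieces M pg T} → Bool) (x : I → A)
    (hx : Few M pg T K φ sel x) : SYSOM.Dat V G κ v T K (T / L) :=
  ((fun i b => ⟨SYSOM.cnt M pg L T φ (SYSOM.ext M pg T ω) (SYSOM.pgo M T φ sel x) x i b,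
      Nat.lt_succ_of_le (SYSOM.cnt_le M pg L T φ _ _ x i b)⟩,
    ⟨SYSOM.f1 M pg T (SYSOM.pgo M T φ sel x) x, SYSOM.card_f1 M pg T K _ x hx⟩),
   (⟨SYSOM.f2 M pg v slot L T (SYSOM.pgo M T φ sel x) x,
      SYSOM.card_f2 M pg v slot L T Pool.Agent.UM.comp hL _ x⟩, M.st x T))

theorem dat_eq_iff (hL : 0 < L) (ω : {j // j ∈ SYSOM.pieces M pg T} → Bool) (x y : I → A)
    (hx : Few M pg T K φ sel x) (hy : Few M pg T K φ sel y) :
    dat M pg v slot L T K φ sel hL ω x hx = dat M pg v slot L T K φ sel hL ω y hy ↔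
      (∀ i b, SYSOM.cnt M pg L T φ (SYSOM.ext M pg T ω) (SYSOM.pgo M T φ sel x) x i b =
        SYSOM.cnt M pg L T φ (SYSOM.ext M pg T ω) (SYSOM.pgo M T φ sel y) y i b) ∧
      SYSOM.f1 M pg T (SYSOM.pgo M T φ sel x) x = SYSOM.f1 M pg T (SYSOM.pgo M T φ sel y) y ∧
      SYSOM.f2 M pg v slot L T (SYSOM.pgo M T φ sel x) x =
        SYSOM.f2 M pg v slot L T (SYSOM.pgo M T φ sel y) y ∧
      M.st x T = M.st y T := by
  unfold dat
  simp only [Prod.mk.injEq, Subtype.mk.injEq]
  constructor
  · rintro ⟨⟨h1, h2⟩, h3, h4⟩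
    refine ⟨fun i b => ?_, h2, h3, h4⟩
    have := congrFun (congrFun h1 i) b
    exact congrArg Fin.val this
  · rintro ⟨h1, h2, h3, h4⟩
    refine ⟨⟨?_, h2⟩, h3, h4⟩
    funext i b
    exact Fin.ext (h1 i b)

/-- consequences of equal data -/
theorem rel (hL : 0 < L) (hs : ∀ o r r', pg o r = pg o r' → slot o r = slot o r' → r = r')
    (ω : {j // j ∈ SYSOM.pieces M pg T} → Bool) (x y : I → A)
    (hx : Few M pg T K φ sel x) (hy : Few M pg T K φ sel y)
    (h : dat M pg v slot L T K φ sel hL ω x hx = dat M pg v slot L T K φ sel hL ω y hy) :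
    SYSOM.tot M T φ x = SYSOM.tot M T φ y ∧ SYSOM.pgo M T φ sel y = SYSOM.pgo M T φ sel x ∧
      M.Rel (pg (SYSOM.pgo M T φ sel x)) L T x y := by
  rw [dat_eq_iff] at h
  obtain ⟨d1, d2, d3, d4⟩ := h
  have ht := Pool.Agent.UM.SYSOM.tot_of M pg L T φ _ _ _ x y d1
  have ho : SYSOM.pgo M T φ sel y = SYSOM.pgo M T φ sel x := by
    unfold Pool.Agent.UM.SYSOM.pgo
    rw [ht]
  rw [ho] at d1 d2 d3
  exact ⟨ht, ho, Pool.Agent.UM.SYSOM.rel_of M pg v slot L T hs _ x y d2 d3 d4⟩

/-- the mixed run -/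
theorem mixed (hL : 0 < L)
    (hs : ∀ o r r', pg o r = pg o r' → slot o r = slot o r' → r = r')
    (ω : {j // j ∈ SYSOM.pieces M pg T} → Bool) (x y z : I → A)
    (hx : Few M pg T K φ sel x) (hy : Few M pg T K φ sel y) (hz : Few M pg T K φ sel z)
    (h : dat M pg v slot L T K φ sel hL ω x hx = dat M pg v slot L T K φ sel hL ω y hy)
    (hxz : ∀ t < T, SYSOM.ext M pg T ω (M.pc (pg (SYSOM.pgo M T φ sel x)) L x t) = true →
      ∀ e, M.query t (M.st x t) = some e → z e = x e)
    (hyz : ∀ t < T, SYSOM.ext M pg T ω (M.pc (pg (SYSOM.pgo M T φ sel x)) L y t) = false →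
      ∀ e, M.query t (M.st y t) = some e → z e = y e) :
    SYSOM.pgo M T φ sel z = SYSOM.pgo M T φ sel x ∧
    dat M pg v slot L T K φ sel hL ω z hz = dat M pg v slot L T K φ sel hL ω x hx ∧
    ∀ t < T, M.pc (pg (SYSOM.pgo M T φ sel x)) L z t = M.pc (pg (SYSOM.pgo M T φ sel x)) L x t ∧
      M.pc (pg (SYSOM.pgo M T φ sel x)) L y t = M.pc (pg (SYSOM.pgo M T φ sel x)) L x t ∧
      (SYSOM.ext M pg T ω (M.pc (pg (SYSOM.pgo M T φ sel x)) L x t) = true →
        M.st z t = M.st x t ∧
          M.mem z t (M.addr t (M.st x t)) = M.mem x t (M.addr t (M.st x t))) ∧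
      (SYSOM.ext M pg T ω (M.pc (pg (SYSOM.pgo M T φ sel x)) L x t) = false →
        M.st z t = M.st y t ∧
          M.mem z t (M.addr t (M.st y t)) = M.mem y t (M.addr t (M.st y t))) := by
  obtain ⟨ht, ho, hr⟩ := rel M pg v slot L T K φ sel hL hs ω x y hx hy h
  rw [dat_eq_iff] at h
  obtain ⟨d1, d2, d3, d4⟩ := h
  rw [ho] at d1 d2 d3
  obtain ⟨hz1, hz'⟩ := Pool.Agent.UM.mix I A V R G β M (pg (SYSOM.pgo M T φ sel x)) L T
    (SYSOM.ext M pg T ω) x y z hL hr hxz hyz
  have hinv := Pool.Agent.UM.MIX.inv hr hxz hyz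
  have hc := Pool.Agent.UM.SYSOM.cnt_mix M pg L T φ (SYSOM.ext M pg T ω)
    (SYSOM.pgo M T φ sel x) x y z d1 hz'
  have ht' := Pool.Agent.UM.SYSOM.tot_of M pg L T φ _ _ _ z x hc
  have ho' : SYSOM.pgo M T φ sel z = SYSOM.pgo M T φ sel x := by
    unfold Pool.Agent.UM.SYSOM.pgo
    rw [ht']
  refine ⟨ho', ?_, ?_⟩
  · rw [dat_eq_iff, ho']
    exact ⟨hc, Pool.Agent.UM.SYSOM.f1_of_rel M pg L T _ z x hz1,
      Pool.Agent.UM.SYSOM.f2_of_rel M pg v slot L T _ z x hz1, hz1.last⟩
  · intro t htT
    obtain ⟨a1, a2, a3, a4⟩ := hz' t htT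
    refine ⟨a1, a2, fun hc => ⟨(a3 hc).1, ?_⟩, fun hc => ⟨(a4 hc).1, ?_⟩⟩
    · rw [(hinv t htT.le).mem]
      exact if_pos hc
    · rw [(hinv t htT.le).mem]
      apply if_neg
      have hb := Pool.Agent.UM.MIX.blk_eq M (pg (SYSOM.pgo M T φ sel x)) hr t htT
      have e1 : (pg (SYSOM.pgo M T φ sel x) (M.addr t (M.st y t)),
          M.vis (pg (SYSOM.pgo M T φ sel x)) x (pg (SYSOM.pgo M T φ sel x)
            (M.addr t (M.st y t))) t / L) = M.pc (pg (SYSOM.pgo M T φ sel x)) L x t := by
        have : pg (SYSOM.pgo M T φ sel x) (M.addr t (M.st y t)) =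
          M.blk (pg (SYSOM.pgo M T φ sel x)) y t := rfl
        rw [this, ← hb]
        rfl
      rw [e1, hc]
      decide

end gen

/-! ### The machine with raw inputs -/

section raw

variable {n m T : ℕ} {V G C : Type} [Fintype V] [Fintype G] [Fintype C] [Inhabited C]

/-- the machine whose input cells give the word read and the outcome -/
def mac (Q : WMach (ECell n m) (ZMod 2) V G C) (s : Fin m × Fin n → ZMod 2)
    (p : Fin m → Cell n → ZMod 2) (T : ℕ) : OM (Fin T × V) (Option (ZMod 2) × C) V ℤ G where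
  start := Q.start
  init := Q.init
  query t v := if h : t < T then some (⟨t, h⟩, v) else none
  addr := Q.addr
  next t v a g := a.elim (v, g) fun a => Q.next t v (a.1.getD (einp s p (Q.query t v))) g a.2

/-- the raw input -/
def inp (Q : WMach (ECell n m) (ZMod 2) V G C) (l : Fin m) (x : Cell n → ZMod 2) (c : Fin T → C) :
    Fin T × V → Option (ZMod 2) × C :=
  fun q => ((eblk l (Q.query q.1 q.2)).map x, c q.1)

variable (Q : WMach (ECell n m) (ZMod 2) V G C) (s : Fin m × Fin n → ZMod 2)
  (p : Fin m → Cell n → ZMod 2) (l : Fin m)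

theorem conf_eq (x : Cell n → ZMod 2) (c : Fin T → C) (t : ℕ) (ht : t ≤ T) :
    (mac Q s p T).conf (inp Q l x c) t =
      (Q.fix (ext c)).conf (einp s (Function.update p l x)) t := by
  induction t with
  | zero => rfl
  | succ t ih =>
    have h1 : t < T := by omega
    have h2 : ext c t = c ⟨t, h1⟩ := by unfold ext; rw [dif_pos h1]
    simp only [OM.conf, Mach.conf, ih h1.le]
    simp only [mac, WMach.fix, dif_pos h1, Option.map_some, inp, Option.elim,
      Pool.Agent.UM.RESTR.val, h2]

theorem st_eq (x : Cell n → ZMod 2) (c : Fin T → C) (t : ℕ) (ht : t ≤ T) :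
    (mac Q s p T).st (inp Q l x c) t =
      ((Q.fix (ext c)).conf (einp s (Function.update p l x)) t).1 := by
  unfold OM.st
  rw [conf_eq Q s p l x c t ht]

/-- the weight of a step in terms of the machine `mac` -/
theorem stepWt_eq (x : Cell n → ZMod 2) (c : Fin T → C) (t : Fin T) :
    Q.stepWt (einp s (Function.update p l x)) (ext c) t =
      Q.wt t ((mac Q s p T).st (inp Q l x c) t)
        ((inp Q l x c (t, (mac Q s p T).st (inp Q l x c) t)).1.getD
          (einp s p (Q.query t ((mac Q s p T).st (inp Q l x c) t))))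
        ((mac Q s p T).mem (inp Q l x c) t (Q.addr t ((mac Q s p T).st (inp Q l x c) t)))
        (inp Q l x c (t, (mac Q s p T).st (inp Q l x c) t)).2 := by
  have h2 : ext c t = c t := by unfold ext; rw [dif_pos t.2]
  have h3 := conf_eq Q s p l x c t t.2.le
  unfold WMach.stepWt OM.st OM.mem
  rw [h3, h2]
  simp only [inp, Pool.Agent.UM.RESTR.val]
  rfl

/-- the outcomes have no influence on the cells read and the registers used -/
def Indep (T : ℕ) : Prop :=
  ∀ (x : ECell n m → ZMod 2) (c c' : ℕ → C), ∀ t < T, cell (Q.fix c) x t = cell (Q.fix c') x t ∧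
    (Q.fix c).reg x t = (Q.fix c').reg x t

variable {Q}

theorem query_eq (hI : Indep Q T) (x : Cell n → ZMod 2) (c c' : Fin T → C) (t : ℕ) (ht : t < T) :
    Q.query t ((mac Q s p T).st (inp Q l x c) t) =
      Q.query t ((mac Q s p T).st (inp Q l x c') t) := by
  have h := (hI (einp s (Function.update p l x)) (ext c) (ext c') t ht).1
  rw [st_eq Q s p l x c t ht.le, st_eq Q s p l x c' t ht.le]
  exact h

theorem addr_eq (hI : Indep Q T) (x : Cell n → ZMod 2) (c c' : Fin T → C) (t : ℕ) (ht : t < T) :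
    Q.addr t ((mac Q s p T).st (inp Q l x c) t) =
      Q.addr t ((mac Q s p T).st (inp Q l x c') t) := by
  have h := (hI (einp s (Function.update p l x)) (ext c) (ext c') t ht).2
  rw [st_eq Q s p l x c t ht.le, st_eq Q s p l x c' t ht.le]
  exact h

theorem blk_eq (hI : Indep Q T) (pg : ℤ → ℤ) (x : Cell n → ZMod 2) (c c' : Fin T → C) (t : ℕ)
    (ht : t < T) : (mac Q s p T).blk pg (inp Q l x c) t = (mac Q s p T).blk pg (inp Q l x c') t := by
  unfold OM.blk
  exact congrArg pg (addr_eq s p l hI x c c' t ht)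

theorem pc_eq (hI : Indep Q T) (pg : ℤ → ℤ) (L : ℕ) (x : Cell n → ZMod 2) (c c' : Fin T → C)
    (t : ℕ) (ht : t < T) :
    (mac Q s p T).pc pg L (inp Q l x c) t = (mac Q s p T).pc pg L (inp Q l x c') t :=
  Pool.Agent.UM.SYSOM.pc_eq (mac Q s p T) pg L T _ _ (fun t ht => blk_eq s p l hI pg x c c' t ht)
    t ht

variable (Q)

/-- the counters -/
noncomputable def phi (b T : ℕ) : Fin b ⊕ Fin 1 → ℕ → V → V → Bool :=
  Pool.Agent.UM.ONE.phi (Q.fix fun _ => default) b 1 T (fun _ => l)

theorem tot_inl (b : ℕ) (x : Cell n → ZMod 2) (c : Fin T → C) (o : Fin b) :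
    SYSOM.tot (mac Q s p T) T (phi Q l b T) (inp Q l x c) (Sum.inl o) =
      ((range (T - 1)).filter fun t =>
        Pool.Agent.UM.ONE.pg b o ((Q.fix (ext c)).reg (einp s (Function.update p l x)) t) ≠
        Pool.Agent.UM.ONE.pg b o
          ((Q.fix (ext c)).reg (einp s (Function.update p l x)) (t + 1))).card := by
  unfold Pool.Agent.UM.SYSOM.tot
  congr 1
  ext t
  rw [mem_filter, mem_filter, mem_range, mem_range, phi, Pool.Agent.UM.ONE.phi,
    decide_eq_true_iff]
  constructor
  · rintro ⟨h5, h6, h7⟩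
    refine ⟨by omega, ?_⟩
    rw [st_eq Q s p l x c t h5.le, st_eq Q s p l x c (t + 1) (by omega)] at h7
    exact h7
  · rintro ⟨h5, h6⟩
    refine ⟨by omega, by omega, ?_⟩
    rw [st_eq Q s p l x c t (by omega), st_eq Q s p l x c (t + 1) (by omega)]
    exact h6

theorem tot_inr (b : ℕ) (x : Cell n → ZMod 2) (c : Fin T → C) (i : Fin 1) :
    SYSOM.tot (mac Q s p T) T (phi Q l b T) (inp Q l x c) (Sum.inr i) =
      erd (Q.fix (ext c)) T (einp s (Function.update p l x)) l := by
  unfold Pool.Agent.UM.SYSOM.tot erd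
  congr 1
  ext t
  rw [mem_filter, mem_filter, mem_range, phi, Pool.Agent.UM.ONE.phi]
  constructor
  · rintro ⟨h5, h6⟩
    rw [st_eq Q s p l x c t h5.le] at h6
    exact ⟨h5, h6⟩
  · rintro ⟨h5, h6⟩
    rw [st_eq Q s p l x c t h5.le]
    exact ⟨h5, h6⟩

variable {Q}

theorem tot_indep (hI : Indep Q T) (b : ℕ) (x : Cell n → ZMod 2) (c c' : Fin T → C) :
    SYSOM.tot (mac Q s p T) T (phi Q l b T) (inp Q l x c) =
      SYSOM.tot (mac Q s p T) T (phi Q l b T) (inp Q l x c') := by
  funext i
  rcases i with o | i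
  · rw [tot_inl, tot_inl]
    congr 1
    apply filter_congr
    intro t ht
    rw [mem_range] at ht
    rw [(hI (einp s (Function.update p l x)) (ext c) (ext c') t (by omega)).2,
      (hI (einp s (Function.update p l x)) (ext c) (ext c') (t + 1) (by omega)).2]
  · rw [tot_inr, tot_inr]
    unfold erd
    congr 1
    apply filter_congr
    intro t ht
    rw [mem_range] at ht
    have h := (hI (einp s (Function.update p l x)) (ext c) (ext c') t ht).1
    have h' : Q.query t ((Q.fix (ext c)).conf (einp s (Function.update p l x)) t).1 =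
      Q.query t ((Q.fix (ext c')).conf (einp s (Function.update p l x)) t).1 := h
    show (eblk l (Q.query t ((Q.fix (ext c)).conf (einp s (Function.update p l x)) t).1)).isSome =
      true ↔ (eblk l (Q.query t
        ((Q.fix (ext c')).conf (einp s (Function.update p l x)) t).1)).isSome = true
    rw [h']

/-- few changes of page -/
theorem few {b δ J : ℕ} (hb : 0 < b) (hfar : ∀ x c, (Q.fix c).far δ T x ≤ J)
    (x : Cell n → ZMod 2) (c : Fin T → C) :
    Few (mac Q s p T) (Pool.Agent.UM.ONE.pg b) T (T * δ / b + J) (phi Q l b T)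
      (Pool.Agent.UM.ONE.sel b 1 (T * δ / b + J) hb) (inp Q l x c) := by
  have h5 : ∃ o : Fin b, SYSOM.tot (mac Q s p T) T (phi Q l b T) (inp Q l x c) (Sum.inl o) ≤
      T * δ / b + J := by
    obtain ⟨o, ho, ho'⟩ := Pool.Agent.UM.off b δ T J
      ((Q.fix (ext c)).reg (einp s (Function.update p l x))) hb (hfar _ _)
    refine ⟨⟨o, ho⟩, ?_⟩
    rw [tot_inl]
    exact ho'
  have h6 := Pool.Agent.UM.ONE.sel_spec b 1 (T * δ / b + J) hb
    (SYSOM.tot (mac Q s p T) T (phi Q l b T) (inp Q l x c)) h5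
  rw [tot_inl] at h6
  unfold Few
  refine le_trans (le_of_eq ?_) h6
  congr 1
  apply filter_congr
  intro t ht
  rw [mem_range] at ht
  unfold OM.blk
  rw [st_eq Q s p l x c t (by omega), st_eq Q s p l x c (t + 1) (by omega)]
  rfl

end raw

/-! ### The system -/

section system

variable {n m : ℕ} {V G C : Type} [Fintype V] [Nonempty V] [Fintype G] [Fintype C] [Inhabited C]
variable (Q : WMach (ECell n m) (ZMod 2) V G C) (s : Fin m × Fin n → ZMod 2)
  (p : Fin m → Cell n → ZMod 2) (l : Fin m) (L T K b : ℕ) [Nonempty (Fin b)] (hb : 0 < b)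

/-- the paging -/
noncomputable def pgi (x : Cell n → ZMod 2) (c : Fin T → C) : ℤ → ℤ :=
  Pool.Agent.UM.ONE.pg b (SYSOM.pgo (mac Q s p T) T (phi Q l b T)
    (Pool.Agent.UM.ONE.sel b 1 K hb) (inp Q l x c))

/-- the possible pieces -/
abbrev Pt : Type := {j // j ∈ SYSOM.pieces (mac Q s p T) (Pool.Agent.UM.ONE.pg b) T}

open Classical in
/-- the pieces that read a cell -/
noncomputable def pcs (x : Cell n → ZMod 2) (e : Cell n) : Finset (Pt Q s p T b) :=
  univ.filter fun j => ∃ t < T,
    (mac Q s p T).pc (pgi Q s p l T K b hb x fun _ => default) L (inp Q l x fun _ => default) t =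
      j.1 ∧
    eblk l (Q.query t ((mac Q s p T).st (inp Q l x fun _ => default) t)) = some e

/-- the piece of a time -/
noncomputable def tcs (x : Cell n → ZMod 2) (t : Fin T) : Pt Q s p T b :=
  ⟨(mac Q s p T).pc (pgi Q s p l T K b hb x fun _ => default) L (inp Q l x fun _ => default) t,
    SYSOM.mem_pieces (mac Q s p T) (Pool.Agent.UM.ONE.pg b) L T _ _ t t.2⟩

theorem pgi_eq (hI : Indep Q T) (x : Cell n → ZMod 2) (c c' : Fin T → C) :
    pgi Q s p l T K b hb x c = pgi Q s p l T K b hb x c' := by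
  unfold pgi Pool.Agent.UM.SYSOM.pgo
  rw [tot_indep s p l hI b x c c']

theorem mem_pcs (hI : Indep Q T) (x : Cell n → ZMod 2) (c : Fin T → C) (e : Cell n)
    (j : Pt Q s p T b) : j ∈ pcs Q s p l L T K b hb x e ↔ ∃ t < T,
      (mac Q s p T).pc (pgi Q s p l T K b hb x c) L (inp Q l x c) t = j.1 ∧
      eblk l (Q.query t ((mac Q s p T).st (inp Q l x c) t)) = some e := by
  unfold pcs
  rw [mem_filter, pgi_eq Q s p l T K b hb hI x (fun _ => default) c]
  constructor
  · rintro ⟨-, t, ht, h1, h2⟩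
    rw [pc_eq s p l hI _ L x (fun _ => default) c t ht] at h1
    rw [query_eq s p l hI x (fun _ => default) c t ht] at h2
    exact ⟨t, ht, h1, h2⟩
  · rintro ⟨t, ht, h1, h2⟩
    rw [pc_eq s p l hI _ L x c (fun _ => default) t ht] at h1
    rw [query_eq s p l hI x c (fun _ => default) t ht] at h2
    exact ⟨mem_univ _, t, ht, h1, h2⟩

theorem tcs_val (hI : Indep Q T) (x : Cell n → ZMod 2) (c : Fin T → C) (t : Fin T) :
    (tcs Q s p l L T K b hb x t).1 =
      (mac Q s p T).pc (pgi Q s p l T K b hb x c) L (inp Q l x c) t := by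
  unfold tcs
  simp only
  rw [pgi_eq Q s p l T K b hb hI x (fun _ => default) c,
    pc_eq s p l hI _ L x (fun _ => default) c t t.2]

theorem ext_val (ω : Pt Q s p T b → Bool) (j : Pt Q s p T b) :
    SYSOM.ext (mac Q s p T) (Pool.Agent.UM.ONE.pg b) T ω j.1 = ω j := by
  unfold Pool.Agent.UM.SYSOM.ext
  rw [dif_pos j.2]

variable {Q}

theorem erd_eq (hI : Indep Q T) (x : Cell n → ZMod 2) (c : Fin T → C) :
    erd (Q.fix fun _ => default) T (einp s (Function.update p l x)) l =
      SYSOM.tot (mac Q s p T) T (phi Q l b T) (inp Q l x c) (Sum.inr 0) := by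
  rw [tot_indep s p l hI b x c fun _ => default, tot_inr]
  have h : ext (fun _ : Fin T => (default : C)) = fun _ => default := by
    funext t
    unfold ext
    split_ifs <;> rfl
  rw [h]

theorem query_some (t : ℕ) (ht : t < T) (v : V) (e : Fin T × V)
    (h : (mac Q s p T).query t v = some e) : e = (⟨t, ht⟩, v) := by
  unfold mac at h
  simp only at h
  rw [dif_pos ht] at h
  exact (Option.some.inj h).symm

/-- equal raw inputs at a time from the condition on the pieces of one colour -/
theorem inp_eq (hI : Indep Q T) (ω : Pt Q s p T b → Bool) (β : Bool) (x z : Cell n → ZMod 2)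
    (c c'' : Fin T → C) (hxz : ∀ e, (∃ j ∈ pcs Q s p l L T K b hb x e, ω j = β) → z e = x e)
    (hc : ∀ t, ω (tcs Q s p l L T K b hb x t) = β → c'' t = c t) (t : ℕ) (ht : t < T)
    (hω : ω (tcs Q s p l L T K b hb x ⟨t, ht⟩) = β) :
    inp Q l z c'' (⟨t, ht⟩, (mac Q s p T).st (inp Q l x c) t) =
      inp Q l x c (⟨t, ht⟩, (mac Q s p T).st (inp Q l x c) t) := by
  unfold inp
  simp only
  rw [hc _ hω]
  congr 1
  cases he : eblk l (Q.query t ((mac Q s p T).st (inp Q l x c) t)) with
  | none =>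
    have he' := he
    unfold inp at he'
    rw [he']
    rfl
  | some e =>
    have he' := he
    unfold inp at he'
    rw [he']
    rw [Option.map_some, Option.map_some]
    congr 1
    apply hxz
    refine ⟨tcs Q s p l L T K b hb x ⟨t, ht⟩, ?_, hω⟩
    rw [mem_pcs Q s p l L T K b hb hI x c]
    exact ⟨t, ht, (tcs_val Q s p l L T K b hb hI x c ⟨t, ht⟩).symm, he⟩

theorem color (hI : Indep Q T) (ω : Pt Q s p T b → Bool) (x : Cell n → ZMod 2) (c : Fin T → C)
    (t : ℕ) (ht : t < T) :
    SYSOM.ext (mac Q s p T) (Pool.Agent.UM.ONE.pg b) T ω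
      ((mac Q s p T).pc (pgi Q s p l T K b hb x c) L (inp Q l x c) t) =
        ω (tcs Q s p l L T K b hb x ⟨t, ht⟩) := by
  rw [← tcs_val Q s p l L T K b hb hI x c ⟨t, ht⟩, ext_val]

/-- the system -/
noncomputable def sys (hI : Indep Q T) {δ J B : ℕ} (hL : 0 < L)
    (hfar : ∀ x c, (Q.fix c).far δ T x ≤ J) :
    CSys (Cell n) (ZMod 2) (Pt Q s p T b)
      (SYSOM.Dat V G (Fin b ⊕ Fin 1) b T (T * δ / b + J) (T / L)) (Fin T) C
      (fun x => erd (Q.fix fun _ => default) T (einp s (Function.update p l x)) l ≤ B)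
      (fun x c => Q.weight T (einp s (Function.update p l x)) c) where
  pc := pcs Q s p l L T (T * δ / b + J) b hb
  tc := tcs Q s p l L T (T * δ / b + J) b hb
  data := fun ω x c => dat (mac Q s p T) (Pool.Agent.UM.ONE.pg b) b (Pool.Agent.UM.ONE.slot b) L T
    (T * δ / b + J) (phi Q l b T) (Pool.Agent.UM.ONE.sel b 1 (T * δ / b + J) hb) hL ω
    (inp Q l x c) (few s p l hb hfar x c)
  wt := fun t x c => Q.stepWt (einp s (Function.update p l x)) (ext c) t
  out := fun d => Q.val d.2.2
  mix := by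
    intro ω x y z c c' c'' hd hxz hyz hct hcf
    obtain ⟨-, ho, -⟩ := rel _ _ _ _ _ _ _ _ _ hL (Pool.Agent.UM.ONE.slot_inj b) ω _ _ _ _ hd
    have ho2 : pgi Q s p l T (T * δ / b + J) b hb y c' = pgi Q s p l T (T * δ / b + J) b hb x c :=
      congrArg (Pool.Agent.UM.ONE.pg b) ho
    have hcx := color s p l L T (T * δ / b + J) b hb hI ω x c
    have hcy := color s p l L T (T * δ / b + J) b hb hI ω y c'
    rw [ho2] at hcy
    have hex := inp_eq s p l L T (T * δ / b + J) b hb hI ω true x z c c'' hxz hct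
    have hey := inp_eq s p l L T (T * δ / b + J) b hb hI ω false y z c' c'' hyz hcf
    have hm := mixed (mac Q s p T) (Pool.Agent.UM.ONE.pg b) b (Pool.Agent.UM.ONE.slot b) L T
      (T * δ / b + J) (phi Q l b T) (Pool.Agent.UM.ONE.sel b 1 (T * δ / b + J) hb) hL
      (Pool.Agent.UM.ONE.slot_inj b) ω (inp Q l x c) (inp Q l y c') (inp Q l z c'')
      (few s p l hb hfar x c) (few s p l hb hfar y c') (few s p l hb hfar z c'') hd (by
        intro t ht hcol e he
        rw [query_some s p T t ht _ e he]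
        exact hex t ht ((hcx t ht).symm.trans hcol)) (by
        intro t ht hcol e he
        rw [query_some s p T t ht _ e he]
        exact hey t ht ((hcy t ht).symm.trans hcol))
    obtain ⟨ho', hdz, hz'⟩ := hm
    have ho3 : pgi Q s p l T (T * δ / b + J) b hb z c'' =
        pgi Q s p l T (T * δ / b + J) b hb x c :=
      congrArg (Pool.Agent.UM.ONE.pg b) ho'
    have hz2 : ∀ t (ht : t < T),
        (mac Q s p T).pc (pgi Q s p l T (T * δ / b + J) b hb x c) L (inp Q l z c'') t =
          (mac Q s p T).pc (pgi Q s p l T (T * δ / b + J) b hb x c) L (inp Q l x c) t ∧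
        (mac Q s p T).pc (pgi Q s p l T (T * δ / b + J) b hb x c) L (inp Q l y c') t =
          (mac Q s p T).pc (pgi Q s p l T (T * δ / b + J) b hb x c) L (inp Q l x c) t ∧
        (ω (tcs Q s p l L T (T * δ / b + J) b hb x ⟨t, ht⟩) = true →
          (mac Q s p T).st (inp Q l z c'') t = (mac Q s p T).st (inp Q l x c) t ∧
          (mac Q s p T).mem (inp Q l z c'') t (Q.addr t ((mac Q s p T).st (inp Q l x c) t)) =
            (mac Q s p T).mem (inp Q l x c) t (Q.addr t ((mac Q s p T).st (inp Q l x c) t))) ∧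
        (ω (tcs Q s p l L T (T * δ / b + J) b hb x ⟨t, ht⟩) = false →
          (mac Q s p T).st (inp Q l z c'') t = (mac Q s p T).st (inp Q l y c') t ∧
          (mac Q s p T).mem (inp Q l z c'') t (Q.addr t ((mac Q s p T).st (inp Q l y c') t)) =
            (mac Q s p T).mem (inp Q l y c') t (Q.addr t ((mac Q s p T).st (inp Q l y c') t))) := by
      intro t ht
      obtain ⟨a1, a2, a3, a4⟩ := hz' t ht
      exact ⟨a1, a2, fun h => a3 ((hcx t ht).trans h), fun h => a4 ((hcx t ht).trans h)⟩
    have htc : ∀ t (ht : t < T), tcs Q s p l L T (T * δ / b + J) b hb y ⟨t, ht⟩ =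
        tcs Q s p l L T (T * δ / b + J) b hb x ⟨t, ht⟩ := by
      intro t ht
      apply Subtype.ext
      rw [tcs_val Q s p l L T _ b hb hI x c, tcs_val Q s p l L T _ b hb hI y c', ho2]
      exact (hz2 t ht).2.1
    refine ⟨hdz, ?_, ?_⟩
    · intro e j
      rw [mem_pcs Q s p l L T _ b hb hI z c'', mem_pcs Q s p l L T _ b hb hI x c,
        mem_pcs Q s p l L T _ b hb hI y c', ho2, ho3]
      have hval : ∀ t (ht : t < T), (mac Q s p T).pc (pgi Q s p l T (T * δ / b + J) b hb x c) L
          (inp Q l x c) t = j.1 → tcs Q s p l L T (T * δ / b + J) b hb x ⟨t, ht⟩ = j := by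
        intro t ht h
        apply Subtype.ext
        rw [tcs_val Q s p l L T _ b hb hI x c]
        exact h
      by_cases hj : ω j = true
      · rw [if_pos hj]
        constructor
        · rintro ⟨t, ht, b1, b2⟩
          obtain ⟨a1, a2, a3, a4⟩ := hz2 t ht
          rw [a1] at b1
          rw [(a3 (by rw [hval t ht b1]; exact hj)).1] at b2
          exact ⟨t, ht, b1, b2⟩
        · rintro ⟨t, ht, b1, b2⟩
          obtain ⟨a1, a2, a3, a4⟩ := hz2 t ht
          refine ⟨t, ht, a1.trans b1, ?_⟩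
          rw [(a3 (by rw [hval t ht b1]; exact hj)).1]
          exact b2
      · rw [if_neg hj]
        have hj' : ω j = false := by simpa using hj
        constructor
        · rintro ⟨t, ht, b1, b2⟩
          obtain ⟨a1, a2, a3, a4⟩ := hz2 t ht
          rw [a1] at b1
          rw [(a4 (by rw [hval t ht b1]; exact hj')).1] at b2
          exact ⟨t, ht, a2.trans b1, b2⟩
        · rintro ⟨t, ht, b1, b2⟩
          obtain ⟨a1, a2, a3, a4⟩ := hz2 t ht
          rw [a2] at b1
          refine ⟨t, ht, a1.trans b1, ?_⟩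
          rw [(a4 (by rw [hval t ht b1]; exact hj')).1]
          exact b2
    · intro t
      obtain ⟨a1, a2, a3, a4⟩ := hz2 t t.2
      by_cases hj : ω (tcs Q s p l L T (T * δ / b + J) b hb x t) = true
      · rw [if_pos hj, stepWt_eq, stepWt_eq]
        obtain ⟨a5, a6⟩ := a3 hj
        rw [a5, a6]
        have a7 := hex t t.2 hj
        have a8 : inp Q l z c'' (t, (mac Q s p T).st (inp Q l x c) t) =
          inp Q l x c (t, (mac Q s p T).st (inp Q l x c) t) := a7
        rw [a8]
      · have hj' : ω (tcs Q s p l L T (T * δ / b + J) b hb x t) = false := by simpa using hj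
        rw [if_neg hj, stepWt_eq, stepWt_eq]
        obtain ⟨a5, a6⟩ := a4 hj'
        rw [a5, a6]
        have a7 := hey t t.2 (by rw [htc t t.2]; exact hj')
        have a8 : inp Q l z c'' (t, (mac Q s p T).st (inp Q l y c') t) =
          inp Q l y c' (t, (mac Q s p T).st (inp Q l y c') t) := a7
        rw [a8]
  time := by
    intro ω x y c c' hd t
    obtain ⟨-, ho, hr⟩ := rel _ _ _ _ _ _ _ _ _ hL (Pool.Agent.UM.ONE.slot_inj b) ω _ _ _ _ hd
    have ho2 : pgi Q s p l T (T * δ / b + J) b hb y c' = pgi Q s p l T (T * δ / b + J) b hb x c :=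
      congrArg (Pool.Agent.UM.ONE.pg b) ho
    apply Subtype.ext
    rw [tcs_val Q s p l L T _ b hb hI x c, tcs_val Q s p l L T _ b hb hI y c', ho2]
    exact Pool.Agent.UM.RECO.pc_eq _ _ L T _ _ hr t t.2
  recov := by
    intro ω x y c hd hxy e j hj
    obtain ⟨-, ho, hr⟩ := rel _ _ _ _ _ _ _ _ _ hL (Pool.Agent.UM.ONE.slot_inj b) ω _ _ _ _ hd
    have ho2 : pgi Q s p l T (T * δ / b + J) b hb y c = pgi Q s p l T (T * δ / b + J) b hb x c :=
      congrArg (Pool.Agent.UM.ONE.pg b) ho
    have hcx := color s p l L T (T * δ / b + J) b hb hI ω x c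
    have hcy := color s p l L T (T * δ / b + J) b hb hI ω y c
    rw [ho2] at hcy
    have hre := Pool.Agent.UM.reco _ _ V ℤ G ℤ (mac Q s p T)
      (pgi Q s p l T (T * δ / b + J) b hb x c) L T
      (SYSOM.ext (mac Q s p T) (Pool.Agent.UM.ONE.pg b) T ω) (inp Q l x c) (inp Q l y c) hL hr (by
        rintro e' ⟨t, ht, c1, c2⟩ ⟨t', ht', c1', c2'⟩
        have e1 := query_some s p T t ht _ e' c2
        have e2 := query_some s p T t' ht' _ e' c2'
        have e3 : t' = t := by
          have := e1.symm.trans e2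
          rw [Prod.mk.injEq, Fin.mk.injEq] at this
          exact this.1.symm
        subst e3
        have e4 : (mac Q s p T).st (inp Q l x c) t' = (mac Q s p T).st (inp Q l y c) t' := by
          have := e1.symm.trans e2
          rw [Prod.mk.injEq] at this
          exact this.2
        rw [hcx t' ht'] at c1
        rw [hcy t' ht'] at c1'
        rw [e1]
        unfold inp
        simp only
        congr 1
        cases he : eblk l (Q.query t' ((mac Q s p T).st (inp Q l x c) t')) with
        | none =>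
          have he' := he
          unfold inp at he'
          rw [he']
          rfl
        | some e =>
          have he' := he
          unfold inp at he'
          rw [he']
          rw [Option.map_some, Option.map_some]
          congr 1
          apply hxy
          · refine ⟨tcs Q s p l L T _ b hb x ⟨t', ht'⟩, ?_, c1⟩
            rw [mem_pcs Q s p l L T _ b hb hI x c]
            exact ⟨t', ht', (tcs_val Q s p l L T _ b hb hI x c ⟨t', ht'⟩).symm, he⟩
          · refine ⟨tcs Q s p l L T _ b hb y ⟨t', ht'⟩, ?_, c1'⟩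
            rw [mem_pcs Q s p l L T _ b hb hI y c]
            refine ⟨t', ht', (tcs_val Q s p l L T _ b hb hI y c ⟨t', ht'⟩).symm, ?_⟩
            rw [← e4]
            exact he)
    rw [mem_pcs Q s p l L T _ b hb hI x c, mem_pcs Q s p l L T _ b hb hI y c, ho2]
    have hval : ∀ t (ht : t < T), (mac Q s p T).pc (pgi Q s p l T (T * δ / b + J) b hb x c) L
        (inp Q l x c) t = j.1 → SYSOM.ext (mac Q s p T) (Pool.Agent.UM.ONE.pg b) T ω
          ((mac Q s p T).pc (pgi Q s p l T (T * δ / b + J) b hb x c) L (inp Q l x c) t) =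
            false := by
      intro t ht h
      rw [h, ext_val]
      exact hj
    constructor
    · rintro ⟨t, ht, b1, b2⟩
      obtain ⟨a1, a2⟩ := hre t ht
      refine ⟨t, ht, a1.trans b1, ?_⟩
      rw [a2 (hval t ht b1)]
      exact b2
    · rintro ⟨t, ht, b1, b2⟩
      obtain ⟨a1, a2⟩ := hre t ht
      rw [a1] at b1
      rw [a2 (hval t ht b1)] at b2
      exact ⟨t, ht, b1, b2⟩
  acc := by
    intro ω x y c c' hd
    obtain ⟨h, -, -⟩ := rel _ _ _ _ _ _ _ _ _ hL (Pool.Agent.UM.ONE.slot_inj b) ω _ _ _ _ hd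
    rw [erd_eq s p l T b hI x c, erd_eq s p l T b hI y c', h]
  fin := by
    intro ω x c
    unfold WMach.weight dat
    simp only
    rw [st_eq Q s p l x c T le_rfl]

theorem card_pc (hL : 0 < L) (x : Cell n → ZMod 2) (j : Pt Q s p T b) :
    (fil fun e => j ∈ pcs Q s p l L T K b hb x e).card ≤ L := by
  classical
  refine le_trans ?_ ((Pool.Agent.UM.comp ℤ (fun t => (mac Q s p T).blk
    (pgi Q s p l T K b hb x fun _ => default) (inp Q l x fun _ => default) t) L T hL).1 j.1)
  have hch : ∀ e ∈ (fil fun e => j ∈ pcs Q s p l L T K b hb x e), ∃ t < T,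
      (mac Q s p T).pc (pgi Q s p l T K b hb x fun _ => default) L (inp Q l x fun _ => default) t =
        j.1 ∧
      eblk l (Q.query t ((mac Q s p T).st (inp Q l x fun _ => default) t)) = some e := by
    intro e he
    rw [Pool.Agent.Lib_helper26.TS.mem_fil] at he
    unfold pcs at he
    rw [mem_filter] at he
    exact he.2
  choose! g hg using hch
  refine card_le_card_of_injOn g ?_ ?_
  · intro e he
    obtain ⟨g1, g2, g3⟩ := hg e he
    rw [mem_coe, mem_filter, mem_range]
    exact ⟨g1, g2⟩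
  · intro e he e' he' hee
    obtain ⟨g1, g2, g3⟩ := hg e he
    obtain ⟨g1', g2', g3'⟩ := hg e' he'
    rw [hee, g3'] at g3
    exact (Option.some.inj g3).symm

theorem sum_pc (x : Cell n → ZMod 2) :
    ∑ e, (pcs Q s p l L T K b hb x e).card ≤
      erd (Q.fix fun _ => default) T (einp s (Function.update p l x)) l := by
  classical
  have h0 : erd (Q.fix fun _ => default) T (einp s (Function.update p l x)) l =
      ((range T).filter fun t => (eblk l (Q.query t ((mac Q s p T).st
        (inp Q l x fun _ => default) t))).isSome = true).card := by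
    have h : ext (fun _ : Fin T => (default : C)) = fun _ => default := by
      funext t
      unfold ext
      split_ifs <;> rfl
    unfold erd
    congr 1
    apply filter_congr
    intro t ht
    rw [mem_range] at ht
    rw [st_eq Q s p l x _ t ht.le, h]
    rfl
  rw [h0]
  have h1 : ∀ e : Cell n, (pcs Q s p l L T K b hb x e).card ≤
      ((range T).filter fun t => eblk l (Q.query t ((mac Q s p T).st
        (inp Q l x fun _ => default) t)) = some e).card := by
    intro e
    have hch : ∀ j ∈ pcs Q s p l L T K b hb x e, ∃ t < T,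
        (mac Q s p T).pc (pgi Q s p l T K b hb x fun _ => default) L
          (inp Q l x fun _ => default) t = j.1 ∧
        eblk l (Q.query t ((mac Q s p T).st (inp Q l x fun _ => default) t)) = some e := by
      intro j hj
      unfold pcs at hj
      rw [mem_filter] at hj
      exact hj.2
    choose! g hg using hch
    refine card_le_card_of_injOn g ?_ ?_
    · intro j hj
      obtain ⟨g1, g2, g3⟩ := hg j hj
      rw [mem_coe, mem_filter, mem_range]
      exact ⟨g1, g3⟩
    · intro j hj j' hj' hee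
      obtain ⟨g1, g2, g3⟩ := hg j hj
      obtain ⟨g1', g2', g3'⟩ := hg j' hj'
      rw [hee, g2'] at g2
      exact (Subtype.ext g2).symm
  refine (sum_le_sum fun e _ => h1 e).trans ?_
  rw [← card_biUnion]
  · apply card_le_card
    intro t ht
    rw [mem_biUnion] at ht
    obtain ⟨e, _, he⟩ := ht
    rw [mem_filter] at he ⊢
    refine ⟨he.1, ?_⟩
    rw [he.2]
    rfl
  · intro e _ e' _ hne
    rw [Function.onFun, disjoint_left]
    intro t h1 h2
    rw [mem_filter] at h1 h2
    rw [h1.2] at h2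
    exact hne (Option.some.inj h2.2)

end system

end CSYS

/-- CSYS: the system of pieces of a machine whose outcomes do not influence the cells read and the
registers used. -/
theorem csys : CSYS_Stmt := by
  intro n m L T δ J b B V G C _ _ _ _ Q s p l hfar hI hL hb
  classical
  have hV : Nonempty V := ⟨Q.start⟩
  have hO : Nonempty (Fin b) := ⟨⟨0, hb⟩⟩
  have hI' : CSYS.Indep Q T := hI
  refine ⟨CSYS.Pt Q s p T b, SYSOM.Dat V G (Fin b ⊕ Fin 1) b T (T * δ / b + J) (T / L),
    inferInstance, inferInstance, inferInstance,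
    CSYS.sys s p l L T b hb hI' hL hfar, ?_, ?_, ?_⟩
  · intro x j
    exact CSYS.card_pc s p l L T (T * δ / b + J) b hb hL x j
  · intro x
    exact CSYS.sum_pc s p l L T (T * δ / b + J) b hb x
  · have h := Pool.Agent.UM.SYSOM.card_dat (V := V) (G := G) (κ := Fin b ⊕ Fin 1) b T
      (T * δ / b + J) Pool.Agent.UM.sparse (T / L)
    rw [Fintype.card_sum, Fintype.card_fin, Fintype.card_fin] at h
    exact h

end Pool.Agent.UCN
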