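import Pool.Agent.UM.Defs

/-!
# Machines with real weights; machines with a fixed order of reading
-/

set_option autoImplicit false

namespace Pool.Agent.UCN

open Pool.Agent.UM (Mach)

/-- A machine as in `Mach` that branches at each step into the outcomes `c : C`. The outcome
determines, together with the time, the state and the words read, the next state, the new contents
of the register used and a real weight. -/
structure WMach (I A V G C : Type) where
  /-- initial state -/
  start : V
  /-- initial contents of the registers -/
  init : ℤ → G
  /-- the input cell read at time `t` in state `v` -/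
  query : ℕ → V → I
  /-- the register used at time `t` in state `v` -/
  addr : ℕ → V → ℤ
  /-- next state and new contents of the register used -/
  next : ℕ → V → A → G → C → V × G
  /-- weight of the outcome -/
  wt : ℕ → V → A → G → C → ℝ
  /-- value of the last state -/
  val : V → ℝ

variable {I A V G C : Type}

/-- The machine with the outcomes `c`. -/
def WMach.fix (M : WMach I A V G C) (c : ℕ → C) : Mach I A V G where
  start := M.start
  init := M.init
  query := M.query
  addr := M.addr
  next := fun t v a g => M.next t v a g (c t)
  acc := fun _ => True

/-- The input cell read at time `t`. -/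
def cell (M : Mach I A V G) (x : I → A) (t : ℕ) : I := M.query t (M.conf x t).1

/-- The weight of the step at time `t`. -/
def WMach.stepWt (M : WMach I A V G C) (x : I → A) (c : ℕ → C) (t : ℕ) : ℝ :=
  M.wt t ((M.fix c).conf x t).1 (x (cell (M.fix c) x t))
    (((M.fix c).conf x t).2 ((M.fix c).reg x t)) (c t)

/-- The outcomes of `T` steps (and a default value afterwards). -/
def ext [Inhabited C] {T : ℕ} (c : Fin T → C) (t : ℕ) : C :=
  if h : t < T then c ⟨t, h⟩ else default

/-- The value of `x` after `T` steps: the sum over all strings of outcomes of the product of the
weights and the value of the last state. -/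
def WMach.value [Fintype C] [Inhabited C] (M : WMach I A V G C) (T : ℕ) (x : I → A) : ℝ :=
  ∑ c : Fin T → C, (∏ t : Fin T, M.stepWt x (ext c) t) * M.val ((M.fix (ext c)).conf x T).1

/-- Threshold mode with real weights: a machine with the outcomes `C` that makes at most `J` far
accesses, in which the outcomes have no influence on the input cells read and the registers used,
has after `T` steps a value greater than `θ` exactly for the inputs in `L`. -/
def InThr (C I A V G : Type) [Fintype C] [Inhabited C] (T δ J : ℕ) (L : (I → A) → Prop) : Prop :=
  ∃ (M : WMach I A V G C) (θ : ℝ), (∀ x c, (M.fix c).far δ T x ≤ J) ∧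
    (∀ x c c', ∀ t < T, cell (M.fix c) x t = cell (M.fix c') x t ∧
      (M.fix c).reg x t = (M.fix c').reg x t) ∧
    ∀ x, L x ↔ θ < M.value T x

/-- The sets decided in `T` steps by machines with states `V` and no memory that read the cell
`σ t` at time `t`. -/
def DecO (I A V : Type) (T : ℕ) (σ : Fin T → I) (L : (I → A) → Prop) : Prop :=
  ∃ M : Mach I A V Unit, (∀ (t : Fin T) v, M.query t v = σ t) ∧ ∀ x, L x ↔ M.Accepts T x

end Pool.Agent.UCN
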