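import Pool.Agent.UCN.Defs

/-!
# Machines that read many cells at once
-/

set_option autoImplicit false

namespace Pool.Agent.UCN

open Pool.Agent.UM (Mach)

/-- The input `x` as it is seen by a machine that reads `s` cells at once. -/
def many {I A : Type} (s : ℕ) (x : I → A) : (Fin s → I) → (Fin s → A) := fun q i => x (q i)

/-- Threshold mode with real weights for machines that read `s` cells at once: a machine with the
outcomes `C` that makes at most `J` far accesses, in which the outcomes have no influence on the
`s` input cells read and the register used, has after `T` steps a value greater than `θ` exactly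
for the inputs in `L`. -/
def InThrs (s : ℕ) (C I A V G : Type) [Fintype C] [Inhabited C] (T δ J : ℕ)
    (L : (I → A) → Prop) : Prop :=
  ∃ (M : WMach (Fin s → I) (Fin s → A) V G C) (θ : ℝ),
    (∀ x c, (M.fix c).far δ T (many s x) ≤ J) ∧
    (∀ x c c', ∀ t < T, cell (M.fix c) (many s x) t = cell (M.fix c') (many s x) t ∧
      (M.fix c).reg (many s x) t = (M.fix c').reg (many s x) t) ∧
    ∀ x, L x ↔ θ < M.value T (many s x)

/-- PP mode with `b` coins at each step: a machine that reads `s` cells at once and makes at most
`J` far accesses, in which the coins have no influence on the input cells read and the register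
used, accepts exactly the inputs in `L` for more than half of the `2 ^ (b T)` strings of coins (all
weights are `1`, the values of the states are `0` or `1`, so that the value is the number of
accepting strings). -/
def InCoins (s b : ℕ) (I A V G : Type) (T δ J : ℕ) (L : (I → A) → Prop) : Prop :=
  ∃ M : WMach (Fin s → I) (Fin s → A) V G (Fin b → Bool), (∀ t v a g c, M.wt t v a g c = 1) ∧
    (∀ v, M.val v = 0 ∨ M.val v = 1) ∧ (∀ x c, (M.fix c).far δ T (many s x) ≤ J) ∧
    (∀ x c c', ∀ t < T, cell (M.fix c) (many s x) t = cell (M.fix c') (many s x) t ∧
      (M.fix c).reg (many s x) t = (M.fix c').reg (many s x) t) ∧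
    ∀ x, L x ↔ 2 ^ (b * T) < 2 * M.value T (many s x)

/-- The sets decided in `T` steps by deterministic machines that read `s` cells at once and make
at most `J` far accesses. -/
def Decs (s : ℕ) (I A V G : Type) (T δ J : ℕ) (L : (I → A) → Prop) : Prop :=
  ∃ M : Mach (Fin s → I) (Fin s → A) V G, (∀ x, M.far δ T (many s x) ≤ J) ∧
    ∀ x, L x ↔ M.Accepts T (many s x)

/-- The sets decided in `T` steps by deterministic machines with states `V` and no further memory
that read the `s` cells `σ t` at time `t`. -/
def DecOs (s : ℕ) (I A V : Type) (T : ℕ) (σ : Fin T → Fin s → I) (L : (I → A) → Prop) : Prop :=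
  ∃ M : Mach (Fin s → I) (Fin s → A) V Unit, (∀ (t : Fin T) v, M.query t v = σ t) ∧
    ∀ x, L x ↔ M.Accepts T (many s x)

end Pool.Agent.UCN
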