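import Pool.Agent.UCN.Stmts

/-!
# DENSE: a slice with many rows and columns
-/

set_option autoImplicit false

namespace Pool.Agent.UCN

namespace DENSE

open Finset
open Pool.Agent.Lib_helper26.TS (fil mem_fil fil_congr card_fixed)
open Pool.Agent.Lib_helper26.TB

variable {n : ℕ}

/-- the nonempty slices -/
def EE (Z : (Cell n → ZMod 2) → Prop) (P : Finset (Cell n)) (z : Cell n → ZMod 2) : Prop :=
  ∃ c, Z (mix P c z)

theorem mix_self (Q : Finset (Fin n)) (z : Cell n → ZMod 2) :
    mix (side 2 Q) (fun e => z (2, e.2)) z = z := by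
  funext e
  by_cases h : e ∈ side 2 Q
  · rw [mix_pos h]
    obtain ⟨s, l⟩ := e
    have := (mem_side.1 h).1
    subst this
    rfl
  · rw [mix_neg h]

/-- the rows of a nonempty slice -/
theorem row_eq {P : Finset (Cell n)} {Q : Finset (Fin n)} {Z : (Cell n → ZMod 2) → Prop}
    (hZ : Closed P (side 2 Q) Z) {z : Cell n → ZMod 2} (hz : EE Z P z) :
    (fil fun c => Z (mix P c z)) = rowS Z P Q z := by
  ext c
  rw [rowS, mem_fil, mem_fil]
  constructor
  · intro h
    refine ⟨fun l => z (2, l), ?_⟩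
    rw [gin, mix_self]
    exact h
  · rintro ⟨v, hv⟩
    obtain ⟨c1, h1⟩ := hz
    have h2 := hZ _ _ hv h1 (fun i hP hQ => by
      rw [gin, mix_neg hP, mix_neg hQ, mix_neg hP])
    have h3 : (fun i => if i ∈ P then gin P Q z c v i else mix P c1 z i) = mix P c z := by
      funext i
      by_cases hi : i ∈ P
      · rw [if_pos hi, gin, mix_pos hi, mix_pos hi]
      · rw [if_neg hi, mix_neg hi, mix_neg hi]
    rw [h3] at h2
    exact h2

/-- the bits of `y` with numbers in `Q` -/
def vec (Q : Finset (Fin n)) (y : Cell n → ZMod 2) (l : Fin n) : ZMod 2 :=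
  if l ∈ Q then y (2, l) else 0

theorem mix_vec (Q : Finset (Fin n)) (y z : Cell n → ZMod 2) :
    mix (side 2 Q) (fun e => vec Q y e.2) z = mix (side 2 Q) y z := by
  funext e
  by_cases h : e ∈ side 2 Q
  · rw [mix_pos h, mix_pos h]
    obtain ⟨s, l⟩ := e
    have h1 := mem_side.1 h
    have h2 := h1.1
    subst h2
    simp only [vec, if_pos h1.2]
  · rw [mix_neg h, mix_neg h]

theorem mix_mix_same (P : Finset (Cell n)) (c d z : Cell n → ZMod 2) :
    mix P c (mix P d z) = mix P c z := by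
  funext i
  by_cases h : i ∈ P
  · rw [mix_pos h, mix_pos h]
  · rw [mix_neg h, mix_neg h, mix_neg h]

theorem col_mix (Z : (Cell n → ZMod 2) → Prop) (P : Finset (Cell n)) (Q : Finset (Fin n))
    (y z : Cell n → ZMod 2) : colS Z P Q (mix (side 2 Q) y z) = colS Z P Q z := by
  rw [colS, colS]
  refine fil_congr fun v => ?_
  simp only [gin, mix_mix_same]

theorem EE_mix {Z : (Cell n → ZMod 2) → Prop} {P : Finset (Cell n)} {Q : Finset (Fin n)}
    {y z : Cell n → ZMod 2} (h : EE Z P (mix (side 2 Q) y z)) : vec Q y ∈ colS Z P Q z := by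
  rw [colS, mem_fil]
  refine ⟨fun l hl => if_neg hl, ?_⟩
  obtain ⟨c, hc⟩ := h
  refine ⟨c, ?_⟩
  rw [gin, mix_vec]
  exact hc

theorem card_vec (Q : Finset (Fin n)) (v : Fin n → ZMod 2) :
    (fil fun y : Cell n → ZMod 2 => vec Q y = v).card * 2 ^ Q.card ≤ 2 ^ (3 * n) := by
  have h1 := card_fixed (side 2 Q) (fun e : Cell n => v e.2)
  rw [ZMod.card, card_cell] at h1
  have h2 : (side 2 Q).card = Q.card := by
    unfold side
    rw [card_map]
  rw [h2] at h1
  rw [← h1]
  refine Nat.mul_le_mul_right _ (card_le_card fun y hy => ?_)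
  rw [mem_fil] at hy ⊢
  rintro ⟨s, l⟩ he
  have h3 := mem_side.1 he
  have h4 := h3.1
  subst h4
  rw [← hy]
  simp only [vec, if_pos h3.2]

/-- few points lie in slices with few columns -/
theorem few (Z : (Cell n → ZMod 2) → Prop) (P : Finset (Cell n)) (Q : Finset (Fin n)) (ρ : ℕ) :
    ((fil fun z => EE Z P z ∧ (colS Z P Q z).card < 2 ^ ρ).card : ℝ) * 2 ^ Q.card ≤
      2 ^ ρ * 2 ^ (3 * n) := by
  classical
  have h1 := sum_mix (side 2 Q) (fun z : Cell n → ZMod 2 =>
    if EE Z P z ∧ (colS Z P Q z).card < 2 ^ ρ then (1 : ℝ) else 0)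
  have h2 : ∑ z : Cell n → ZMod 2, (if EE Z P z ∧ (colS Z P Q z).card < 2 ^ ρ then (1 : ℝ) else 0) =
      ((fil fun z => EE Z P z ∧ (colS Z P Q z).card < 2 ^ ρ).card : ℝ) := by
    rw [← Finset.sum_filter, Finset.sum_const, nsmul_eq_mul, mul_one]
    congr 2
    ext z
    rw [mem_fil]
    simp
  rw [h2, card_cell] at h1
  have h3 : ∀ z : Cell n → ZMod 2, (∑ y : Cell n → ZMod 2,
      (if EE Z P (mix (side 2 Q) y z) ∧ (colS Z P Q (mix (side 2 Q) y z)).card < 2 ^ ρ
        then (1 : ℝ) else 0)) * 2 ^ Q.card ≤ 2 ^ ρ * 2 ^ (3 * n) := by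
    intro z
    by_cases hc : (colS Z P Q z).card < 2 ^ ρ
    · have h4 : ∑ y : Cell n → ZMod 2,
          (if EE Z P (mix (side 2 Q) y z) ∧ (colS Z P Q (mix (side 2 Q) y z)).card < 2 ^ ρ
            then (1 : ℝ) else 0) ≤
          ∑ v ∈ colS Z P Q z, ((fil fun y : Cell n → ZMod 2 => vec Q y = v).card : ℝ) := by
        have h5 : ∀ v, ((fil fun y : Cell n → ZMod 2 => vec Q y = v).card : ℝ) =
            ∑ y : Cell n → ZMod 2, if vec Q y = v then (1 : ℝ) else 0 := by
          intro v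
          rw [← Finset.sum_filter, Finset.sum_const, nsmul_eq_mul, mul_one]
          congr 2
          ext y
          rw [mem_fil]
          simp
        rw [Finset.sum_congr rfl fun v _ => h5 v, Finset.sum_comm]
        refine Finset.sum_le_sum fun y _ => ?_
        by_cases h : EE Z P (mix (side 2 Q) y z) ∧
            (colS Z P Q (mix (side 2 Q) y z)).card < 2 ^ ρ
        · rw [if_pos h]
          calc (1 : ℝ) = if vec Q y = vec Q y then 1 else 0 := by rw [if_pos rfl]
            _ ≤ _ := Finset.single_le_sum (f := fun v => if vec Q y = v then (1 : ℝ) else 0)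
              (fun v _ => by split_ifs <;> norm_num) (EE_mix h.1)
        · rw [if_neg h]
          exact Finset.sum_nonneg fun v _ => by split_ifs <;> norm_num
      have h6 : (∑ v ∈ colS Z P Q z,
          ((fil fun y : Cell n → ZMod 2 => vec Q y = v).card : ℝ)) * 2 ^ Q.card ≤
          (colS Z P Q z).card * 2 ^ (3 * n) := by
        rw [Finset.sum_mul, ← nsmul_eq_mul, ← Finset.sum_const]
        refine Finset.sum_le_sum fun v _ => ?_
        exact_mod_cast card_vec Q v
      have h7 : ((colS Z P Q z).card : ℝ) ≤ 2 ^ ρ := by exact_mod_cast hc.le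
      calc _ ≤ _ := mul_le_mul_of_nonneg_right h4 (by positivity)
        _ ≤ _ := h6
        _ ≤ _ := mul_le_mul_of_nonneg_right h7 (by positivity)
    · have h4 : ∑ y : Cell n → ZMod 2,
          (if EE Z P (mix (side 2 Q) y z) ∧ (colS Z P Q (mix (side 2 Q) y z)).card < 2 ^ ρ
            then (1 : ℝ) else 0) = 0 := by
        refine Finset.sum_eq_zero fun y _ => if_neg ?_
        rw [col_mix]
        exact fun h => hc h.2
      rw [h4, zero_mul]
      positivity
  have h8 : (2 : ℝ) ^ (3 * n) *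
      (((fil fun z => EE Z P z ∧ (colS Z P Q z).card < 2 ^ ρ).card : ℝ) * 2 ^ Q.card) ≤
      2 ^ (3 * n) * (2 ^ ρ * 2 ^ (3 * n)) := by
    rw [← mul_assoc, ← h1, Finset.sum_mul]
    refine (Finset.sum_le_sum fun z _ => h3 z).trans (le_of_eq ?_)
    rw [Finset.sum_const, nsmul_eq_mul, card_univ, Pool.Agent.Lib_helper26.TB.card_pi, card_cell]
  exact le_of_mul_le_mul_left h8 (by positivity)

/-- the slices of `Z` -/
theorem slices {P : Finset (Cell n)} {Q : Finset (Fin n)} {Z : (Cell n → ZMod 2) → Prop}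
    (hZ : Closed P (side 2 Q) Z) :
    2 ^ (3 * n) * ((fil Z).card : ℝ) = ∑ z ∈ fil (EE Z P), ((rowS Z P Q z).card : ℝ) := by
  classical
  have h1 := sum_mix P (fun z : Cell n → ZMod 2 => if Z z then (1 : ℝ) else 0)
  have h2 : ∀ f : (Cell n → ZMod 2) → Prop,
      ∑ z : Cell n → ZMod 2, (if f z then (1 : ℝ) else 0) = ((fil f).card : ℝ) := by
    intro f
    rw [← Finset.sum_filter, Finset.sum_const, nsmul_eq_mul, mul_one]
    congr 2
  rw [h2 Z, card_cell] at h1
  rw [← h1]
  rw [Finset.sum_congr rfl fun z _ => h2 (fun c => Z (mix P c z))]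
  symm
  have h3 : ∀ z ∈ fil (EE Z P), ((rowS Z P Q z).card : ℝ) =
      ((fil fun c => Z (mix P c z)).card : ℝ) := fun z hz => by
    rw [row_eq hZ (mem_fil.1 hz)]
  rw [Finset.sum_congr rfl h3]
  refine Finset.sum_subset (subset_univ _) fun z _ hz => ?_
  rw [mem_fil] at hz
  have h4 : (fil fun c => Z (mix P c z)) = ∅ := by
    refine Finset.eq_empty_of_forall_notMem fun c hc => ?_
    rw [mem_fil] at hc
    exact hz ⟨c, hc⟩
  rw [h4, card_empty, Nat.cast_zero]

end DENSE

open Finset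
open Pool.Agent.Lib_helper26.TS (fil mem_fil fil_congr card_fixed)
open Pool.Agent.Lib_helper26.TB

theorem dense : DENSE_Stmt := by
  classical
  intro n ρ Q F Z η hZ hdis hη hsum hF
  by_contra hcon
  push Not at hcon
  set N : ℝ := 2 ^ (3 * n) with hN
  have hN0 : 0 < N := by positivity
  -- the slices are disjoint
  have h1 : ∑ p ∈ F, ((fil (DENSE.EE (Z p) (PP p))).card : ℝ) ≤ N := by
    have e1 : (F.biUnion fun p => fil (DENSE.EE (Z p) (PP p))).card =
        ∑ p ∈ F, (fil (DENSE.EE (Z p) (PP p))).card := by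
      refine card_biUnion fun p hp p' hp' hne => ?_
      change Disjoint (fil (DENSE.EE (Z p) (PP p))) (fil (DENSE.EE (Z p') (PP p')))
      rw [Finset.disjoint_left]
      intro z hz hz'
      obtain ⟨c, hc⟩ := mem_fil.1 hz
      obtain ⟨c', hc'⟩ := mem_fil.1 hz'
      exact hne (hdis p hp p' hp' _ _ z hc hc' (fun i hi => mix_neg hi) (fun i hi => mix_neg hi))
    have e2 : (F.biUnion fun p => fil (DENSE.EE (Z p) (PP p))).card ≤
        Fintype.card (Cell n → ZMod 2) := card_le_univ _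
    have e3 : ((∑ p ∈ F, (fil (DENSE.EE (Z p) (PP p))).card : ℕ) : ℝ) ≤
        (Fintype.card (Cell n → ZMod 2) : ℝ) := by
      rw [← e1]
      exact_mod_cast e2
    rw [Pool.Agent.Lib_helper26.TB.card_pi, card_cell] at e3
    push_cast at e3
    exact e3
  -- the rows
  have hrow : ∀ p z, ((rowS (Z p) (PP p) Q z).card : ℝ) ≤ N := by
    intro p z
    have e2 : (rowS (Z p) (PP p) Q z).card ≤ Fintype.card (Cell n → ZMod 2) := card_le_univ _
    have e3 : ((rowS (Z p) (PP p) Q z).card : ℝ) ≤ (Fintype.card (Cell n → ZMod 2) : ℝ) := by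
      exact_mod_cast e2
    rwa [Pool.Agent.Lib_helper26.TB.card_pi, card_cell] at e3
  have h2 : ∀ p ∈ F, N * ((fil (Z p)).card : ℝ) ≤
      (η / 4 * N) * ((fil (DENSE.EE (Z p) (PP p))).card : ℝ) +
      N * ((fil fun z => DENSE.EE (Z p) (PP p) z ∧
        (colS (Z p) (PP p) Q z).card < 2 ^ ρ).card : ℝ) := by
    intro p hp
    rw [hN, DENSE.slices (hZ p hp), ← hN]
    have e1 : ∀ z ∈ fil (DENSE.EE (Z p) (PP p)), ((rowS (Z p) (PP p) Q z).card : ℝ) ≤
        η / 4 * N + (if (colS (Z p) (PP p) Q z).card < 2 ^ ρ then N else 0) := by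
      intro z _
      by_cases h : (colS (Z p) (PP p) Q z).card < 2 ^ ρ
      · rw [if_pos h]
        have := hrow p z
        have h0 : 0 ≤ η / 4 * N := by positivity
        linarith
      · rw [if_neg h, add_zero]
        by_contra hlt
        rw [not_le] at hlt
        exact h (hcon p hp z hlt.le)
    refine (Finset.sum_le_sum e1).trans (le_of_eq ?_)
    rw [Finset.sum_add_distrib, Finset.sum_const, nsmul_eq_mul, ← Finset.sum_filter,
      Finset.sum_const, nsmul_eq_mul]
    have e2 : (fil (DENSE.EE (Z p) (PP p))).filter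
        (fun z => (colS (Z p) (PP p) Q z).card < 2 ^ ρ) =
        fil fun z => DENSE.EE (Z p) (PP p) z ∧ (colS (Z p) (PP p) Q z).card < 2 ^ ρ := by
      ext z
      rw [mem_filter, mem_fil, mem_fil]
    rw [e2]
    ring
  have h3 := Finset.sum_le_sum h2
  rw [← Finset.mul_sum, Finset.sum_add_distrib, ← Finset.mul_sum, ← Finset.mul_sum] at h3
  have h4 : N * (η * N) ≤ N * ∑ p ∈ F, ((fil (Z p)).card : ℝ) :=
    mul_le_mul_of_nonneg_left hsum hN0.le
  have h5 : (∑ p ∈ F, ((fil fun z => DENSE.EE (Z p) (PP p) z ∧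
      (colS (Z p) (PP p) Q z).card < 2 ^ ρ).card : ℝ)) * 2 ^ Q.card ≤ F.card * (2 ^ ρ * N) := by
    rw [Finset.sum_mul, ← nsmul_eq_mul, ← Finset.sum_const]
    exact Finset.sum_le_sum fun p _ => DENSE.few (Z p) (PP p) Q ρ
  set S : ℝ := ∑ p ∈ F, ((fil fun z => DENSE.EE (Z p) (PP p) z ∧
      (colS (Z p) (PP p) Q z).card < 2 ^ ρ).card : ℝ) with hS
  have hQ : (0 : ℝ) < 2 ^ Q.card := by positivity
  have h6 : S ≤ η / 4 * N := by
    have e1 : S * 2 ^ Q.card ≤ (η / 4 * N) * 2 ^ Q.card := by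
      refine h5.trans ?_
      have e2 := mul_le_mul_of_nonneg_right hF hN0.le
      nlinarith
    exact le_of_mul_le_mul_right e1 hQ
  have h7 : (η / 4 * N) * ∑ p ∈ F, ((fil (DENSE.EE (Z p) (PP p))).card : ℝ) ≤
      (η / 4 * N) * N := mul_le_mul_of_nonneg_left h1 (by positivity)
  have h8 : N * S ≤ N * (η / 4 * N) := mul_le_mul_of_nonneg_left h6 hN0.le
  have h9 : 0 < η * (N * N) := by positivity
  nlinarith

end Pool.Agent.UCN
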