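import Pool.Agent.UCN.Stmts
import Pool.Agent.UM.Final

/-!
# The lower bound for machines with coins
-/

set_option autoImplicit false

namespace Pool.Agent.UCN

open Finset
open Pool.Agent.Lib_helper26.TS (fil mem_fil)
open Pool.Agent.Lib_helper26.TB (Cell cub sum_update)
open Pool.Agent.UM (ECell Mach einp erd form tens rich moore form_thm num)

namespace LOWC

variable {n m : ℕ}

/-- a point that is read at most `B` times for half of its values -/
theorem point (T B : ℕ) (rd : (Fin m → Cell n → ZMod 2) → Fin m → ℕ) (hm : 0 < m)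
    (hTB : 4 * T ≤ m * (B + 1)) (hrd : ∀ p, ∑ l, rd p l ≤ T) :
    ∃ (p : Fin m → Cell n → ZMod 2) (l : Fin m),
      2 ^ (3 * n) ≤ 2 * (fil fun x => rd (Function.update p l x) l ≤ B).card := by
  classical
  by_contra hcon
  push Not at hcon
  set N : ℝ := (Fintype.card (Fin m → Cell n → ZMod 2) : ℝ) with hN
  have hN0 : 0 < N := by
    rw [hN]
    exact_mod_cast Fintype.card_pos
  have h2 : (0 : ℝ) < 2 ^ (3 * n) := by positivity
  have hmr : (0 : ℝ) < m := by exact_mod_cast hm
  set g : Fin m → (Fin m → Cell n → ZMod 2) → ℝ := fun l p => if rd p l ≤ B then 1 else 0 with hg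
  have h3 : ∀ l, ∑ p, g l p < N / 2 := by
    intro l
    have h4 := sum_update l (g l)
    rw [UM.BLOCK.card_pts] at h4
    have h5 : ∀ p : Fin m → Cell n → ZMod 2, ∑ x, g l (Function.update p l x) <
        2 ^ (3 * n) / 2 := by
      intro p
      have h6 : ∑ x, g l (Function.update p l x) =
          ((fil fun x => rd (Function.update p l x) l ≤ B).card : ℝ) := by
        rw [hg]
        simp only
        rw [← Finset.sum_filter, Finset.sum_const, nsmul_eq_mul, mul_one]
        congr 2
        ext x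
        rw [mem_filter, mem_fil]
        exact ⟨fun h => h.2, fun h => ⟨mem_univ _, h⟩⟩
      rw [h6, lt_div_iff₀ (by norm_num), mul_comm]
      exact_mod_cast hcon p l
    have h6 : ∑ p : Fin m → Cell n → ZMod 2, ∑ x, g l (Function.update p l x) <
        ∑ _p : Fin m → Cell n → ZMod 2, (2 : ℝ) ^ (3 * n) / 2 :=
      Finset.sum_lt_sum_of_nonempty ⟨fun _ _ => 0, mem_univ _⟩ fun p _ => h5 p
    rw [h4, Finset.sum_const, card_univ, nsmul_eq_mul, ← hN] at h6
    have h7 : (2 : ℝ) ^ (3 * n) * ∑ p, g l p < 2 ^ (3 * n) * (N / 2) := by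
      refine h6.trans_le (le_of_eq ?_)
      ring
    exact lt_of_mul_lt_mul_left h7 h2.le
  have h4 : ∀ p : Fin m → Cell n → ZMod 2, (m : ℝ) * (3 / 4) ≤ ∑ l, g l p := by
    intro p
    have h5 := UM.BLOCK.bads_card B hrd p
    have h6 : 4 * (UM.BLOCK.bads rd B p).card ≤ m := by
      refine Nat.le_of_mul_le_mul_right ?_ (Nat.succ_pos B)
      calc 4 * (UM.BLOCK.bads rd B p).card * (B + 1) =
            4 * ((UM.BLOCK.bads rd B p).card * (B + 1)) := by ring
        _ ≤ 4 * T := Nat.mul_le_mul_left _ h5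
        _ ≤ m * (B + 1) := hTB
    have h7 : (∑ l, g l p) + ((UM.BLOCK.bads rd B p).card : ℝ) = m := by
      have h8 : ((UM.BLOCK.bads rd B p).card : ℝ) = ∑ l, if B < rd p l then (1 : ℝ) else 0 := by
        unfold UM.BLOCK.bads
        rw [← Finset.sum_filter, Finset.sum_const, nsmul_eq_mul, mul_one]
      rw [h8, ← Finset.sum_add_distrib]
      calc ∑ l, (g l p + if B < rd p l then (1 : ℝ) else 0) = ∑ _l : Fin m, (1 : ℝ) := by
            refine Finset.sum_congr rfl fun l _ => ?_
            rw [hg]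
            simp only
            by_cases h9 : rd p l ≤ B
            · rw [if_pos h9, if_neg (not_lt.2 h9), add_zero]
            · rw [if_neg h9, if_pos (not_le.1 h9), zero_add]
        _ = m := by simp
    have h8 : (4 : ℝ) * (UM.BLOCK.bads rd B p).card ≤ m := by exact_mod_cast h6
    linarith
  have h5 : N * (m * (3 / 4)) ≤ ∑ p, ∑ l, g l p := by
    calc N * (m * (3 / 4)) = ∑ _p : Fin m → Cell n → ZMod 2, (m : ℝ) * (3 / 4) := by
          rw [Finset.sum_const, card_univ, nsmul_eq_mul]
      _ ≤ _ := Finset.sum_le_sum fun p _ => h4 p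
  have h6 : ∑ p, ∑ l, g l p ≤ m * (N / 2) := by
    rw [Finset.sum_comm]
    calc ∑ l, ∑ p, g l p ≤ ∑ _l : Fin m, N / 2 := Finset.sum_le_sum fun l _ => (h3 l).le
      _ = m * (N / 2) := by simp
  have h7 : 0 < N * m := mul_pos hN0 hmr
  linarith

end LOWC

open LOWC in
theorem lowc (h1 : CSYS_Stmt) (h2 : SYSC_Stmt) : LOWC_Stmt := by
  classical
  intro n m k T δ J V G C _ _ _ _ α hn hk hm hT hL
  by_contra hcon
  push Not at hcon
  obtain ⟨Q, θ, hfar, hbl, hacc⟩ := hL
  have hV : 0 < Fintype.card V := Fintype.card_pos_iff.2 ⟨Q.start⟩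
  have hG : 0 < Fintype.card G := Fintype.card_pos_iff.2 ⟨Q.init 0⟩
  obtain ⟨ρ, γ, X, L, K, b, a1, a2, a3, a4, a5, a6, a7, a8, a9, a10, a11, a12, a13, a14, a15, a16,
    a17⟩ := num n m k (Fintype.card V) (Fintype.card G) T δ J 0 hk hV hG hm hT (by
      rw [zero_add, one_mul]
      exact hcon)
  obtain ⟨s, hs⟩ := rich moore n m ρ α hn a16 a17
  have hm0 : 0 < m := lt_of_lt_of_le (by positivity) hm
  have hB : 16 * (k * n) ≤ 6 * k * (3 * n) := by
    have : 6 * k * (3 * n) = 18 * (k * n) := by ring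
    omega
  have hTB : 4 * T ≤ m * (16 * (k * n) + 1) := by
    calc 4 * T ≤ 4 * (k * (4 * n * m)) := Nat.mul_le_mul_left _ hT
      _ = m * (16 * (k * n)) := by ring
      _ ≤ _ := Nat.mul_le_mul_left _ (Nat.le_succ _)
  obtain ⟨p, l, hpl⟩ := point (n := n) T (16 * (k * n))
    (fun p l => erd (Q.fix fun _ => default) T (einp (fun q => α.repr (s q.1) q.2) p) l) hm0 hTB
    (fun p => UM.LOW.sum_erd _ T _)
  obtain ⟨P, D, _, _, _, S, hS1, hS2, hS3⟩ := h1 n m L T δ J b (16 * (k * n)) V G C Q
    (fun q => α.repr (s q.1) q.2) p l hfar hbl a11 a12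
  have hD : Fintype.card D ≤ 2 ^ K := by
    refine hS3.trans (le_trans ?_ a15)
    gcongr
    · omega
    · omega
  refine h2 n ρ (6 * k) γ X (16 * (k * n)) L K (tens α s) P D (Fin T) C _ _ S
    (1 + ∑ l' ∈ univ.erase l, cub (tens α s) (p l')) θ hs (by omega) a1 a2 a3 a4 a5
    a6 a7 a9 a10 a11 hB ?_ ?_ hS1 (fun x hx => (hS2 x).trans hx) hD hpl ?_
  · refine le_trans ?_ a13
    gcongr
    norm_num
  · refine le_trans ?_ a14
    gcongr
    norm_num
  · intro x _
    have h3 := hacc (einp (fun q => α.repr (s q.1) q.2) (Function.update p l x))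
    have h4 : form α (einp (fun q => α.repr (s q.1) q.2) (Function.update p l x)) =
        cub (tens α s) x + ∑ l' ∈ univ.erase l, cub (tens α s) (p l') := by
      rw [UM.LOW.form_einp form_thm α s, ← Finset.add_sum_erase univ _ (mem_univ l),
        Function.update_self]
      congr 1
      refine Finset.sum_congr rfl fun l' hl' => ?_
      rw [Function.update_of_ne (mem_erase.1 hl').1]
    have h5 : cub (tens α s) x = 1 + ∑ l' ∈ univ.erase l, cub (tens α s) (p l') ↔
        form α (einp (fun q => α.repr (s q.1) q.2) (Function.update p l x)) = 1 := by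
      rw [h4]
      generalize ∑ l' ∈ univ.erase l, cub (tens α s) (p l') = r
      generalize cub (tens α s) x = c
      revert r c
      decide
    exact h5.trans h3

end Pool.Agent.UCN
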