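import Pool.Agent.UCN.Stmts
import Pool.Agent.UM.Famm

/-!
# NORM: the spectral norm of the sign matrix of a rich form
-/

set_option autoImplicit false

namespace Pool.Agent.UCN

namespace NORM

open Finset
open Pool.Agent.Lib_helper26.TB
open Pool.Agent.UM (RichAt)

variable {n : ℕ}

theorem sg_sq (a : ZMod 2) : sg a * sg a = 1 := by
  rcases zmod2 a with rfl | rfl
  · rw [sg_zero]; norm_num
  · rw [sg_one]; norm_num

/-- the form as a function of the third word -/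
theorem sg_gin (M : Fin n → Fin n → Fin n → ZMod 2) (A B Q : Finset (Fin n))
    (z c : Cell n → ZMod 2) (v : Fin n → ZMod 2) (hv : ∀ l, l ∉ Q → v l = 0) :
    sg (cub M (gin (PP (A, B)) Q z c v)) =
      sg (∑ l ∈ univ \ Q, mix (PP (A, B)) c z (2, l) * coef M l (mix (PP (A, B)) c z))
        * sg (∑ l, v l * coef M l (mix (PP (A, B)) c z)) := by
  unfold gin
  rw [mix_comm (PP_disj (A, B) Q), cub_mix, sg_add, sum_side]
  congr 2
  refine Finset.sum_subset (subset_univ Q) fun l _ hl => ?_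
  rw [hv l hl, zero_mul]

theorem sg_pair (M : Fin n → Fin n → Fin n → ZMod 2) (A B Q : Finset (Fin n))
    (z c : Cell n → ZMod 2) (v v' : Fin n → ZMod 2) (hv : ∀ l, l ∉ Q → v l = 0)
    (hv' : ∀ l, l ∉ Q → v' l = 0) :
    sg (cub M (gin (PP (A, B)) Q z c v)) * sg (cub M (gin (PP (A, B)) Q z c v')) =
      sg (∑ l, (v + v') l * coef M l (mix (PP (A, B)) c z)) := by
  rw [sg_gin M A B Q z c v hv, sg_gin M A B Q z c v' hv']
  have e : ∑ l, (v + v') l * coef M l (mix (PP (A, B)) c z)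
      = (∑ l, v l * coef M l (mix (PP (A, B)) c z))
        + ∑ l, v' l * coef M l (mix (PP (A, B)) c z) := by
    rw [← Finset.sum_add_distrib]
    refine Finset.sum_congr rfl fun l _ => ?_
    rw [Pi.add_apply, add_mul]
  rw [e, sg_add]
  have h := sg_sq (∑ l ∈ univ \ Q, mix (PP (A, B)) c z (2, l) * coef M l (mix (PP (A, B)) c z))
  linear_combination (sg (∑ l, v l * coef M l (mix (PP (A, B)) c z))
    * sg (∑ l, v' l * coef M l (mix (PP (A, B)) c z))) * h

end NORM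

open Finset NORM in
open Pool.Agent.Lib_helper26.TB in
open Pool.Agent.UM (RichAt) in
/-- **NORM**: the spectral norm of the sign matrix of a rich form. -/
theorem norm : NORM_Stmt := by
  classical
  intro n ρ M A B Q z X Y α β hM hA hB hY
  set f : (Cell n → ZMod 2) → ℝ := fun c =>
    ∑ v ∈ Y, β v * sg (cub M (gin (PP (A, B)) Q z c v)) with hf
  have h0 : ∑ c ∈ X, ∑ v ∈ Y, sg (cub M (gin (PP (A, B)) Q z c v)) * (α c * β v)
      = ∑ c ∈ X, α c * f c := by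
    refine Finset.sum_congr rfl fun c _ => ?_
    rw [hf, Finset.mul_sum]
    exact Finset.sum_congr rfl fun v _ => by ring
  have h1 : (∑ c ∈ X, α c * f c) ^ 2 ≤ (∑ c ∈ X, α c ^ 2) * ∑ c ∈ X, f c ^ 2 :=
    Finset.sum_mul_sq_le_sq_mul_sq X α f
  have h2 : ∑ c ∈ X, f c ^ 2 ≤ ∑ c, f c ^ 2 :=
    Finset.sum_le_univ_sum_of_nonneg fun c => sq_nonneg _
  set S : (Fin n → ZMod 2) → (Fin n → ZMod 2) → ℝ := fun v v' =>
    ∑ c : Cell n → ZMod 2, sg (cub M (gin (PP (A, B)) Q z c v))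
      * sg (cub M (gin (PP (A, B)) Q z c v')) with hS
  have h3 : ∑ c, f c ^ 2 = ∑ v ∈ Y, ∑ v' ∈ Y, β v * β v' * S v v' := by
    have e1 : ∀ c, f c ^ 2 = ∑ v ∈ Y, ∑ v' ∈ Y, β v * β v' *
        (sg (cub M (gin (PP (A, B)) Q z c v)) * sg (cub M (gin (PP (A, B)) Q z c v'))) := by
      intro c
      rw [hf, sq, Finset.sum_mul_sum]
      exact Finset.sum_congr rfl fun v _ => Finset.sum_congr rfl fun v' _ => by ring
    simp only [e1]
    rw [Finset.sum_comm]
    refine Finset.sum_congr rfl fun v _ => ?_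
    rw [Finset.sum_comm]
    refine Finset.sum_congr rfl fun v' _ => ?_
    rw [hS, Finset.mul_sum]
  have hcard : (Fintype.card (Cell n → ZMod 2) : ℝ) = 2 ^ (3 * n) := by
    rw [Fintype.card_fun, ZMod.card, card_cell]
    push_cast
    rfl
  have h4 : ∀ v ∈ Y, ∀ v' ∈ Y, β v * β v' * S v v' ≤
      (if v = v' then β v ^ 2 * 2 ^ (3 * n) else 0) + |β v| * |β v'| * (2 ^ (3 * n) / 2 ^ ρ) := by
    intro v hv v' hv'
    by_cases h : v = v'
    · subst h
      rw [if_pos rfl]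
      have e2 : S v v = 2 ^ (3 * n) := by
        rw [hS]
        simp only [sg_sq]
        rw [Finset.sum_const, Finset.card_univ, nsmul_eq_mul, mul_one, hcard]
      rw [e2]
      have : 0 ≤ |β v| * |β v| * ((2 : ℝ) ^ (3 * n) / 2 ^ ρ) := by positivity
      nlinarith
    · rw [if_neg h, zero_add]
      have hne : v + v' ≠ 0 := by
        intro h5
        refine h (funext fun i => ?_)
        have h6 := congrFun h5 i
        rw [Pi.add_apply, Pi.zero_apply] at h6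
        have h7 : v' i + v' i = 0 := CharTwo.add_self_eq_zero _
        exact add_right_cancel (h6.trans h7.symm)
      have h5 := Pool.Agent.UM.FAMM.bias hM hne hA hB z
      have e3 : S v v' = ∑ c, sg (∑ l, (v + v') l * coef M l (mix (side 0 A ∪ side 1 B) c z)) := by
        rw [hS]
        exact Finset.sum_congr rfl fun c _ => sg_pair M A B Q z c v v' (hY v hv) (hY v' hv')
      rw [← e3] at h5
      have h6 : |S v v'| ≤ 2 ^ (3 * n) / 2 ^ ρ := by
        rw [le_div_iff₀ (by positivity)]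
        exact h5
      calc β v * β v' * S v v' ≤ |β v * β v' * S v v'| := le_abs_self _
        _ = |β v| * |β v'| * |S v v'| := by rw [abs_mul, abs_mul]
        _ ≤ _ := mul_le_mul_of_nonneg_left h6 (by positivity)
  have h5 : ∑ c, f c ^ 2 ≤ 2 ^ (3 * n) * (1 + (Y.card : ℝ) / 2 ^ ρ) * ∑ v ∈ Y, β v ^ 2 := by
    rw [h3]
    have h6 : ∑ v ∈ Y, ∑ v' ∈ Y, β v * β v' * S v v' ≤
        ∑ v ∈ Y, ∑ v' ∈ Y, ((if v = v' then β v ^ 2 * 2 ^ (3 * n) else 0)
          + |β v| * |β v'| * (2 ^ (3 * n) / 2 ^ ρ)) :=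
      Finset.sum_le_sum fun v hv => Finset.sum_le_sum fun v' hv' => h4 v hv v' hv'
    have h7 : ∑ v ∈ Y, ∑ v' ∈ Y, ((if v = v' then β v ^ 2 * 2 ^ (3 * n) else 0)
          + |β v| * |β v'| * (2 ^ (3 * n) / 2 ^ ρ))
        = 2 ^ (3 * n) * (∑ v ∈ Y, β v ^ 2) + (∑ v ∈ Y, |β v|) ^ 2 * (2 ^ (3 * n) / 2 ^ ρ) := by
      simp only [Finset.sum_add_distrib]
      congr 1
      · rw [Finset.mul_sum]
        refine Finset.sum_congr rfl fun v hv => ?_
        rw [Finset.sum_ite_eq Y v, if_pos hv]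
        ring
      · rw [sq, Finset.sum_mul_sum, Finset.sum_mul]
        exact Finset.sum_congr rfl fun v _ => by rw [Finset.sum_mul]
    have h8 : (∑ v ∈ Y, |β v|) ^ 2 ≤ Y.card * ∑ v ∈ Y, β v ^ 2 := by
      have := sq_sum_le_card_mul_sum_sq (s := Y) (f := fun v => |β v|)
      simpa only [sq_abs] using this
    rw [h7] at h6
    refine h6.trans ?_
    have h9 : (∑ v ∈ Y, |β v|) ^ 2 * ((2 : ℝ) ^ (3 * n) / 2 ^ ρ)
        ≤ (Y.card * ∑ v ∈ Y, β v ^ 2) * (2 ^ (3 * n) / 2 ^ ρ) :=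
      mul_le_mul_of_nonneg_right h8 (by positivity)
    have h10 : 2 ^ (3 * n) * (1 + (Y.card : ℝ) / 2 ^ ρ) * ∑ v ∈ Y, β v ^ 2
        = 2 ^ (3 * n) * (∑ v ∈ Y, β v ^ 2)
          + (Y.card * ∑ v ∈ Y, β v ^ 2) * (2 ^ (3 * n) / 2 ^ ρ) := by ring
    rw [h10]
    linarith
  rw [h0]
  have hα : 0 ≤ ∑ c ∈ X, α c ^ 2 := Finset.sum_nonneg fun c _ => sq_nonneg _
  calc (∑ c ∈ X, α c * f c) ^ 2 ≤ (∑ c ∈ X, α c ^ 2) * ∑ c ∈ X, f c ^ 2 := h1
    _ ≤ (∑ c ∈ X, α c ^ 2) * (2 ^ (3 * n) * (1 + (Y.card : ℝ) / 2 ^ ρ) * ∑ v ∈ Y, β v ^ 2) :=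
      mul_le_mul_of_nonneg_left (h2.trans h5) hα
    _ = _ := by ring

end Pool.Agent.UCN
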