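import Pool.Agent.UCN.Stmts

/-!
# RANK: the total weight has small rank on combinatorial rectangles
-/

set_option autoImplicit false

namespace Pool.Agent.UCN

open Finset

namespace RANK

variable {τ C : Type} (p : τ → Prop) [DecidablePred p]

/-- The function with the given restrictions to a set of times and to its complement. -/
def glue (a : {t // p t} → C) (b : {t // ¬ p t} → C) : τ → C :=
  (Equiv.piEquivPiSubtypeProd p (fun _ => C)).symm (a, b)

variable {p}

lemma glue_pos (a : {t // p t} → C) (b : {t // ¬ p t} → C) {t : τ} (h : p t) :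
    glue p a b t = a ⟨t, h⟩ := by
  unfold glue
  rw [Equiv.piEquivPiSubtypeProd_symm_apply]
  exact dif_pos h

lemma glue_neg (a : {t // p t} → C) (b : {t // ¬ p t} → C) {t : τ} (h : ¬ p t) :
    glue p a b t = b ⟨t, h⟩ := by
  unfold glue
  rw [Equiv.piEquivPiSubtypeProd_symm_apply]
  exact dif_neg h

/-- A sum over functions which splits into a product. -/
lemma sum_glue [Fintype τ] [DecidableEq τ] [Fintype C] (Z : (τ → C) → ℝ)
    (α : ({t // p t} → C) → ℝ) (β : ({t // ¬ p t} → C) → ℝ)
    (h : ∀ a b, Z (glue p a b) = α a * β b) : ∑ c, Z c = (∑ a, α a) * ∑ b, β b := by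
  rw [Finset.sum_mul_sum, ← Fintype.sum_prod_type']
  refine Fintype.sum_equiv (Equiv.piEquivPiSubtypeProd p (fun _ => C)) _ _ fun c => ?_
  rw [← h]
  unfold glue
  exact congrArg Z (Equiv.symm_apply_apply _ c).symm

end RANK

open RANK in
/-- **RANK.** -/
theorem rank : RANK_Stmt := by
  intro I A P D τ C X Y _ _ _ _ _ _ Acc W S ω c0 g h0 h1 h2
  classical
  rcases isEmpty_or_nonempty X with hX | ⟨⟨ua⟩⟩
  · exact ⟨fun _ _ => 0, fun _ _ => 0, fun u => (hX.false u).elim⟩
  rcases isEmpty_or_nonempty Y with hY | ⟨⟨va⟩⟩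
  · exact ⟨fun _ _ => 0, fun _ _ => 0, fun _ v => (hY.false v).elim⟩
  obtain ⟨t0, ht0⟩ : ∃ t0 : τ → P, t0 = S.tc (g ua va) := ⟨_, rfl⟩
  have htc : ∀ u v t, S.tc (g u v) t = t0 t := by
    intro u v t
    rw [ht0]
    exact S.time ω (g ua va) (g u v) c0 c0 (h0 _ _ _ _) t
  -- the total weight with given data
  have key : ∀ d : D, ∃ (f : X → ℝ) (h : Y → ℝ), ∀ u v,
      (∑ c : τ → C, if S.data ω (g u v) c = d then W (g u v) c else 0) = f u * h v := by
    intro d
    by_cases hd : ∃ u v c, S.data ω (g u v) c = d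
    swap
    · refine ⟨fun _ => 0, fun _ => 0, fun u v => ?_⟩
      rw [zero_mul]
      refine sum_eq_zero fun c _ => if_neg fun h => hd ⟨u, v, c, h⟩
    obtain ⟨u0, v0, cs, hcs⟩ := hd
    let p : τ → Prop := fun t => ω (t0 t) = true
    let a0 : {t // p t} → C := fun t => cs t
    let b0 : {t // ¬ p t} → C := fun t => cs t
    -- the general mixing step
    have hmix : ∀ (u u' : X) (v v' : Y) (c c' c'' : τ → C), S.data ω (g u v') c = d →
        S.data ω (g u' v) c' = d → (∀ t, p t → c'' t = c t) → (∀ t, ¬ p t → c'' t = c' t) →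
        S.data ω (g u v) c'' = d ∧
          ∀ t, S.wt t (g u v) c'' = if p t then S.wt t (g u v') c else S.wt t (g u' v) c' := by
      intro u u' v v' c c' c'' e1 e2 e3 e4
      have h := S.mix ω (g u v') (g u' v) (g u v) c c' c'' (e1.trans e2.symm)
        (fun e he => h1 u v v' e he) (fun e he => h2 u u' v e he)
        (fun t ht => e3 t (by rw [htc u v' t] at ht; exact ht))
        (fun t ht => e4 t (fun h5 => by
          rw [htc u' v t] at ht
          exact Bool.false_ne_true (ht.symm.trans h5)))
      refine ⟨h.1.trans e1, fun t => ?_⟩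
      rw [h.2.2 t, htc]
    refine ⟨fun u => ∑ a : {t // p t} → C, if S.data ω (g u v0) (glue p a b0) = d then
        ∏ t ∈ univ.filter p, S.wt t (g u v0) (glue p a b0) else 0,
      fun v => (∑ b : {t // ¬ p t} → C, if S.data ω (g u0 v) (glue p a0 b) = d then
        ∏ t ∈ univ.filter (fun t => ¬ p t), S.wt t (g u0 v) (glue p a0 b) else 0) * S.out d,
      fun u v => ?_⟩
    rw [← mul_assoc, ← sum_glue (fun c => if S.data ω (g u v) c = d then
      ∏ t, S.wt t (g u v) c else 0), sum_mul]
    · refine sum_congr rfl fun c _ => ?_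
      by_cases hc : S.data ω (g u v) c = d
      · rw [if_pos hc, if_pos hc, S.fin ω, hc]
      · rw [if_neg hc, if_neg hc, zero_mul]
    · intro a b
      by_cases h3 : S.data ω (g u v0) (glue p a b0) = d ∧ S.data ω (g u0 v) (glue p a0 b) = d
      · have h4 := hmix u u0 v v0 (glue p a b0) (glue p a0 b) (glue p a b) h3.1 h3.2
          (fun t ht => by rw [glue_pos _ _ ht, glue_pos _ _ ht])
          (fun t ht => by rw [glue_neg _ _ ht, glue_neg _ _ ht])
        rw [if_pos h4.1, if_pos h3.1, if_pos h3.2,
          ← prod_filter_mul_prod_filter_not univ p]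
        refine congr_arg₂ (· * ·) (prod_congr rfl fun t ht => ?_) (prod_congr rfl fun t ht => ?_)
        · rw [h4.2 t, if_pos (mem_filter.1 ht).2]
        · rw [h4.2 t, if_neg (mem_filter.1 ht).2]
      · have h4 : ¬ S.data ω (g u v) (glue p a b) = d := by
          intro h5
          apply h3
          constructor
          · exact (hmix u u0 v0 v (glue p a b) cs (glue p a b0) h5 hcs
              (fun t ht => by rw [glue_pos _ _ ht, glue_pos _ _ ht])
              (fun t ht => by rw [glue_neg _ _ ht])).1
          · exact (hmix u0 u v v0 cs (glue p a b) (glue p a0 b) hcs h5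
              (fun t ht => by rw [glue_pos _ _ ht])
              (fun t ht => by rw [glue_neg _ _ ht, glue_neg _ _ ht])).1
        rw [if_neg h4]
        rcases not_and_or.1 h3 with h5 | h5
        · rw [if_neg h5, zero_mul]
        · rw [if_neg h5, mul_zero]
  choose f h hfh using key
  refine ⟨f, h, fun u v => ?_⟩
  simp only [← hfh]
  rw [sum_comm]
  refine sum_congr rfl fun c _ => ?_
  rw [sum_ite_eq, if_pos (mem_univ _)]

end Pool.Agent.UCN
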