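import Pool.Agent.UCN.Radial

/-!
# Forster's theorem
-/

set_option autoImplicit false

namespace Pool.Agent.UCN

open Finset Matrix

variable {X Y : Type} [Fintype X] [Fintype Y] {d : ℕ}

theorem cs (u v : Fin d → ℝ) : (u ⬝ᵥ v) ^ 2 ≤ (u ⬝ᵥ u) * (v ⬝ᵥ v) := by
  have h := Finset.sum_mul_sq_le_sq_mul_sq univ u v
  simpa [dotProduct, sq] using h

theorem dot_nonneg (u : Fin d → ℝ) : 0 ≤ u ⬝ᵥ u :=
  Finset.sum_nonneg fun _ _ => mul_self_nonneg _

/-- the vectors near `U` -/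
noncomputable def nb (ε : ℝ) (u : Fin d → ℝ) (κ : Fin d × Bool) : Fin d → ℝ :=
  u + (if κ.2 then ε else -ε) • Pi.single κ.1 1

/-- the matrix of the vectors near `u` -/
noncomputable def nbM (ε : ℝ) (u : Fin d → ℝ) : Matrix (Fin d) (Fin d) ℝ :=
  ∑ κ : Fin d × Bool, vecMulVec (nb ε u κ) (nb ε u κ)

theorem nb_dot (ε : ℝ) (u v : Fin d → ℝ) (κ : Fin d × Bool) :
    nb ε u κ ⬝ᵥ v = u ⬝ᵥ v + (if κ.2 then ε else -ε) * v κ.1 := by
  unfold nb
  rw [add_dotProduct, smul_dotProduct, single_dotProduct, one_mul, smul_eq_mul]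

theorem quad_nbM (ε : ℝ) (u v : Fin d → ℝ) :
    v ⬝ᵥ (nbM ε u *ᵥ v) = ∑ κ : Fin d × Bool, (nb ε u κ ⬝ᵥ v) ^ 2 := by
  unfold nbM
  rw [Matrix.sum_mulVec, dotProduct_sum]
  refine Finset.sum_congr rfl fun κ _ => ?_
  rw [vecMulVec_mulVec, dotProduct_smul]
  simp only [MulOpposite.smul_eq_mul_unop, MulOpposite.unop_op]
  rw [dotProduct_comm v, sq]

theorem nbM_posDef {ε : ℝ} (hε : ε ≠ 0) (u : Fin d → ℝ) : (nbM ε u).PosDef := by
  refine Matrix.PosDef.of_dotProduct_mulVec_pos ?_ fun v hv => ?_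
  · unfold nbM Matrix.IsHermitian
    rw [Matrix.conjTranspose_sum]
    refine Finset.sum_congr rfl fun κ _ => ?_
    rw [Matrix.conjTranspose_vecMulVec]
    simp
  · rw [star_trivial, quad_nbM]
    obtain ⟨i, hi⟩ : ∃ i, v i ≠ 0 := by
      by_contra h
      push Not at h
      exact hv (funext h)
    have h1 : 0 < (nb ε u (i, true) ⬝ᵥ v) ^ 2 + (nb ε u (i, false) ⬝ᵥ v) ^ 2 := by
      rw [nb_dot, nb_dot]
      simp only [if_true, Bool.false_eq_true, if_false]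
      have h2 : (0 : ℝ) < (ε * v i) ^ 2 := by positivity
      nlinarith [sq_nonneg (u ⬝ᵥ v)]
    have h2 : (nb ε u (i, true) ⬝ᵥ v) ^ 2 + (nb ε u (i, false) ⬝ᵥ v) ^ 2 ≤
        ∑ κ : Fin d × Bool, (nb ε u κ ⬝ᵥ v) ^ 2 := by
      rw [Fintype.sum_prod_type]
      refine le_trans (le_of_eq ?_) (Finset.single_le_sum
        (f := fun i => ∑ b : Bool, (nb ε u (i, b) ⬝ᵥ v) ^ 2)
        (fun j _ => Finset.sum_nonneg fun b _ => sq_nonneg _) (mem_univ i))
      rw [Fintype.sum_bool]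
    linarith

/-- the square of the norm of a weighted sum -/
theorem sum_norm {κ : Type} [Fintype κ] (a : κ → ℝ) (u : κ → Fin d → ℝ) (ha : ∀ k, 0 ≤ a k)
    (h : ∀ k, a k ^ 2 = u k ⬝ᵥ u k) :
    (∑ k, a k • u k) ⬝ᵥ (∑ k, a k • u k) ≤ (∑ k, a k ^ 2) ^ 2 := by
  rw [sum_dotProduct, sq, Finset.sum_mul_sum]
  refine Finset.sum_le_sum fun k _ => ?_
  rw [dotProduct_sum]
  refine Finset.sum_le_sum fun l _ => ?_
  rw [smul_dotProduct, dotProduct_smul, smul_eq_mul, smul_eq_mul]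
  have h1 : u k ⬝ᵥ u l ≤ a k * a l := by
    refine le_trans (le_abs_self _) (abs_le_of_sq_le_sq ?_ (mul_nonneg (ha k) (ha l)))
    rw [mul_pow, h, h]
    exact cs _ _
  calc a k * (a l * (u k ⬝ᵥ u l)) = (a k * a l) * (u k ⬝ᵥ u l) := by ring
    _ ≤ (a k * a l) * (a k * a l) :=
        mul_le_mul_of_nonneg_left h1 (mul_nonneg (ha k) (ha l))
    _ = _ := by ring

open scoped MatrixOrder in
/-- a square root -/
theorem root (M : Matrix (Fin d) (Fin d) ℝ) (hM : M.PosDef) :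
    ∃ C R : Matrix (Fin d) (Fin d) ℝ, M = Cᵀ * C ∧ C * R = 1 ∧ R * C = 1 := by
  obtain ⟨C, hC⟩ := CStarAlgebra.nonneg_iff_eq_star_mul_self.mp hM.posSemidef.nonneg
  have h1 : M = Cᵀ * C := by
    rw [hC, Matrix.star_eq_conjTranspose, Matrix.conjTranspose_eq_transpose_of_trivial]
  have h2 : IsUnit C.det := by
    rw [isUnit_iff_ne_zero]
    intro h
    have := hM.det_pos
    rw [h1, Matrix.det_mul, h, mul_zero] at this
    exact lt_irrefl _ this
  exact ⟨C, C⁻¹, h1, Matrix.mul_nonsing_inv _ h2, Matrix.nonsing_inv_mul _ h2⟩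

/-- the Cauchy inequality for the coordinates -/
theorem coord (s a b : Fin d → ℝ) (B : ℝ) (hB : 0 ≤ B) (ha : ∀ i, 0 ≤ a i) (hb : ∀ i, 0 ≤ b i)
    (h : ∀ i, s i ^ 2 ≤ B * (a i * b i)) : (∑ i, s i) ^ 2 ≤ B * ((∑ i, a i) * ∑ i, b i) := by
  have h1 : ∀ i, |s i| ≤ √B * (√(a i) * √(b i)) := by
    intro i
    refine abs_le_of_sq_le_sq ?_ (by positivity)
    rw [mul_pow, mul_pow, Real.sq_sqrt hB, Real.sq_sqrt (ha i), Real.sq_sqrt (hb i)]
    exact h i
  have h2 : |∑ i, s i| ≤ √B * ∑ i, √(a i) * √(b i) := by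
    rw [Finset.mul_sum]
    exact (Finset.abs_sum_le_sum_abs _ _).trans (Finset.sum_le_sum fun i _ => h1 i)
  have h3 := Finset.sum_mul_sq_le_sq_mul_sq univ (fun i => √(a i)) (fun i => √(b i))
  have h4 : (∑ i, √(a i) ^ 2) = ∑ i, a i := Finset.sum_congr rfl fun i _ => Real.sq_sqrt (ha i)
  have h5 : (∑ i, √(b i) ^ 2) = ∑ i, b i := Finset.sum_congr rfl fun i _ => Real.sq_sqrt (hb i)
  rw [h4, h5] at h3
  calc (∑ i, s i) ^ 2 = |∑ i, s i| ^ 2 := (sq_abs _).symm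
    _ ≤ (√B * ∑ i, √(a i) * √(b i)) ^ 2 := pow_le_pow_left₀ (abs_nonneg _) h2 2
    _ = B * (∑ i, √(a i) * √(b i)) ^ 2 := by rw [mul_pow, Real.sq_sqrt hB]
    _ ≤ _ := mul_le_mul_of_nonneg_left h3 hB

/-- Forster's theorem: a sign matrix with the square of the spectral norm at most `B` and a
representation of its signs by vectors in dimension `d` has at most `B * d ^ 2` entries. -/
theorem forster [Nonempty X] [Nonempty Y] (F : X → Y → ℝ) (hF : ∀ x y, |F x y| = 1) (B : ℝ)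
    (hB : ∀ (α : X → ℝ) (β : Y → ℝ),
      (∑ x, ∑ y, F x y * (α x * β y)) ^ 2 ≤ B * ((∑ x, α x ^ 2) * ∑ y, β y ^ 2))
    (U : X → Fin d → ℝ) (V : Y → Fin d → ℝ) (hs : ∀ x y, 0 < F x y * (U x ⬝ᵥ V y)) :
    (Fintype.card X : ℝ) * Fintype.card Y ≤ B * d ^ 2 := by
  classical
  obtain ⟨x0⟩ := ‹Nonempty X›
  obtain ⟨y0⟩ := ‹Nonempty Y›
  have hd : 0 < d := by
    rcases Nat.eq_zero_or_pos d with h | h
    · subst h
      have := hs x0 y0
      rw [dotProduct, Finset.univ_eq_empty, Finset.sum_empty, mul_zero] at this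
      exact absurd this (lt_irrefl _)
    · exact h
  have hm : (0 : ℝ) < Fintype.card X := by
    have : 0 < Fintype.card X := Fintype.card_pos_iff.2 ⟨x0⟩
    exact_mod_cast this
  have hmY : (0 : ℝ) < Fintype.card Y := by
    have : 0 < Fintype.card Y := Fintype.card_pos_iff.2 ⟨y0⟩
    exact_mod_cast this
  -- the perturbation
  obtain ⟨ε, hε0, hε⟩ : ∃ ε : ℝ, 0 < ε ∧
      ∀ x y (κ : Fin d × Bool), 0 < F x y * (nb ε (U x) κ ⬝ᵥ V y) := by
    have h1 : ∀ᶠ ε : ℝ in nhds 0,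
        ∀ x y (κ : Fin d × Bool), 0 < F x y * (nb ε (U x) κ ⬝ᵥ V y) := by
      rw [Filter.eventually_all]
      intro x
      rw [Filter.eventually_all]
      intro y
      rw [Filter.eventually_all]
      intro κ
      have h2 : ContinuousAt (fun ε : ℝ => F x y * (nb ε (U x) κ ⬝ᵥ V y)) 0 := by
        simp only [nb_dot]
        apply Continuous.continuousAt
        refine continuous_const.mul (continuous_const.add (Continuous.mul ?_ continuous_const))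
        split_ifs
        · exact continuous_id
        · exact continuous_neg
      refine Filter.Tendsto.eventually_const_lt ?_ h2
      simp only [nb_dot]
      have := hs x y
      split_ifs <;> simpa using this
    obtain ⟨ε, h2, h3⟩ := ((h1.filter_mono nhdsWithin_le_nhds).and
      (self_mem_nhdsWithin (a := (0 : ℝ)) (s := Set.Ioi 0))).exists
    exact ⟨ε, h3, h2⟩
  -- the balanced position
  have : Nonempty X := ⟨x0⟩
  obtain ⟨c, hc0, hc⟩ := balanced (X := X) hd (fun x => nbM ε (U x)) fun x => nbM_posDef hε0.ne' _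
  have hM : (ms (fun x => nbM ε (U x)) c).PosDef :=
    ms_posDef _ (fun x => nbM_posDef hε0.ne' _) c (fun x => (hc0 x).le) ⟨x0, hc0 x0⟩
  obtain ⟨C, R, hMC, hCR, hRC⟩ := root _ hM
  have hinv : (ms (fun x => nbM ε (U x)) c)⁻¹ = R * Rᵀ := by
    refine Matrix.inv_eq_right_inv ?_
    rw [hMC]
    calc Cᵀ * C * (R * Rᵀ) = Cᵀ * (C * R) * Rᵀ := by simp only [mul_assoc]
      _ = (R * C)ᵀ := by rw [hCR, mul_one, Matrix.transpose_mul]
      _ = 1 := by rw [hRC, Matrix.transpose_one]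
  rw [hinv] at hc
  -- the vectors
  set u : X → Fin d × Bool → Fin d → ℝ := fun x κ => Rᵀ *ᵥ nb ε (U x) κ with hu
  set a : X → Fin d × Bool → ℝ := fun x κ => √(u x κ ⬝ᵥ u x κ) with ha
  have ha0 : ∀ x κ, 0 ≤ a x κ := fun x κ => Real.sqrt_nonneg _
  have ha2 : ∀ x κ, a x κ ^ 2 = u x κ ⬝ᵥ u x κ := fun x κ => Real.sq_sqrt (dot_nonneg _)
  set w : X → Fin d → ℝ := fun x => c x • ∑ κ, a x κ • u x κ with hw
  have huv : ∀ x κ (v : Fin d → ℝ), u x κ ⬝ᵥ v = nb ε (U x) κ ⬝ᵥ (R *ᵥ v) := by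
    intro x κ v
    show (Rᵀ *ᵥ nb ε (U x) κ) ⬝ᵥ v = _
    rw [Matrix.mulVec_transpose, ← Matrix.dotProduct_mulVec]
  have htr : ∀ x, (R * Rᵀ * nbM ε (U x)).trace = ∑ κ, a x κ ^ 2 := by
    intro x
    unfold nbM
    rw [Finset.mul_sum, Matrix.trace_sum]
    refine Finset.sum_congr rfl fun κ _ => ?_
    rw [Matrix.mul_vecMulVec, Matrix.trace_vecMulVec, ha2, huv, ← Matrix.mulVec_mulVec,
      dotProduct_comm]
  have hww : ∀ x, w x ⬝ᵥ w x ≤ ((d : ℝ) / Fintype.card X) ^ 2 := by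
    intro x
    have h1 : (d : ℝ) / Fintype.card X = c x * ∑ κ, a x κ ^ 2 := by
      rw [div_eq_iff hm.ne', mul_comm, ← htr x]
      exact (hc x).symm
    rw [h1, hw, smul_dotProduct, dotProduct_smul, smul_eq_mul, smul_eq_mul, mul_pow, sq (c x),
      mul_assoc]
    refine mul_le_mul_of_nonneg_left (mul_le_mul_of_nonneg_left ?_ (hc0 x).le) (hc0 x).le
    exact sum_norm (a x) (u x) (ha0 x) (ha2 x)
  have hcov : ∀ v : Fin d → ℝ, ∑ x, c x * ∑ κ, (u x κ ⬝ᵥ v) ^ 2 = v ⬝ᵥ v := by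
    intro v
    have h1 : ∀ x, c x * ∑ κ, (u x κ ⬝ᵥ v) ^ 2 =
        (R *ᵥ v) ⬝ᵥ ((c x • nbM ε (U x)) *ᵥ (R *ᵥ v)) := by
      intro x
      rw [Matrix.smul_mulVec, dotProduct_smul, quad_nbM, smul_eq_mul]
      congr 1
      exact Finset.sum_congr rfl fun κ _ => by rw [huv]
    rw [Finset.sum_congr rfl fun x _ => h1 x, ← dotProduct_sum, ← Matrix.sum_mulVec]
    have h2 : ∑ x, c x • nbM ε (U x) = Cᵀ * C := hMC
    rw [h2, ← Matrix.mulVec_mulVec, Matrix.mulVec_mulVec v C R, hCR, Matrix.one_mulVec,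
      Matrix.dotProduct_mulVec, Matrix.vecMul_transpose, Matrix.mulVec_mulVec, hCR,
      Matrix.one_mulVec]
  -- the unit vectors of `Y`
  have hz : ∀ y, 0 < (C *ᵥ V y) ⬝ᵥ (C *ᵥ V y) := by
    intro y
    refine lt_of_le_of_ne (dot_nonneg _) fun h => ?_
    have h1 : C *ᵥ V y = 0 := by
      have := dotProduct_self_eq_zero.1 h.symm
      exact this
    have h2 : V y = 0 := by
      calc V y = (R * C) *ᵥ V y := by rw [hRC, Matrix.one_mulVec]
        _ = R *ᵥ (C *ᵥ V y) := by rw [Matrix.mulVec_mulVec]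
        _ = 0 := by rw [h1, Matrix.mulVec_zero]
    have h3 := hs x0 y
    rw [h2, dotProduct_zero, mul_zero] at h3
    exact lt_irrefl _ h3
  set v : Y → Fin d → ℝ := fun y => (√((C *ᵥ V y) ⬝ᵥ (C *ᵥ V y)))⁻¹ • (C *ᵥ V y) with hv
  have hvv : ∀ y, v y ⬝ᵥ v y = 1 := by
    intro y
    have h1 : √((C *ᵥ V y) ⬝ᵥ (C *ᵥ V y)) ≠ 0 := (Real.sqrt_pos.2 (hz y)).ne'
    rw [hv, smul_dotProduct, dotProduct_smul, smul_eq_mul, smul_eq_mul, ← mul_assoc, ← mul_inv,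
      Real.mul_self_sqrt (hz y).le]
    exact inv_mul_cancel₀ (hz y).ne'
  have hFu : ∀ x κ y, 0 < F x y * (u x κ ⬝ᵥ v y) := by
    intro x κ y
    have h1 : R *ᵥ v y = (√((C *ᵥ V y) ⬝ᵥ (C *ᵥ V y)))⁻¹ • V y := by
      rw [hv, Matrix.mulVec_smul, Matrix.mulVec_mulVec, hRC, Matrix.one_mulVec]
    rw [huv, h1, dotProduct_smul, smul_eq_mul]
    have h2 := hε x y κ
    have h3 : 0 < (√((C *ᵥ V y) ⬝ᵥ (C *ᵥ V y)))⁻¹ := inv_pos.2 (Real.sqrt_pos.2 (hz y))
    have := mul_pos h3 h2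
    linarith
  have hlow : ∀ x y, c x * ∑ κ, (u x κ ⬝ᵥ v y) ^ 2 ≤ F x y * (w x ⬝ᵥ v y) := by
    intro x y
    rw [hw, smul_dotProduct, sum_dotProduct, smul_eq_mul]
    have h1 : F x y * (c x * ∑ κ, (a x κ • u x κ) ⬝ᵥ v y) =
        c x * ∑ κ, a x κ * (F x y * (u x κ ⬝ᵥ v y)) := by
      rw [Finset.mul_sum, Finset.mul_sum, Finset.mul_sum]
      refine Finset.sum_congr rfl fun κ _ => ?_
      rw [smul_dotProduct, smul_eq_mul]
      ring
    rw [h1]
    refine mul_le_mul_of_nonneg_left (Finset.sum_le_sum fun κ _ => ?_) (hc0 x).le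
    have h2 : F x y * (u x κ ⬝ᵥ v y) = |u x κ ⬝ᵥ v y| := by
      rw [← abs_of_pos (hFu x κ y), abs_mul, hF, one_mul]
    have h3 : |u x κ ⬝ᵥ v y| ≤ a x κ := by
      refine abs_le_of_sq_le_sq ?_ (ha0 x κ)
      rw [ha2]
      have := cs (u x κ) (v y)
      rwa [hvv, mul_one] at this
    rw [h2, ← sq_abs, sq]
    exact mul_le_mul_of_nonneg_right h3 (abs_nonneg _)
  -- the sum
  have hsum : (Fintype.card Y : ℝ) ≤ ∑ i, ∑ x, ∑ y, F x y * (w x i * v y i) := by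
    have h1 : ∑ i, ∑ x, ∑ y, F x y * (w x i * v y i) = ∑ y, ∑ x, F x y * (w x ⬝ᵥ v y) := by
      rw [Finset.sum_comm' (s := univ) (t := fun _ => univ) (t' := univ) (s' := fun _ => univ)
        (by simp)]
      rw [Finset.sum_comm (s := (univ : Finset Y))]
      refine Finset.sum_congr rfl fun x _ => ?_
      rw [Finset.sum_comm]
      refine Finset.sum_congr rfl fun y _ => ?_
      rw [dotProduct, Finset.mul_sum]
    rw [h1]
    calc (Fintype.card Y : ℝ) = ∑ y : Y, (1 : ℝ) := by simp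
      _ ≤ ∑ y, ∑ x, F x y * (w x ⬝ᵥ v y) := Finset.sum_le_sum fun y _ => by
        calc (1 : ℝ) = ∑ x, c x * ∑ κ, (u x κ ⬝ᵥ v y) ^ 2 := by rw [hcov, hvv]
          _ ≤ _ := Finset.sum_le_sum fun x _ => hlow x y
  have hB0 : 0 ≤ B := by
    have h1 := hB (fun _ => 1) (fun _ => 1)
    have h2 : 0 ≤ B * ((∑ _x : X, (1 : ℝ) ^ 2) * ∑ _y : Y, (1 : ℝ) ^ 2) :=
      le_trans (sq_nonneg _) h1
    simp only [one_pow, Finset.sum_const, card_univ, nsmul_eq_mul, mul_one] at h2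
    exact nonneg_of_mul_nonneg_left h2 (mul_pos hm hmY)
  have hup := coord (fun i => ∑ x, ∑ y, F x y * (w x i * v y i)) (fun i => ∑ x, w x i ^ 2)
    (fun i => ∑ y, v y i ^ 2) B hB0 (fun i => Finset.sum_nonneg fun _ _ => sq_nonneg _)
    (fun i => Finset.sum_nonneg fun _ _ => sq_nonneg _) fun i => hB _ _
  have hA : ∑ i, ∑ x, w x i ^ 2 ≤ (d : ℝ) ^ 2 / Fintype.card X := by
    rw [Finset.sum_comm]
    calc ∑ x, ∑ i, w x i ^ 2 = ∑ x, w x ⬝ᵥ w x := by
          refine Finset.sum_congr rfl fun x _ => ?_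
          rw [dotProduct]
          exact Finset.sum_congr rfl fun i _ => sq _
      _ ≤ ∑ _x : X, ((d : ℝ) / Fintype.card X) ^ 2 := Finset.sum_le_sum fun x _ => hww x
      _ = _ := by
        rw [Finset.sum_const, card_univ, nsmul_eq_mul]
        field_simp
  have hBv : ∑ i, ∑ y, v y i ^ 2 = Fintype.card Y := by
    rw [Finset.sum_comm]
    calc ∑ y, ∑ i, v y i ^ 2 = ∑ y, v y ⬝ᵥ v y := by
          refine Finset.sum_congr rfl fun y _ => ?_
          rw [dotProduct]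
          exact Finset.sum_congr rfl fun i _ => sq _
      _ = ∑ _y : Y, (1 : ℝ) := Finset.sum_congr rfl fun y _ => hvv y
      _ = _ := by simp
  rw [hBv] at hup
  have h6 : (Fintype.card Y : ℝ) ^ 2 ≤ B * ((d : ℝ) ^ 2 / Fintype.card X * Fintype.card Y) := by
    calc (Fintype.card Y : ℝ) ^ 2 ≤ (∑ i, ∑ x, ∑ y, F x y * (w x i * v y i)) ^ 2 :=
          pow_le_pow_left₀ hmY.le hsum 2
      _ ≤ B * ((∑ i, ∑ x, w x i ^ 2) * Fintype.card Y) := hup
      _ ≤ _ := by gcongr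
  have h7 : (Fintype.card Y : ℝ) * (Fintype.card X * Fintype.card Y) ≤
      Fintype.card Y * (B * d ^ 2) := by
    have h8 := mul_le_mul_of_nonneg_left h6 hm.le
    have h9 : (Fintype.card X : ℝ) * (B * ((d : ℝ) ^ 2 / Fintype.card X * Fintype.card Y)) =
        Fintype.card Y * (B * d ^ 2) := by
      field_simp
    rw [h9] at h8
    calc _ = (Fintype.card X : ℝ) * (Fintype.card Y : ℝ) ^ 2 := by ring
      _ ≤ _ := h8
  exact le_of_mul_le_mul_left h7 hmY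

end Pool.Agent.UCN
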