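import Pool.Agent.UCN.Stmts
import Pool.Agent.UCN.Forster
import Pool.Agent.UM.Cors
import Pool.Agent.UM.Cols

/-!
# A small system of pieces with coins does not recognise a rich form
-/

set_option autoImplicit false
set_option linter.unusedSectionVars false

namespace Pool.Agent.UCN

open Finset
open Pool.Agent.Lib_helper26.TS (fil mem_fil)
open Pool.Agent.Lib_helper26.TB (Cell cub sg side Closed PP fam DS mix mix_pos mix_neg mem_DS pr
  pr_disj pick pick_sub pick_mem trunc_card mem_side sg_add abs_sg sg_zero sg_one fam_mem_card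
  fam_card choose_bound zmod2)
open Pool.Agent.UM (RichAt GoodS UFs UNs cols)

namespace SYSC

/-- Forster's theorem with any index set -/
theorem forster' {X Y κ : Type} [Fintype X] [Fintype Y] [Fintype κ] [Nonempty X] [Nonempty Y]
    (F : X → Y → ℝ) (hF : ∀ x y, |F x y| = 1) (B : ℝ)
    (hB : ∀ (α : X → ℝ) (β : Y → ℝ),
      (∑ x, ∑ y, F x y * (α x * β y)) ^ 2 ≤ B * ((∑ x, α x ^ 2) * ∑ y, β y ^ 2))
    (U : X → κ → ℝ) (V : Y → κ → ℝ) (hs : ∀ x y, 0 < F x y * ∑ k, U x k * V y k) :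
    (Fintype.card X : ℝ) * Fintype.card Y ≤ B * (Fintype.card κ : ℝ) ^ 2 := by
  let e := Fintype.equivFin κ
  refine forster F hF B hB (fun x i => U x (e.symm i)) (fun y i => V y (e.symm i)) fun x y => ?_
  have h := hs x y
  rw [← e.symm.sum_comp] at h
  exact h

variable {n : ℕ} {P D τ C : Type} {Acc : (Cell n → ZMod 2) → Prop}

/-- a threshold between the values -/
theorem between {Z : Type} [Fintype Z] (a : Z → ℝ) (θ : ℝ) :
    ∃ θ' : ℝ, ∀ z, (θ < a z → 0 < a z - θ') ∧ (¬ θ < a z → a z - θ' < 0) := by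
  classical
  by_cases h : ∃ z, θ < a z
  · obtain ⟨z0, hz0, hmin⟩ := (univ.filter fun z => θ < a z).exists_min_image a (by
      obtain ⟨z, hz⟩ := h
      exact ⟨z, mem_filter.2 ⟨mem_univ _, hz⟩⟩)
    rw [mem_filter] at hz0
    refine ⟨(θ + a z0) / 2, fun z => ⟨fun hz => ?_, fun hz => ?_⟩⟩
    · have := hmin z (mem_filter.2 ⟨mem_univ _, hz⟩)
      linarith [hz0.2]
    · have := not_lt.1 hz
      linarith [hz0.2]
  · push Not at h
    exact ⟨θ + 1, fun z => ⟨fun hz => absurd hz (not_lt.2 (h z)), fun _ => by linarith [h z]⟩⟩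

/-- rows and columns of a slice of a closed set -/
theorem rect {Z : (Cell n → ZMod 2) → Prop} {P : Finset (Cell n)} {Q : Finset (Fin n)}
    (hZ : Closed P (side 2 Q) Z) {z c : Cell n → ZMod 2} {v : Fin n → ZMod 2}
    (hc : c ∈ rowS Z P Q z) (hv : v ∈ colS Z P Q z) : Z (gin P Q z c v) := by
  obtain ⟨v', hv'⟩ := mem_fil.1 hc
  obtain ⟨-, c', hc'⟩ := mem_fil.1 hv
  have h := hZ _ _ hv' hc' fun i hi hi' => by
    rw [gin, gin, mix_neg hi, mix_neg hi, mix_neg hi', mix_neg hi']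
  refine (iff_of_eq (congrArg Z ?_)).1 h
  funext i
  by_cases hi : i ∈ P
  · rw [if_pos hi, gin, gin, mix_pos hi, mix_pos hi]
  · rw [if_neg hi, gin, gin, mix_neg hi, mix_neg hi]

/-- the inequality for one slice -/
theorem slice (h1 : RANK_Stmt) (h2 : NORM_Stmt) [Fintype P] [DecidableEq P] [Fintype D]
    [Fintype τ] [DecidableEq τ] [Fintype C] {W : (Cell n → ZMod 2) → (τ → C) → ℝ} {w ρ q e : ℕ}
    (M : Fin n → Fin n → Fin n → ZMod 2) (hM : RichAt ρ M)
    (S : CSys (Cell n) (ZMod 2) P D τ C Acc W) (c0 : τ → C) (ω : P → Fin (w + 1)) (d : D)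
    (Q : Finset (Fin n)) (p : Finset (Fin n) × Finset (Fin n))
    (hp : p.1.card = 4 * ρ ∧ p.2.card = 4 * ρ) (z : Cell n → ZMod 2) (κ : ZMod 2) (θ : ℝ)
    (hF : ∀ x, Acc x → (cub M x = κ ↔ θ < ∑ c, W x c))
    (hX : 0 < (rowS (UM.CORS.Cls (S.base c0) ω ρ q e d Q p) (PP p) Q z).card)
    (hY : 2 ^ ρ ≤ (colS (UM.CORS.Cls (S.base c0) ω ρ q e d Q p) (PP p) Q z).card) :
    ((rowS (UM.CORS.Cls (S.base c0) ω ρ q e d Q p) (PP p) Q z).card : ℝ) * 2 ^ ρ ≤
      2 ^ (3 * n) * 2 * ((Fintype.card D : ℝ) + 1) ^ 2 := by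
  classical
  set Z := UM.CORS.Cls (S.base c0) ω ρ q e d Q p with hZd
  have hZ : Closed (PP p) (side 2 Q) Z := UM.CORS.cls_closed (S.base c0) ω ρ q e d Q p
  set X := rowS Z (PP p) Q z with hXd
  set Y := colS Z (PP p) Q z with hYd
  have hY0 : 0 < Y.card := lt_of_lt_of_le (by positivity) hY
  have hXn : Nonempty X := by
    obtain ⟨x, hx⟩ := card_pos.1 hX
    exact ⟨⟨x, hx⟩⟩
  have hYn : Nonempty Y := by
    obtain ⟨x, hx⟩ := card_pos.1 hY0
    exact ⟨⟨x, hx⟩⟩
  set g : X → Y → Cell n → ZMod 2 := fun c v => gin (PP p) Q z c.1 v.1 with hg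
  have hgZ : ∀ c v, Z (g c v) := fun c v => rect hZ c.2 v.2
  obtain ⟨f, h, hfh⟩ := h1 (Cell n) (ZMod 2) P D τ C X Y Acc W S (UM.CORS.o2 ω) c0 g
    (fun u u' v v' => by
      have a1 := (hgZ u v).1.2.1
      have a2 := (hgZ u' v').1.2.1
      exact a1.trans a2.symm)
    (fun u v v' a ha => by
      obtain ⟨⟨gx, hx1, hx2, hx3⟩, hx4⟩ := hgZ u v'
      obtain ⟨j, hj, hω⟩ := ha
      have hn : a ∉ side 2 Q := by
        obtain ⟨t, l⟩ := a
        intro hQ
        obtain ⟨rfl, hl⟩ := mem_side.1 hQ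
        rw [← hx3] at hl
        exact mem_DS.1 (pick_sub gx.2 hl) (mem_fil.2 ⟨j, hj, UM.CORS.o2_true.1 hω⟩)
      show gin (PP p) Q z u.1 v.1 a = gin (PP p) Q z u.1 v'.1 a
      by_cases hP : a ∈ PP p
      · rw [gin, gin, mix_pos hP, mix_pos hP]
      · rw [gin, gin, mix_neg hP, mix_neg hP, mix_neg hn, mix_neg hn])
    (fun u u' v a ha => by
      obtain ⟨⟨gy, hy1, hy2, hy3⟩, hy4⟩ := hgZ u' v
      obtain ⟨j, hj, hω⟩ := ha
      have hP : a ∉ PP p := by
        intro hP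
        rw [← hy2] at hP
        exact pr_disj gy.1 hP (mem_fil.2 ⟨j, hj, UM.CORS.o2_false.1 hω⟩)
      show gin (PP p) Q z u.1 v.1 a = gin (PP p) Q z u'.1 v.1 a
      rw [gin, gin, mix_neg hP, mix_neg hP])
  -- the signs
  have hsg : ∀ u v, sg κ * sg (cub M (g u v)) = if cub M (g u v) = κ then 1 else -1 := by
    intro u v
    rcases zmod2 κ with h3 | h3 <;> rcases zmod2 (cub M (g u v)) with h4 | h4 <;>
      rw [h3, h4] <;> simp [sg_zero, sg_one]
  have habs : ∀ u v, |sg κ * sg (cub M (g u v))| = 1 := fun u v => by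
    rw [abs_mul, abs_sg, abs_sg, one_mul]
  have hB : ∀ (α : X → ℝ) (β : Y → ℝ),
      (∑ x, ∑ y, sg κ * sg (cub M (g x y)) * (α x * β y)) ^ 2 ≤
        (2 ^ (3 * n) * (1 + (Y.card : ℝ) / 2 ^ ρ)) * ((∑ x, α x ^ 2) * ∑ y, β y ^ 2) := by
    intro α β
    set α' : (Cell n → ZMod 2) → ℝ := fun c => if h : c ∈ X then α ⟨c, h⟩ else 0 with hα'
    set β' : (Fin n → ZMod 2) → ℝ := fun c => if h : c ∈ Y then β ⟨c, h⟩ else 0 with hβ'
    have e1 : ∀ x : X, α' x.1 = α x := fun x => by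
      rw [hα']
      simp only
      rw [dif_pos x.2]
    have e2 : ∀ y : Y, β' y.1 = β y := fun y => by
      rw [hβ']
      simp only
      rw [dif_pos y.2]
    have h3 := h2 n ρ M p.1 p.2 Q z X Y α' β' hM hp.1 hp.2 fun v hv => (mem_fil.1 hv).1
    have e3 : ∑ c ∈ X, α' c ^ 2 = ∑ x, α x ^ 2 := by
      rw [← Finset.sum_coe_sort X fun c => α' c ^ 2]
      exact Finset.sum_congr rfl fun x _ => by rw [e1]
    have e4 : ∑ c ∈ Y, β' c ^ 2 = ∑ y, β y ^ 2 := by
      rw [← Finset.sum_coe_sort Y fun c => β' c ^ 2]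
      exact Finset.sum_congr rfl fun x _ => by rw [e2]
    have e5 : ∑ c ∈ X, ∑ v ∈ Y, sg (cub M (gin (PP (p.1, p.2)) Q z c v)) * (α' c * β' v) =
        ∑ x, ∑ y, sg (cub M (g x y)) * (α x * β y) := by
      rw [← Finset.sum_coe_sort X fun c => ∑ v ∈ Y,
        sg (cub M (gin (PP (p.1, p.2)) Q z c v)) * (α' c * β' v)]
      refine Finset.sum_congr rfl fun x _ => ?_
      rw [← Finset.sum_coe_sort Y fun v =>
        sg (cub M (gin (PP (p.1, p.2)) Q z x.1 v)) * (α' x.1 * β' v)]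
      exact Finset.sum_congr rfl fun y _ => by rw [e1, e2]
    rw [e3, e4, e5] at h3
    have e6 : ∑ x, ∑ y, sg κ * sg (cub M (g x y)) * (α x * β y) =
        sg κ * ∑ x, ∑ y, sg (cub M (g x y)) * (α x * β y) := by
      rw [Finset.mul_sum]
      refine Finset.sum_congr rfl fun x _ => ?_
      rw [Finset.mul_sum]
      exact Finset.sum_congr rfl fun y _ => by ring
    rw [e6, mul_pow, ← sq_abs (sg κ), abs_sg, one_pow, one_mul]
    exact h3
  obtain ⟨θ', hθ'⟩ := between (fun x : Cell n → ZMod 2 => ∑ c, W x c) θ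
  have hfin := forster' (κ := Option D) (fun x y => sg κ * sg (cub M (g x y))) habs _ hB
    (fun x k => k.elim (-θ') fun d => f d x) (fun y k => k.elim 1 fun d => h d y)
    (fun x y => by
      rw [Fintype.sum_option]
      simp only [Option.elim_none, Option.elim_some, mul_one]
      rw [← hfh x y, hsg]
      have hA : Acc (g x y) := (hgZ x y).2
      have h5 := hF (g x y) hA
      obtain ⟨h7, h8⟩ := hθ' (g x y)
      by_cases h6 : cub M (g x y) = κ
      · rw [if_pos h6]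
        have := h7 (h5.1 h6)
        linarith
      · rw [if_neg h6]
        have := h8 fun hcon => h6 (h5.2 hcon)
        linarith)
  rw [Fintype.card_coe, Fintype.card_coe, Fintype.card_option] at hfin
  push_cast at hfin
  have hYr : (0 : ℝ) < Y.card := by exact_mod_cast hY0
  have hYr2 : (2 : ℝ) ^ ρ ≤ Y.card := by exact_mod_cast hY
  have h2ρ : (0 : ℝ) < 2 ^ ρ := by positivity
  have h9 : (1 + (Y.card : ℝ) / 2 ^ ρ) * 2 ^ ρ ≤ 2 * Y.card := by
    rw [add_mul, one_mul, div_mul_cancel₀ _ h2ρ.ne']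
    linarith
  have h10 : (X.card : ℝ) * 2 ^ ρ * Y.card ≤
      (2 ^ (3 * n) * 2 * ((Fintype.card D : ℝ) + 1) ^ 2) * Y.card := by
    calc (X.card : ℝ) * 2 ^ ρ * Y.card = (X.card * Y.card) * 2 ^ ρ := by ring
      _ ≤ (2 ^ (3 * n) * (1 + (Y.card : ℝ) / 2 ^ ρ) * ((Fintype.card D : ℝ) + 1) ^ 2) * 2 ^ ρ := by
          gcongr
      _ = (2 ^ (3 * n) * ((Fintype.card D : ℝ) + 1) ^ 2) * ((1 + (Y.card : ℝ) / 2 ^ ρ) * 2 ^ ρ) := by
          ring
      _ ≤ (2 ^ (3 * n) * ((Fintype.card D : ℝ) + 1) ^ 2) * (2 * Y.card) := by gcongr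
      _ = _ := by ring
  exact le_of_mul_le_mul_right h10 hYr

/-- a class of positive average size -/
theorem pigeon [Fintype P] [DecidableEq P] [Fintype D] {w : ℕ} (S : UM.Sys (Cell n) (ZMod 2) P D Acc)
    (ω : P → Fin (w + 1)) (ρ q e : ℕ)
    (hG : (2 : ℝ) ^ (3 * n) / 4 ≤ ((fil fun x => Acc x ∧ GoodS S ω ρ q e x).card : ℝ)) :
    ∃ (d : D) (Q : Finset (Fin n)), Q ∈ fam n q e ∧
      0 < (Fintype.card D : ℝ) * (fam n q e).card ∧
      1 / (4 * ((Fintype.card D : ℝ) * (fam n q e).card)) * 2 ^ (3 * n) ≤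
        ∑ p ∈ (univ : Finset (Fin n)).powersetCard (4 * ρ) ×ˢ
          (univ : Finset (Fin n)).powersetCard (4 * ρ),
          ((fil (UM.CORS.Cls S ω ρ q e d Q p)).card : ℝ) := by
  classical
  set F : Finset (Finset (Fin n) × Finset (Fin n)) :=
    (univ : Finset (Fin n)).powersetCard (4 * ρ) ×ˢ (univ : Finset (Fin n)).powersetCard (4 * ρ)
    with hF
  set A1 := fil fun z => Acc z ∧ GoodS S ω ρ q e z with hA1
  set key : (Cell n → ZMod 2) → D × Finset (Fin n) ×
      (Finset (Fin n) × Finset (Fin n)) := fun x =>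
    (S.data (UM.CORS.o2 ω) x, pick q e (DS 2 (UFs S ω x)), pr ρ (UNs S ω x)) with hkey
  set t : Finset (D × Finset (Fin n) × (Finset (Fin n) × Finset (Fin n))) :=
    univ ×ˢ (fam n q e ×ˢ F) with ht
  have hmaps : ∀ z ∈ A1, key z ∈ t := by
    intro z hz
    rw [hA1, mem_fil] at hz
    obtain ⟨-, ⟨g1, g2⟩, g3⟩ := hz
    rw [ht, mem_product, mem_product, hF, mem_product, mem_powersetCard, mem_powersetCard]
    exact ⟨mem_univ _, pick_mem g3, ⟨subset_univ _, trunc_card g1⟩,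
      ⟨subset_univ _, trunc_card g2⟩⟩
  have hfil : ∀ κ : D × Finset (Fin n) × (Finset (Fin n) × Finset (Fin n)),
      (A1.filter fun z => key z = κ) = fil (UM.CORS.Cls S ω ρ q e κ.1 κ.2.1 κ.2.2) := by
    intro κ
    ext z
    rw [mem_filter, hA1, mem_fil, mem_fil, hkey]
    simp only [UM.CORS.Cls, Prod.ext_iff]
    tauto
  have hsum : A1.card = ∑ d : D, ∑ Q ∈ fam n q e, ∑ p ∈ F,
      (fil (UM.CORS.Cls S ω ρ q e d Q p)).card := by
    rw [Finset.card_eq_sum_card_fiberwise hmaps]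
    simp only [hfil]
    rw [ht, Finset.sum_product]
    exact Finset.sum_congr rfl fun d _ => Finset.sum_product _ _ _
  have hpos : (0 : ℝ) < 2 ^ (3 * n) := by positivity
  have hA0 : (0 : ℝ) < A1.card := by linarith
  have hDF : 0 < (Fintype.card D : ℝ) * (fam n q e).card := by
    by_contra hcon
    have h0 : (Fintype.card D : ℝ) * (fam n q e).card = 0 :=
      le_antisymm (not_lt.1 hcon) (by positivity)
    have h1 : Fintype.card D * (fam n q e).card = 0 := by exact_mod_cast h0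
    have h2 : A1.card = 0 := by
      rw [hsum]
      rcases mul_eq_zero.1 h1 with h | h
      · have : IsEmpty D := Fintype.card_eq_zero_iff.1 h
        rw [Finset.univ_eq_empty, Finset.sum_empty]
      · rw [Finset.card_eq_zero] at h
        refine Finset.sum_eq_zero fun d _ => ?_
        rw [h, Finset.sum_empty]
    rw [h2, Nat.cast_zero] at hA0
    exact lt_irrefl _ hA0
  by_contra hcon
  push Not at hcon
  have h3 : (A1.card : ℝ) < 2 ^ (3 * n) / 4 := by
    rw [hsum]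
    push_cast
    calc ∑ d : D, ∑ Q ∈ fam n q e, ∑ p ∈ F, ((fil (UM.CORS.Cls S ω ρ q e d Q p)).card : ℝ)
        < ∑ _d : D, ∑ _Q ∈ fam n q e,
          1 / (4 * ((Fintype.card D : ℝ) * (fam n q e).card)) * 2 ^ (3 * n) := by
          have hD : (univ : Finset D).Nonempty := by
            rw [Finset.univ_nonempty_iff, ← Fintype.card_pos_iff]
            by_contra h
            rw [Nat.pos_iff_ne_zero, not_not] at h
            rw [h, Nat.cast_zero, zero_mul] at hDF
            exact lt_irrefl _ hDF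
          have hQ : (fam n q e).Nonempty := by
            rw [← Finset.card_pos]
            by_contra h
            rw [Nat.pos_iff_ne_zero, not_not] at h
            rw [h, Nat.cast_zero, mul_zero] at hDF
            exact lt_irrefl _ hDF
          exact Finset.sum_lt_sum_of_nonempty hD fun d _ =>
            Finset.sum_lt_sum_of_nonempty hQ fun Q hQ' => hcon d Q hQ' hDF
      _ = _ := by
          rw [Finset.sum_const, Finset.sum_const, card_univ, nsmul_eq_mul, nsmul_eq_mul,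
            ← mul_assoc]
          obtain ⟨W, hW⟩ : ∃ W, W = (Fintype.card D : ℝ) * (fam n q e).card := ⟨_, rfl⟩
          rw [← hW] at hDF ⊢
          have hW0 : W ≠ 0 := hDF.ne'
          field_simp
  linarith

end SYSC

open SYSC in
theorem sysc (h1 : RANK_Stmt) (h2 : NORM_Stmt) (h3 : DENSE_Stmt) : SYSC_Stmt := by
  classical
  intro n ρ k γ X B L K M P D τ C _ _ _ _ _ _ _ Acc W S κ θ hM hk hX hXd hgm hγ1 hρ2 hrl hb1
    hpw hK hL0 hB hLr hLg hpc hAcc hD hA hF
  obtain ⟨c1⟩ := ‹Nonempty C›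
  have c0 : τ → C := fun _ => c1
  obtain ⟨q, hq⟩ : ∃ q, q = 400 * X * ρ := ⟨_, rfl⟩
  obtain ⟨e, he⟩ : ∃ e, e = 24 * k * q / 2 ^ γ := ⟨_, rfl⟩
  obtain ⟨w, hw⟩ : ∃ w, w + 1 = 2 ^ γ := ⟨2 ^ γ - 1, Nat.sub_add_cancel Nat.one_le_two_pow⟩
  have hq0 : 0 < q := by
    rw [hq]
    exact Nat.mul_pos (by omega) (by omega)
  have h2γ : 0 < 2 ^ γ := by positivity
  -- the number of exceptional cells
  have he1 : 8 * γ * e ≤ ρ := by
    have h1 : e * 2 ^ γ ≤ 24 * k * q := by
      rw [he]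
      exact Nat.div_mul_le_self _ _
    refine Nat.le_of_mul_le_mul_right ?_ h2γ
    calc 8 * γ * e * 2 ^ γ = 8 * γ * (e * 2 ^ γ) := by ring
      _ ≤ 8 * γ * (24 * k * q) := Nat.mul_le_mul_left _ h1
      _ = 76800 * X ^ 2 * ρ := by rw [hq, hXd]; ring
      _ ≤ 83200 * X ^ 2 * ρ := by gcongr; norm_num
      _ ≤ 2 ^ γ * ρ := Nat.mul_le_mul_right _ hgm
      _ = ρ * 2 ^ γ := Nat.mul_comm _ _
  have he2 : 256 * e ≤ ρ := by
    have : 256 * e ≤ 8 * γ * e := Nat.mul_le_mul_right _ (by omega)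
    omega
  have heq : e ≤ q := by
    rw [hq]
    have : ρ ≤ 400 * X * ρ := Nat.le_mul_of_pos_left _ (by omega)
    omega
  -- the blocks
  obtain ⟨u, hu⟩ : ∃ u, u = ρ / 64 + 1 := ⟨_, rfl⟩
  have hqu : q ≤ 2 ^ γ * u := by
    have h1 : ρ ≤ 64 * u := by omega
    have h2 : 25600 * X ≤ 2 ^ γ := by
      refine le_trans ?_ hgm
      rw [sq]
      calc 25600 * X ≤ 83200 * X := by omega
        _ ≤ 83200 * (X * X) := Nat.mul_le_mul_left _ (Nat.le_mul_of_pos_left _ (by omega))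
    have h3 : q * 64 ≤ 2 ^ γ * u * 64 := by
      calc q * 64 = 25600 * X * ρ := by rw [hq]; ring
        _ ≤ 2 ^ γ * (64 * u) := Nat.mul_le_mul h2 h1
        _ = _ := by ring
    omega
  have hn1 : 1 ≤ n := by
    have := Nat.mul_pos (show 0 < 2 ^ (6 * X + 4) by positivity) (show 0 < ρ by omega)
    omega
  have hρ3 : n ≤ 2 ^ (6 * X + 3) * (4 * ρ) := by
    refine hρ2.trans (le_of_eq ?_)
    rw [show 6 * X + 5 = (6 * X + 3) + 2 by ring, pow_add]
    ring
  have hchoose : (n.choose (4 * ρ) : ℝ) ≤ 2 ^ (20 * ρ + 24 * X * ρ) := by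
    refine (choose_bound (a := 4 * ρ) hρ3).trans (le_of_eq ?_)
    congr 1
    ring
  have hfam : ((fam n q e).card : ℝ) ≤ 2 ^ (ρ / 32) * 2 ^ (2 * u + γ * e) := by
    have a3 := fam_card (n := n) hq0 heq
    calc ((fam n q e).card : ℝ) ≤ n * (q.choose e : ℝ) := by exact_mod_cast a3
      _ ≤ 2 ^ (ρ / 32) * 2 ^ (2 * u + γ * e) := by
          refine mul_le_mul (by exact_mod_cast hpw) (choose_bound hqu) (by positivity)
            (by positivity)
  have hDr : (Fintype.card D : ℝ) ≤ 2 ^ K := by exact_mod_cast hD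
  -- the colouring
  have hwc : ((w : ℝ) + 1) = 2 ^ γ := by exact_mod_cast hw
  have hL0' : (0:ℝ) < L := by exact_mod_cast hL0
  have hkn : 0 < k * n := Nat.mul_pos hk hn1
  have hkn' : (0:ℝ) < k * (3 * n) := by
    have : (0:ℝ) < k * n := by exact_mod_cast hkn
    nlinarith
  obtain ⟨ω, hω⟩ := cols n w k ρ q e L B P D Acc (S.base c0) 8 hL0 hq0 (by omega) hkn hB hpc hAcc
    (by
      rw [hwc]
      have h1 : 4 * ρ * (4 * (2 ^ γ) ^ (6 * k)) ≤ n := by
        refine le_trans (le_of_eq ?_) hrl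
        rw [← pow_mul, hXd, show 6 * (k * γ) + 4 = γ * (6 * k) + 4 by ring, pow_add]
        ring
      exact_mod_cast h1)
    (by
      rw [le_div_iff₀ (by positivity)]
      have h3 : ((L * (k * (3 * n)) * 8 : ℕ) : ℝ) ≤ ((8 * ρ ^ 2 : ℕ) : ℝ) := by
        exact_mod_cast hLr
      push_cast at h3
      calc (8 : ℝ) * (2 * (L * (k * (3 * n)))) = 2 * (L * (k * (3 * n)) * 8) := by ring
        _ ≤ 2 * (8 * (ρ : ℝ) ^ 2) := by linarith
        _ = (4 * ρ : ℝ) ^ 2 := by ring)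
    (by
      rw [hwc, le_div_iff₀ (by positivity)]
      have h3 : ((2 * 4 ^ γ * L * 8 : ℕ) : ℝ) ≤ ((k * (3 * n) : ℕ) : ℝ) := by
        exact_mod_cast hLg
      push_cast at h3
      have h4 : ((2:ℝ) ^ γ) ^ 2 = 4 ^ γ := by
        rw [← pow_mul, mul_comm γ 2, pow_mul]; norm_num
      rw [h4]
      calc (8 : ℝ) * (2 * 4 ^ γ * L) = 2 * 4 ^ γ * L * 8 := by ring
        _ ≤ _ := h3)
    (by
      rw [hwc]
      have hqn : q ≤ n := by
        refine le_trans ?_ hrl
        rw [hq]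
        refine Nat.mul_le_mul_right _ ?_
        have h1 : X < 2 ^ X := Nat.lt_two_pow_self
        calc 400 * X ≤ 2 ^ 9 * 2 ^ X := by
              have : 400 ≤ 2 ^ 9 := by norm_num
              exact Nat.mul_le_mul this h1.le
          _ = 2 ^ (9 + X) := by rw [← pow_add]
          _ ≤ 2 ^ (6 * X + 4) := Nat.pow_le_pow_right (by norm_num) (by omega)
      have h1 : (n : ℝ) / (2 * q) ≤ (n / q : ℕ) := by
        rw [div_le_iff₀ (by positivity)]
        have h2 : n ≤ (n / q) * (2 * q) := by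
          have h3 : 1 ≤ n / q := Nat.div_pos hqn hq0
          have h4 := Nat.lt_mul_div_succ n hq0
          have h5 : q * (n / q + 1) = (n / q) * q + q := by ring
          have h6 : (n / q) * (2 * q) = (n / q) * q + (n / q) * q := by ring
          have h7 : q ≤ (n / q) * q := Nat.le_mul_of_pos_left _ h3
          omega
        exact_mod_cast h2
      have h2 : (24 * k * q : ℝ) / 2 ^ γ ≤ (e + 1 : ℝ) := by
        have h3 := Nat.lt_floor_add_one (((24 * k * q : ℕ) : ℝ) / ((2 ^ γ : ℕ) : ℝ))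
        rw [Nat.floor_div_eq_div] at h3
        push_cast at h3
        rw [he]
        exact h3.le
      have hq0' : (0:ℝ) < q := by exact_mod_cast hq0
      push_cast
      have hkn0 : (0:ℝ) ≤ k * n := by positivity
      calc 2 * ((k : ℝ) * (3 * n)) / 2 ^ γ ≤ 2 * (6 * k * n) / 2 ^ γ := by
            refine div_le_div_of_nonneg_right ?_ (by positivity)
            nlinarith
        _ = (n : ℝ) / (2 * q) * ((24 * k * q : ℝ) / 2 ^ γ) := by field_simp; ring
        _ ≤ ((n / q : ℕ) : ℝ) * (e + 1 : ℝ) :=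
            mul_le_mul h1 h2 (by positivity) (Nat.cast_nonneg _))
  -- many good inputs
  have hN : (0:ℝ) < 2 ^ (3 * n) := by positivity
  have hgood : (2 : ℝ) ^ (3 * n) / 4 ≤
      ((fil fun x => Acc x ∧ GoodS (S.base c0) ω ρ q e x).card : ℝ) := by
    have t1 : (3:ℝ) * Real.exp (-8) ≤ 1 / 4 := by
      have h1 : Real.exp (-8) ≤ 1 / 2 ^ 8 := by
        rw [Real.exp_neg, one_div]
        refine inv_anti₀ (by positivity) ?_
        have h2 : (8 : ℝ) = ((8 : ℕ) : ℝ) * 1 := by norm_num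
        rw [h2, Real.exp_nat_mul]
        refine pow_le_pow_left₀ (by norm_num) ?_ _
        have := Real.exp_one_gt_d9
        linarith
      linarith
    have t2 : (fil Acc).card ≤ (fil fun x => Acc x ∧ GoodS (S.base c0) ω ρ q e x).card +
        (fil fun x => Acc x ∧ ¬ GoodS (S.base c0) ω ρ q e x).card := by
      rw [← card_union_of_disjoint]
      · apply card_le_card
        intro x hx
        rw [mem_fil] at hx
        rw [mem_union, mem_fil, mem_fil]
        tauto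
      · rw [Finset.disjoint_left]
        intro x h1 h2
        rw [mem_fil] at h1 h2
        exact h2.2 h1.2
    have t3 : ((fil Acc).card : ℝ) ≤ (fil fun x => Acc x ∧ GoodS (S.base c0) ω ρ q e x).card +
        (fil fun x => Acc x ∧ ¬ GoodS (S.base c0) ω ρ q e x).card := by exact_mod_cast t2
    have t4 : (2 : ℝ) ^ (3 * n) ≤ 2 * (fil Acc).card := by exact_mod_cast hA
    have t5 := mul_le_mul_of_nonneg_left t1 hN.le
    linarith
  -- the class and the slice
  obtain ⟨d, Q, hQ, hDF, hcl⟩ := pigeon (S.base c0) ω ρ q e hgood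
  set Fm : Finset (Finset (Fin n) × Finset (Fin n)) :=
    (univ : Finset (Fin n)).powersetCard (4 * ρ) ×ˢ (univ : Finset (Fin n)).powersetCard (4 * ρ)
    with hFm
  have hFc : (Fm.card : ℝ) = (n.choose (4 * ρ) : ℝ) ^ 2 := by
    rw [hFm, card_product, card_powersetCard, card_univ, Fintype.card_fin]
    push_cast
    ring
  have hQc := fam_mem_card hQ
  have hDfam : (Fintype.card D : ℝ) * (fam n q e).card ≤
      2 ^ K * (2 ^ (ρ / 32) * 2 ^ (2 * u + γ * e)) := by gcongr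
  have hnum : 8 * (γ * e) ≤ ρ := by
    have : 8 * (γ * e) = 8 * γ * e := by ring
    omega
  obtain ⟨p, hp, z, hz1, hz2⟩ := h3 n ρ Q Fm (UM.CORS.Cls (S.base c0) ω ρ q e d Q)
    (1 / (4 * ((Fintype.card D : ℝ) * (fam n q e).card)))
    (fun p _ => UM.CORS.cls_closed (S.base c0) ω ρ q e d Q p)
    (fun p _ p' _ z z' v hz hz' h1 h2 =>
      UM.CORS.cls_disj (S.base c0) ω ρ q e d Q p p' z z' v hz hz' h1 h2)
    (by positivity) hcl (by
      rw [hFc, hQc, one_div, ← div_eq_inv_mul, le_div_iff₀ (by positivity)]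
      calc 4 * (n.choose (4 * ρ) : ℝ) ^ 2 * 2 ^ ρ *
            (4 * ((Fintype.card D : ℝ) * (fam n q e).card)) ≤
            4 * (2 ^ (20 * ρ + 24 * X * ρ)) ^ 2 * 2 ^ ρ *
            (4 * (2 ^ K * (2 ^ (ρ / 32) * 2 ^ (2 * u + γ * e)))) := by gcongr
        _ = 2 ^ (4 + (20 * ρ + 24 * X * ρ) * 2 + ρ + K + ρ / 32 + (2 * u + γ * e)) := by
            rw [← pow_mul, pow_add _ _ (2 * u + γ * e), pow_add _ _ (ρ / 32), pow_add _ _ K,
              pow_add _ _ ρ, pow_add _ 4]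
            norm_num
            ring
        _ ≤ 2 ^ (q - e) := by
            refine pow_le_pow_right₀ (by norm_num) ?_
            have h2 : (20 * ρ + 24 * X * ρ) * 2 = 40 * ρ + 48 * (X * ρ) := by ring
            have h3 : q = 400 * (X * ρ) := by rw [hq]; ring
            have h4 : 32 * ρ ≤ X * ρ := Nat.mul_le_mul_right _ hX
            rw [h2, h3]
            revert hnum
            generalize γ * e = x1
            intro hnum
            omega)
  have hpc' : p.1.card = 4 * ρ ∧ p.2.card = 4 * ρ := by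
    rw [hFm, mem_product, mem_powersetCard, mem_powersetCard] at hp
    exact ⟨hp.1.2, hp.2.2⟩
  have hX0 : 0 < (rowS (UM.CORS.Cls (S.base c0) ω ρ q e d Q p) (PP p) Q z).card := by
    have h4 : (0 : ℝ) < 1 / (4 * ((Fintype.card D : ℝ) * (fam n q e).card)) / 4 * 2 ^ (3 * n) := by
      positivity
    exact_mod_cast lt_of_lt_of_le h4 hz1
  have hsl := slice h1 h2 M hM S c0 ω d Q p hpc' z κ θ hF hX0 hz2
  -- the numbers
  have h5 : 1 / (4 * ((Fintype.card D : ℝ) * (fam n q e).card)) / 4 * 2 ^ (3 * n) * 2 ^ ρ ≤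
      2 ^ (3 * n) * 2 * ((Fintype.card D : ℝ) + 1) ^ 2 :=
    (mul_le_mul_of_nonneg_right hz1 (by positivity)).trans hsl
  have h6 : (2 : ℝ) ^ ρ ≤ 32 * ((Fintype.card D : ℝ) * (fam n q e).card) *
      ((Fintype.card D : ℝ) + 1) ^ 2 := by
    have h7 : (2 : ℝ) ^ (3 * n) * 2 ^ ρ ≤ 2 ^ (3 * n) *
        (32 * ((Fintype.card D : ℝ) * (fam n q e).card) * ((Fintype.card D : ℝ) + 1) ^ 2) := by
      have h8 := mul_le_mul_of_nonneg_left h5
        (show (0 : ℝ) ≤ 16 * ((Fintype.card D : ℝ) * (fam n q e).card) by positivity)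
      have h9 : 16 * ((Fintype.card D : ℝ) * (fam n q e).card) *
          (1 / (4 * ((Fintype.card D : ℝ) * (fam n q e).card)) / 4 * 2 ^ (3 * n) * 2 ^ ρ) =
          2 ^ (3 * n) * 2 ^ ρ := by
        obtain ⟨W, hW⟩ : ∃ W, W = (Fintype.card D : ℝ) * (fam n q e).card := ⟨_, rfl⟩
        rw [← hW] at hDF ⊢
        have hW0 : W ≠ 0 := hDF.ne'
        field_simp
        norm_num
      rw [h9] at h8
      refine h8.trans (le_of_eq ?_)
      ring
    exact le_of_mul_le_mul_left h7 hN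
  have h7 : ((Fintype.card D : ℝ) + 1) ^ 2 ≤ 2 ^ (2 * K + 2) := by
    have h8 : (Fintype.card D : ℝ) + 1 ≤ 2 ^ (K + 1) := by
      have h9 : (1 : ℝ) ≤ 2 ^ K := one_le_pow₀ (by norm_num)
      rw [pow_succ]
      linarith
    calc ((Fintype.card D : ℝ) + 1) ^ 2 ≤ (2 ^ (K + 1)) ^ 2 := by gcongr
      _ = _ := by
        rw [← pow_mul]
        congr 1
        ring
  have h8 : (2 : ℝ) ^ ρ ≤ 2 ^ (5 + (K + (ρ / 32 + (2 * u + γ * e))) + (2 * K + 2)) := by
    calc (2 : ℝ) ^ ρ ≤ 32 * (2 ^ K * (2 ^ (ρ / 32) * 2 ^ (2 * u + γ * e))) * 2 ^ (2 * K + 2) := by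
          refine h6.trans ?_
          gcongr
      _ = _ := by
          rw [pow_add _ _ (2 * K + 2), pow_add _ 5, pow_add _ K, pow_add _ (ρ / 32)]
          norm_num
  have h9 := (pow_le_pow_iff_right₀ (by norm_num : (1 : ℝ) < 2)).1 h8
  revert hnum h9
  generalize γ * e = x1
  intro hnum h9
  omega

end Pool.Agent.UCN
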