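import Pool.Agent.UCN.Ord
import Pool.Agent.UCN.Rank
import Pool.Agent.UCN.Norm
import Pool.Agent.UCN.Dense
import Pool.Agent.UCN.Csys
import Pool.Agent.UCN.Sysc
import Pool.Agent.UCN.Lowc

/-!
# Assembly
-/

set_option autoImplicit false

namespace Pool.Agent.UCN

theorem low_thr : LOWC_Stmt := lowc csys (sysc rank norm dense)

end Pool.Agent.UCN
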