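import Pool.Agent.UCN.Head

/-!
# The numbers of the asymptotic form, with a stronger bound
-/

set_option autoImplicit false

namespace Pool.Agent.UCN

open Real Filter

open HEAD in
/-- HEAD with a stronger lower bound for the number of states. -/
theorem head2 : ∀ (C : ℕ) (ε : ℝ), 0 < ε → ε < 1 → ∃ c : ℝ, 0 < c ∧ ∃ n₀ : ℕ, ∀ n ≥ n₀,
    ∀ m N : ℕ, m = ⌈(n : ℝ) ^ (ε / 20)⌉₊ → N = 4 * n * m →
    0 < n ∧ ∃ k : ℕ, 1 ≤ k ∧ (k + 1) ^ (C * k) ≤ m ∧
      (∀ T : ℕ, (T : ℝ) ≤ c * N * Real.log N / Real.log (Real.log N) → T ≤ k * N) ∧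
      ∀ v : ℕ, n < (Nat.log 2 v + Nat.log 2 n + 1) * (Nat.log 2 n + 1) * m ^ 16 →
        (2 : ℝ) ^ (2 * (N : ℝ) ^ (1 - ε)) ≤ v := by
  intro C ε hε0 hε1
  set a : ℝ := min (1 / 2) (ε / (20 * ((C : ℝ) + 1))) with ha
  have ha0 : 0 < a := lt_min (by norm_num) (by positivity)
  have ha1 : a ≤ 1 / 2 := min_le_left _ _
  have haC : (C : ℝ) * a ≤ ε / 20 := by
    have h1 : a ≤ ε / (20 * ((C : ℝ) + 1)) := min_le_right _ _
    have h2 : (0 : ℝ) ≤ C := Nat.cast_nonneg _
    calc (C : ℝ) * a ≤ (C + 1) * a := by nlinarith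
      _ ≤ (C + 1) * (ε / (20 * ((C : ℝ) + 1))) := mul_le_mul_of_nonneg_left h1 (by positivity)
      _ = ε / 20 := by
        field_simp
  have hP0 : 0 < 1 - 19 * ε / 20 := by linarith
  obtain ⟨n₁, hn₁⟩ := eventually_atTop.1 ((ev1 a ha0).and ((ev2 (ε / 20) (by positivity)).and
    ((ev2 (1 - 19 * ε / 20) hP0).and ((ev3 (ε / 20) (2 ^ 16 * 57) (by positivity)).and
    (ev4 100)))))
  refine ⟨a / 4, by positivity, max 64 n₁, ?_⟩
  intro n hn m N hm hN
  have hn64 : 64 ≤ n := le_trans (le_max_left _ _) hn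
  obtain ⟨e1, e2, e3, e4, e5⟩ := hn₁ n (le_trans (le_max_right _ _) hn)
  have hnr64 : (64 : ℝ) ≤ n := by exact_mod_cast hn64
  have hn0 : (0 : ℝ) < n := by linarith
  have hn1 : (1 : ℝ) ≤ n := by linarith
  set x : ℝ := log (n : ℝ) with hx
  set z : ℝ := log x with hz
  set q : ℝ := (n : ℝ) ^ (ε / 20) with hq
  set P : ℝ := (n : ℝ) ^ (1 - 19 * ε / 20) with hP
  have hq0 : 0 < q := rpow_pos_of_pos hn0 _
  have hPpos : 0 < P := rpow_pos_of_pos hn0 _
  have hz1 : 1 ≤ z := by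
    have h1 : log (Real.exp 1) ≤ log x := by
      apply log_le_log (Real.exp_pos 1)
      have := Real.exp_one_lt_d9
      linarith
    rwa [log_exp] at h1
  have hz0 : 0 < z := by linarith
  -- the size of `m` and `N`
  have hmq : q ≤ m := by
    rw [hm]
    exact Nat.le_ceil _
  have hmq' : (m : ℝ) ≤ 2 * q := by
    rw [hm]
    have := Nat.ceil_lt_add_one hq0.le
    linarith
  have hNr : (N : ℝ) = 4 * n * m := by
    rw [hN]
    push_cast
    ring
  have hNle : (N : ℝ) ≤ 8 * (n * q) := by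
    rw [hNr]
    nlinarith
  have hNge : (n : ℝ) ≤ N := by
    rw [hNr]
    nlinarith
  have hN0 : (0 : ℝ) < N := by linarith
  have hq2 : q ≤ (n : ℝ) ^ (1 / 2 : ℝ) := rpow_le_rpow_of_exponent_le hn1 (by linarith)
  have hsq : (n : ℝ) ^ (1 / 2 : ℝ) * (n : ℝ) ^ (1 / 2 : ℝ) = n := by
    rw [← rpow_add hn0]
    norm_num
  have hs8 : (8 : ℝ) ≤ (n : ℝ) ^ (1 / 2 : ℝ) := by
    have h1 : (64 : ℝ) ^ (1 / 2 : ℝ) ≤ (n : ℝ) ^ (1 / 2 : ℝ) :=
      rpow_le_rpow (by norm_num) hnr64 (by norm_num)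
    have h2 : (64 : ℝ) ^ (1 / 2 : ℝ) = 8 := by
      rw [show (64 : ℝ) = 8 ^ (2 : ℝ) by norm_num, ← rpow_mul (by norm_num)]
      norm_num
    linarith
  have hN2 : (N : ℝ) ≤ (n : ℝ) ^ 2 := by
    refine hNle.trans ?_
    have h1 : 8 * q ≤ n := by
      calc 8 * q ≤ (n : ℝ) ^ (1 / 2 : ℝ) * (n : ℝ) ^ (1 / 2 : ℝ) :=
            mul_le_mul hs8 hq2 hq0.le (by positivity)
        _ = n := hsq
    nlinarith
  -- the number `k`
  set w : ℝ := a * x / z with hw
  have hwz : w * z = a * x := by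
    rw [hw]
    field_simp
  have hw2 : 2 ≤ w := by
    rw [hw, le_div_iff₀ hz0]
    exact e1
  have hwx : w ≤ a * x := div_le_self (by positivity) hz1
  set k : ℕ := ⌊w⌋₊ with hk
  have hkw : (k : ℝ) ≤ w := Nat.floor_le (by linarith)
  have hkw' : w < (k : ℝ) + 1 := Nat.lt_floor_add_one w
  have hk1 : 1 ≤ k := by
    rw [hk, Nat.one_le_floor_iff]
    linarith
  have hkx : (k : ℝ) + 1 ≤ x := by nlinarith
  have hlogk : log ((k : ℝ) + 1) ≤ z := log_le_log (by positivity) hkx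
  have hlogk0 : 0 ≤ log ((k : ℝ) + 1) :=
    log_nonneg (by linarith [show (0 : ℝ) ≤ k from Nat.cast_nonneg _])
  refine ⟨by omega, k, hk1, ?_, ?_, ?_⟩
  · have h1 : ((k : ℝ) + 1) ^ (C * k) ≤ q := by
      rw [← log_le_log_iff (by positivity) hq0, hq, log_rpow hn0, log_pow]
      push_cast
      calc ((C : ℝ) * k) * log ((k : ℝ) + 1) ≤ ((C : ℝ) * w) * z :=
            mul_le_mul (mul_le_mul_of_nonneg_left hkw (Nat.cast_nonneg _)) hlogk hlogk0
              (by positivity)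
        _ = (C : ℝ) * a * x := by rw [mul_assoc, hwz]; ring
        _ ≤ ε / 20 * x := mul_le_mul_of_nonneg_right haC (by linarith)
    have h2 : ((k : ℝ) + 1) ^ (C * k) ≤ m := h1.trans hmq
    exact_mod_cast h2
  · intro T hT
    have hy1 : x ≤ log (N : ℝ) := log_le_log hn0 hNge
    have hy2 : log (N : ℝ) ≤ 2 * x := by
      have h1 := log_le_log hN0 hN2
      rw [log_pow] at h1
      push_cast at h1
      exact h1
    have hzN : z ≤ log (log (N : ℝ)) := log_le_log (by linarith) hy1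
    have hzN0 : 0 < log (log (N : ℝ)) := by linarith
    have h3 : a / 4 * N * log N / log (log N) ≤ w / 2 * N := by
      rw [div_le_iff₀ hzN0]
      calc a / 4 * N * log N ≤ a / 4 * N * (2 * x) :=
            mul_le_mul_of_nonneg_left hy2 (by positivity)
        _ = w * z / 2 * N := by rw [hwz]; ring
        _ = w / 2 * N * z := by ring
        _ ≤ w / 2 * N * log (log N) := mul_le_mul_of_nonneg_left hzN (by positivity)
    have h4 : w / 2 * N ≤ k * N := by
      apply mul_le_mul_of_nonneg_right _ hN0.le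
      linarith
    have h5 : (T : ℝ) ≤ k * N := hT.trans (h3.trans h4)
    exact_mod_cast h5
  · intro v hv
    set s : ℕ := Nat.log 2 v with hs
    set L : ℕ := Nat.log 2 n with hL
    have hvr : (n : ℝ) < ((s : ℝ) + L + 1) * (L + 1) * (m : ℝ) ^ 16 := by exact_mod_cast hv
    have hLx : (L : ℝ) + 1 ≤ 3 * x := by
      have := natlog_le n (by omega)
      linarith
    have hm16 : (m : ℝ) ^ 16 ≤ 2 ^ 16 * q ^ 16 := by
      rw [← mul_pow]
      exact pow_le_pow_left₀ (Nat.cast_nonneg _) hmq' 16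
    have hnq : (n : ℝ) = P * q ^ 3 * q ^ 16 := by
      rw [hP, hq, ← rpow_natCast, ← rpow_natCast, ← rpow_mul hn0.le, ← rpow_mul hn0.le,
        ← rpow_add hn0, ← rpow_add hn0]
      push_cast
      rw [show 1 - 19 * ε / 20 + ε / 20 * 3 + ε / 20 * 16 = 1 by ring, rpow_one]
    have h1 : P * q ^ 3 * q ^ 16 < ((s : ℝ) + 3 * x) * (3 * x) * 2 ^ 16 * q ^ 16 := by
      calc P * q ^ 3 * q ^ 16 = n := hnq.symm
        _ < ((s : ℝ) + L + 1) * (L + 1) * (m : ℝ) ^ 16 := hvr
        _ ≤ ((s : ℝ) + 3 * x) * (3 * x) * (2 ^ 16 * q ^ 16) := by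
          apply mul_le_mul _ hm16 (by positivity) (by positivity)
          apply mul_le_mul _ hLx (by positivity) (by positivity)
          linarith
        _ = ((s : ℝ) + 3 * x) * (3 * x) * 2 ^ 16 * q ^ 16 := by ring
    have h2 : P * q ^ 3 < ((s : ℝ) + 3 * x) * (3 * x) * 2 ^ 16 :=
      lt_of_mul_lt_mul_right h1 (by positivity)
    have hx0 : 0 < x := by linarith
    have hsP : 16 * P < s := by
      by_contra hcon
      push Not at hcon
      have h3 : ((s : ℝ) + 3 * x) * (3 * x) * 2 ^ 16 ≤ (19 * P) * (3 * x) * 2 ^ 16 := by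
        apply mul_le_mul_of_nonneg_right _ (by norm_num)
        apply mul_le_mul_of_nonneg_right _ (by positivity)
        linarith
      have h4 : (19 * P) * (3 * x) * 2 ^ 16 ≤ P * q ^ 3 := by
        have h5 : 2 ^ 16 * 57 * x ≤ q * q := mul_le_mul e4 e2 hx0.le hq0.le
        have h6 : (1 : ℝ) ≤ q := by linarith
        have h7 : q * q ≤ q ^ 3 := by nlinarith [mul_pos hq0 hq0]
        calc (19 * P) * (3 * x) * 2 ^ 16 = P * (2 ^ 16 * 57 * x) := by ring
          _ ≤ P * q ^ 3 := mul_le_mul_of_nonneg_left (h5.trans h7) hPpos.le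
      linarith
    have hNe : (N : ℝ) ^ (1 - ε) ≤ 8 * P := by
      calc (N : ℝ) ^ (1 - ε) ≤ (8 * (n * q)) ^ (1 - ε) :=
            rpow_le_rpow hN0.le hNle (by linarith)
        _ = 8 ^ (1 - ε) * (n * q) ^ (1 - ε) := mul_rpow (by norm_num) (by positivity)
        _ ≤ 8 * P := by
          apply mul_le_mul _ _ (by positivity) (by norm_num)
          · calc (8 : ℝ) ^ (1 - ε) ≤ 8 ^ (1 : ℝ) :=
                  rpow_le_rpow_of_exponent_le (by norm_num) (by linarith)
              _ = 8 := rpow_one _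
          · rw [hq, hP]
            have h8 : (n : ℝ) * (n : ℝ) ^ (ε / 20) = (n : ℝ) ^ (1 + ε / 20) := by
              rw [rpow_add hn0, rpow_one]
            rw [h8, ← rpow_mul hn0.le]
            apply rpow_le_rpow_of_exponent_le hn1
            nlinarith
    have hs0 : s ≠ 0 := by
      intro h0
      rw [h0] at hsP
      push_cast at hsP
      linarith
    have hv0 : v ≠ 0 := by
      intro h0
      apply hs0
      rw [hs, h0]
      simp
    have hvs : ((2 : ℝ) ^ s) ≤ v := by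
      exact_mod_cast Nat.pow_log_le_self 2 hv0
    calc (2 : ℝ) ^ (2 * (N : ℝ) ^ (1 - ε)) ≤ (2 : ℝ) ^ (s : ℝ) :=
          rpow_le_rpow_of_exponent_le (by norm_num) (by linarith)
      _ = (2 : ℝ) ^ s := rpow_natCast _ _
      _ ≤ v := hvs

end Pool.Agent.UCN
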