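import Pool.Agent.UCN.Defs2

/-!
# A machine that reads many cells at once is simulated by one that reads one cell
-/

set_option autoImplicit false

namespace Pool.Agent.UCN

open Finset
open Pool.Agent.UM (Mach)

namespace MANY

variable {I A V G C : Type} {s : ℕ}

/-- the number of the cell that is read at the time `t` -/
def idx (hs : 0 < s) (t : ℕ) : Fin s := ⟨t % s, Nat.mod_lt _ hs⟩

open Classical in
/-- the machine that reads the cells one after the other -/
noncomputable def sim [Inhabited C] (M : WMach (Fin s → I) (Fin s → A) V G C) (hs : 0 < s)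
    (a₀ : A) : WMach I A (V × (Fin s → A)) G C where
  start := (M.start, fun _ => a₀)
  init := M.init
  query t v := M.query (t / s) v.1 (idx hs t)
  addr t v := M.addr (t / s) v.1
  next t v a g c := if t % s + 1 = s then
    (((M.next (t / s) v.1 (Function.update v.2 (idx hs t) a) g c).1, v.2),
      (M.next (t / s) v.1 (Function.update v.2 (idx hs t) a) g c).2)
    else ((v.1, Function.update v.2 (idx hs t) a), g)
  wt t v a g c := if t % s + 1 = s then
    M.wt (t / s) v.1 (Function.update v.2 (idx hs t) a) g c
    else if c = default then 1 else 0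
  val v := M.val v.1

/-- the outcomes at the last reads -/
def lst (s : ℕ) (c : ℕ → C) (t : ℕ) : C := c (s * t + (s - 1))

variable [Inhabited C] (M : WMach (Fin s → I) (Fin s → A) V G C) (hs : 0 < s) (a₀ : A)

lemma div_eq {t i : ℕ} (hi : i < s) : (s * t + i) / s = t := by
  rw [Nat.mul_add_div (by omega), Nat.div_eq_of_lt hi, add_zero]

lemma mod_eq {t i : ℕ} (hi : i < s) : (s * t + i) % s = i := by
  rw [Nat.mul_add_mod, Nat.mod_eq_of_lt hi]

/-- the buffer after a read -/
theorem conf_succ (x : I → A) (c : ℕ → C) (t i : ℕ) (hi : i < s) :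
    ((sim M hs a₀).fix c).conf x (s * t + i + 1) =
      (fun (v : V × (Fin s → A)) (g : ℤ → G) =>
        (fun b : Fin s → A =>
          if i + 1 = s then (((M.next t v.1 b (g (M.addr t v.1)) (c (s * t + i))).1, v.2),
            Function.update g (M.addr t v.1)
              (M.next t v.1 b (g (M.addr t v.1)) (c (s * t + i))).2)
          else ((v.1, b), g)) (Function.update v.2 ⟨i, hi⟩ (x (M.query t v.1 ⟨i, hi⟩))))
        (((sim M hs a₀).fix c).conf x (s * t + i)).1
        (((sim M hs a₀).fix c).conf x (s * t + i)).2 := by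
  have e1 : (s * t + i) / s = t := div_eq hi
  have e2 : (s * t + i) % s = i := mod_eq hi
  have e3 : idx hs (s * t + i) = ⟨i, hi⟩ := Fin.ext e2
  simp only [Mach.conf, WMach.fix, sim, e1, e2, e3]
  by_cases h : i + 1 = s
  · simp only [h, if_true]
  · simp only [h, if_false, Function.update_eq_self]

/-- the configurations -/
theorem conf (x : I → A) (c : ℕ → C) (t : ℕ) : ∀ i : ℕ, i < s →
    ((((sim M hs a₀).fix c).conf x (s * t + i)).1.1 =
        ((M.fix (lst s c)).conf (many s x) t).1 ∧
      (((sim M hs a₀).fix c).conf x (s * t + i)).2 =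
        ((M.fix (lst s c)).conf (many s x) t).2) ∧
      ∀ j : Fin s, j.val < i → (((sim M hs a₀).fix c).conf x (s * t + i)).1.2 j =
        x (M.query t ((M.fix (lst s c)).conf (many s x) t).1 j) := by
  have step : ∀ t i : ℕ, ∀ hi : i < s, i + 1 < s →
      (((((sim M hs a₀).fix c).conf x (s * t + i)).1.1 =
        ((M.fix (lst s c)).conf (many s x) t).1 ∧
      (((sim M hs a₀).fix c).conf x (s * t + i)).2 =
        ((M.fix (lst s c)).conf (many s x) t).2) ∧
      ∀ j : Fin s, j.val < i → (((sim M hs a₀).fix c).conf x (s * t + i)).1.2 j =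
        x (M.query t ((M.fix (lst s c)).conf (many s x) t).1 j)) →
      (((((sim M hs a₀).fix c).conf x (s * t + (i + 1))).1.1 =
        ((M.fix (lst s c)).conf (many s x) t).1 ∧
      (((sim M hs a₀).fix c).conf x (s * t + (i + 1))).2 =
        ((M.fix (lst s c)).conf (many s x) t).2) ∧
      ∀ j : Fin s, j.val < i + 1 → (((sim M hs a₀).fix c).conf x (s * t + (i + 1))).1.2 j =
        x (M.query t ((M.fix (lst s c)).conf (many s x) t).1 j)) := by
    rintro t i hi hi1 ⟨⟨h1, h2⟩, h3⟩
    have e := conf_succ M hs a₀ x c t i hi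
    rw [← add_assoc, e]
    simp only [if_neg (show ¬ i + 1 = s by omega)]
    refine ⟨⟨h1, h2⟩, fun j hj => ?_⟩
    by_cases hji : j = ⟨i, hi⟩
    · subst hji
      rw [Function.update_self, h1]
    · rw [Function.update_of_ne hji]
      refine h3 j ?_
      have : j.val ≠ i := fun h => hji (Fin.ext h)
      omega
  induction t with
  | zero =>
    intro i
    induction i with
    | zero =>
      intro _
      exact ⟨⟨rfl, rfl⟩, fun j hj => absurd hj (Nat.not_lt_zero _)⟩
    | succ i ih =>
      intro hi
      exact step 0 i (by omega) hi (ih (by omega))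
  | succ t iht =>
    intro i
    induction i with
    | zero =>
      intro _
      obtain ⟨⟨h1, h2⟩, h3⟩ := iht (s - 1) (by omega)
      have e0 : s * (t + 1) + 0 = s * t + (s - 1) + 1 := by
        rw [Nat.mul_succ]
        omega
      have e := conf_succ M hs a₀ x c t (s - 1) (by omega)
      have e4 : Function.update (((sim M hs a₀).fix c).conf x (s * t + (s - 1))).1.2
          ⟨s - 1, by omega⟩ (x (M.query t (((sim M hs a₀).fix c).conf x
            (s * t + (s - 1))).1.1 ⟨s - 1, by omega⟩)) =
          many s x (M.query t ((M.fix (lst s c)).conf (many s x) t).1) := by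
        funext j
        by_cases hji : j = ⟨s - 1, by omega⟩
        · subst hji
          rw [Function.update_self, h1]
          rfl
        · rw [Function.update_of_ne hji]
          refine h3 j ?_
          have h5 : j.val ≠ s - 1 := fun h => hji (Fin.ext h)
          have := j.2
          omega
      rw [e0, e]
      simp only [if_pos (show s - 1 + 1 = s by omega)]
      refine ⟨⟨?_, ?_⟩, fun j hj => absurd hj (Nat.not_lt_zero _)⟩
      · rw [e4, h1, h2]
        rfl
      · rw [e4, h1, h2]
        rfl
    | succ i ih =>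
      intro hi
      exact step (t + 1) i (by omega) hi (ih (by omega))

/-- the register used -/
theorem reg (x : I → A) (c : ℕ → C) (t i : ℕ) (hi : i < s) :
    ((sim M hs a₀).fix c).reg x (s * t + i) = (M.fix (lst s c)).reg (many s x) t := by
  have h := (conf M hs a₀ x c t i hi).1.1
  show M.addr ((s * t + i) / s) (((sim M hs a₀).fix c).conf x (s * t + i)).1.1 = _
  rw [h, div_eq hi]
  rfl

/-- the cell read -/
theorem cell_eq (x : I → A) (c : ℕ → C) (t i : ℕ) (hi : i < s) :
    cell ((sim M hs a₀).fix c) x (s * t + i) = cell (M.fix (lst s c)) (many s x) t ⟨i, hi⟩ := by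
  have h := (conf M hs a₀ x c t i hi).1.1
  have e2 : (s * t + i) % s = i := mod_eq hi
  show M.query ((s * t + i) / s) (((sim M hs a₀).fix c).conf x (s * t + i)).1.1
    (idx hs (s * t + i)) = _
  rw [h, div_eq hi, show idx hs (s * t + i) = ⟨i, hi⟩ from Fin.ext e2]
  rfl

/-- the far accesses -/
theorem far_le (δ T : ℕ) (x : I → A) (c : ℕ → C) :
    ((sim M hs a₀).fix c).far δ (T * s) x ≤ (M.fix (lst s c)).far δ T (many s x) := by
  unfold Mach.far
  have key : ∀ τ ∈ (range (T * s - 1)).filter fun τ => (δ : ℤ) <
      |((sim M hs a₀).fix c).reg x (τ + 1) - ((sim M hs a₀).fix c).reg x τ|,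
      τ = s * (τ / s) + (s - 1) ∧ τ / s + 1 < T ∧ (δ : ℤ) <
        |(M.fix (lst s c)).reg (many s x) (τ / s + 1) - (M.fix (lst s c)).reg (many s x) (τ / s)| := by
    intro τ hτ
    rw [mem_filter, mem_range] at hτ
    obtain ⟨h1, h2⟩ := hτ
    have h3 : s * (τ / s) + τ % s = τ := Nat.div_add_mod τ s
    have h4 : τ % s < s := Nat.mod_lt _ hs
    have h5 : ((sim M hs a₀).fix c).reg x τ = (M.fix (lst s c)).reg (many s x) (τ / s) := by
      have := reg M hs a₀ x c (τ / s) (τ % s) h4
      rw [h3] at this
      exact this
    by_cases h6 : τ % s + 1 < s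
    · exfalso
      have h7 : ((sim M hs a₀).fix c).reg x (τ + 1) =
          (M.fix (lst s c)).reg (many s x) (τ / s) := by
        have := reg M hs a₀ x c (τ / s) (τ % s + 1) h6
        rw [← add_assoc, h3] at this
        exact this
      rw [h5, h7, sub_self, abs_zero] at h2
      omega
    · have h7 : τ % s = s - 1 := by omega
      rw [h7] at h3
      have h8 : τ + 1 = s * (τ / s + 1) := by
        rw [Nat.mul_succ]
        omega
      have h9 : ((sim M hs a₀).fix c).reg x (τ + 1) =
          (M.fix (lst s c)).reg (many s x) (τ / s + 1) := by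
        have := reg M hs a₀ x c (τ / s + 1) 0 hs
        rw [add_zero, ← h8] at this
        exact this
      refine ⟨h3.symm, ?_, ?_⟩
      · have h10 : s * (τ / s + 1) < s * T := by
          rw [← h8, mul_comm s T]
          omega
        exact lt_of_mul_lt_mul_left h10 (Nat.zero_le s)
      · rw [← h9, ← h5]
        exact h2
  refine card_le_card_of_injOn (fun τ => τ / s) (fun τ hτ => ?_) fun τ hτ τ' hτ' h => ?_
  · obtain ⟨h1, h2, h3⟩ := key τ hτ
    rw [mem_coe, mem_filter, mem_range]
    refine ⟨?_, h3⟩
    show τ / s < T - 1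
    generalize τ / s = r at h2
    omega
  · rw [(key τ hτ).1, (key τ' hτ').1]
    have h' : τ / s = τ' / s := h
    rw [h']

/-! ### The value -/

/-- the outcomes at the last reads -/
def red {T : ℕ} (c : Fin (T * s) → C) (t : Fin T) : C :=
  c (finProdFinEquiv (t, ⟨s - 1, Nat.sub_lt hs one_pos⟩))

theorem lst_ext {T : ℕ} (c : Fin (T * s) → C) : lst s (ext c) = ext (red hs c) := by
  funext t
  unfold lst ext
  by_cases h : t < T
  · have h1 : s * t + (s - 1) < T * s := by
      calc s * t + (s - 1) < s * (t + 1) := by
            rw [Nat.mul_succ]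
            omega
        _ ≤ s * T := Nat.mul_le_mul_left _ h
        _ = T * s := mul_comm _ _
    rw [dif_pos h, dif_pos h1]
    unfold red
    congr 1
    apply Fin.ext
    simp only [finProdFinEquiv_apply_val]
    omega
  · have h1 : ¬ s * t + (s - 1) < T * s := by
      intro h2
      apply h
      have h3 : s * t < s * T := by
        rw [mul_comm s T]
        omega
      exact lt_of_mul_lt_mul_left h3 (Nat.zero_le s)
    rw [dif_neg h, dif_neg h1]

open Classical in
/-- the weights -/
theorem wt_eq {T : ℕ} (x : I → A) (c : Fin (T * s) → C) (t : Fin T) (i : Fin s) :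
    (sim M hs a₀).stepWt x (ext c) (finProdFinEquiv (t, i) : Fin (T * s)) =
      if i.val + 1 = s then M.stepWt (many s x) (ext (red hs c)) t else
        if c (finProdFinEquiv (t, i)) = default then 1 else 0 := by
  have e0 : ((finProdFinEquiv (t, i) : Fin (T * s)) : ℕ) = s * t + i := by
    rw [finProdFinEquiv_apply_val]
    simp only
    omega
  have hlt : s * (t : ℕ) + i < T * s := e0 ▸ (finProdFinEquiv (t, i) : Fin (T * s)).2
  have e1 : ext c (s * t + i) = c (finProdFinEquiv (t, i)) := by
    unfold ext
    rw [dif_pos hlt]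
    congr 1
    exact Fin.ext e0.symm
  obtain ⟨⟨h1, h2⟩, h3⟩ := conf M hs a₀ x (ext c) t i i.2
  have e2 : (s * (t : ℕ) + i) / s = t := div_eq i.2
  have e3 : (s * (t : ℕ) + i) % s = i := mod_eq i.2
  have e4 : idx hs (s * t + i) = i := Fin.ext e3
  have e6 : ∀ K : (V × (Fin s → A)) × (ℤ → G), (sim M hs a₀).wt (s * t + i) K.1
      (x ((sim M hs a₀).query (s * t + i) K.1)) (K.2 ((sim M hs a₀).addr (s * t + i) K.1))
      (ext c (s * t + i)) = if i.val + 1 = s then M.wt t K.1.1 (Function.update K.1.2 i
        (x (M.query t K.1.1 i))) (K.2 (M.addr t K.1.1)) (ext c (s * t + i))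
        else if ext c (s * t + i) = default then 1 else 0 := by
    intro K
    simp only [sim, e2, e3, e4]
  rw [e0]
  refine (e6 _).trans ?_
  by_cases h : i.val + 1 = s
  · rw [if_pos h, if_pos h]
    have e5 : Function.update (((sim M hs a₀).fix (ext c)).conf x (s * t + i)).1.2 i
        (x (M.query t (((sim M hs a₀).fix (ext c)).conf x (s * t + i)).1.1 i)) =
        many s x (M.query t ((M.fix (lst s (ext c))).conf (many s x) t).1) := by
      funext j
      by_cases hji : j = i
      · subst hji
        rw [Function.update_self, h1]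
        rfl
      · rw [Function.update_of_ne hji]
        refine h3 j ?_
        have h5 : j.val ≠ i := fun h => hji (Fin.ext h)
        have := j.2
        omega
    have e7 : ext c (s * t + i) = lst s (ext c) t := by
      unfold lst
      congr 2
      omega
    rw [← lst_ext hs c, e5, e7, h1, h2]
    rfl
  · rw [if_neg h, if_neg h, e1]

/-- the value -/
theorem value {T : ℕ} [Fintype C] (x : I → A) :
    (sim M hs a₀).value (T * s) x = M.value T (many s x) := by
  classical
  unfold WMach.value
  symm
  let e : (Fin T → C) → Fin (T * s) → C := fun c τ =>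
    if (finProdFinEquiv.symm τ).2.val + 1 = s then c (finProdFinEquiv.symm τ).1 else default
  have hred : ∀ c, red hs (e c) = c := by
    intro c
    funext t
    show (if (finProdFinEquiv.symm (finProdFinEquiv (t, (⟨s - 1, Nat.sub_lt hs one_pos⟩ :
      Fin s)))).2.val + 1 = s then c (finProdFinEquiv.symm (finProdFinEquiv (t,
        (⟨s - 1, Nat.sub_lt hs one_pos⟩ : Fin s)))).1 else default) = c t
    rw [Equiv.symm_apply_apply, if_pos]
    show s - 1 + 1 = s
    omega
  have hfin : ∀ c : Fin (T * s) → C, ((sim M hs a₀).fix (ext c)).conf x (T * s) =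
      ((sim M hs a₀).fix (ext c)).conf x (s * T + 0) := by
    intro c
    exact congrArg (((sim M hs a₀).fix (ext c)).conf x) (by rw [add_zero, mul_comm])
  refine Finset.sum_of_injOn e (fun c _ c' _ h => ?_) (fun c _ => mem_univ _) (fun c _ hc => ?_)
    fun c _ => ?_
  · rw [← hred c, ← hred c', h]
  · have h1 : ∃ τ : Fin (T * s), ¬ (finProdFinEquiv.symm τ).2.val + 1 = s ∧ c τ ≠ default := by
      by_contra hcon
      push Not at hcon
      apply hc
      refine ⟨red hs c, mem_univ _, ?_⟩
      funext τ
      show (if (finProdFinEquiv.symm τ).2.val + 1 = s then red hs c (finProdFinEquiv.symm τ).1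
        else default) = c τ
      by_cases h : (finProdFinEquiv.symm τ).2.val + 1 = s
      · rw [if_pos h]
        unfold red
        congr 1
        rw [← Equiv.eq_symm_apply]
        refine Prod.ext rfl (Fin.ext ?_)
        show s - 1 = _
        omega
      · rw [if_neg h, hcon τ h]
    obtain ⟨τ, h1, h2⟩ := h1
    rw [Finset.prod_eq_zero (mem_univ τ), zero_mul]
    have h3 := wt_eq M hs a₀ x c (finProdFinEquiv.symm τ).1 (finProdFinEquiv.symm τ).2
    rw [Prod.mk.eta, Equiv.apply_symm_apply, if_neg h1, if_neg h2] at h3
    exact h3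
  · rw [hfin, ← finProdFinEquiv.prod_comp, Fintype.prod_prod_type]
    have h1 := (conf M hs a₀ x (ext (e c)) T 0 hs).1.1
    show _ = _ * M.val (((sim M hs a₀).fix (ext (e c))).conf x (s * T + 0)).1.1
    rw [h1, lst_ext hs, hred]
    congr 1
    refine Finset.prod_congr rfl fun t _ => ?_
    rw [Finset.prod_eq_single (⟨s - 1, Nat.sub_lt hs one_pos⟩ : Fin s)]
    · rw [wt_eq, if_pos, hred]
      show s - 1 + 1 = s
      omega
    · intro i _ hi
      rw [wt_eq, if_neg, if_pos]
      · show (if (finProdFinEquiv.symm (finProdFinEquiv (t, i))).2.val + 1 = s then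
          c (finProdFinEquiv.symm (finProdFinEquiv (t, i))).1 else default) = default
        rw [Equiv.symm_apply_apply, if_neg]
        intro h
        apply hi
        apply Fin.ext
        show i.val = s - 1
        have h' : i.val + 1 = s := h
        omega
      · intro h
        apply hi
        apply Fin.ext
        show i.val = s - 1
        omega
    · intro h
      exact absurd (mem_univ _) h

end MANY

open MANY in
/-- A machine that reads `s` cells at once is simulated by one that reads one cell. -/
theorem inThr_of_inThrs {s : ℕ} (hs : 0 < s) {C I A V G : Type} [Fintype C] [Inhabited C]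
    [Inhabited A] {T δ J : ℕ} {L : (I → A) → Prop} (h : InThrs s C I A V G T δ J L) :
    InThr C I A (V × (Fin s → A)) G (T * s) δ J L := by
  obtain ⟨M, θ, h1, h2, h3⟩ := h
  refine ⟨sim M hs default, θ, fun x c => (far_le M hs default δ T x c).trans (h1 x _), ?_,
    fun x => ?_⟩
  · intro x c c' τ hτ
    have h4 : s * (τ / s) + τ % s = τ := Nat.div_add_mod τ s
    have h5 : τ % s < s := Nat.mod_lt _ hs
    have h6 : τ / s < T := Nat.div_lt_of_lt_mul (by rwa [mul_comm])
    have h7 := h2 x (lst s c) (lst s c') (τ / s) h6
    rw [← h4, cell_eq M hs default x c _ _ h5, cell_eq M hs default x c' _ _ h5,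
      reg M hs default x c _ _ h5, reg M hs default x c' _ _ h5]
    exact ⟨congrFun h7.1 _, h7.2⟩
  · rw [h3, value]

end Pool.Agent.UCN
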