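import Pool.Agent.UCN.Defs
import Pool.Agent.UM.Parm
import Pool.Agent.UM.Modes

/-!
# The form is in parity mode and in PSPACE mode with a fixed order of reading
-/

set_option autoImplicit false

namespace Pool.Agent.UCN

open Finset
open Pool.Agent.UM (Mach ECell form InParity InPSPACE)
open Pool.Agent.UM.PARM (Mon coef mon form_eq par_sum)
open Pool.Agent.UM.MODES (withAcc withAcc_accepts)

namespace ORD

variable {I A V : Type} {T : ℕ} {σ : Fin T → I}

theorem compl {L : (I → A) → Prop} (h : DecO I A V T σ L) : DecO I A V T σ fun x => ¬ L x := by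
  obtain ⟨M, hM, hL⟩ := h
  refine ⟨withAcc M fun v => ¬ M.acc v, hM, fun x => ?_⟩
  rw [withAcc_accepts]
  exact not_congr (hL x)

theorem const {L : (I → A) → Prop} (h : DecO I A V T σ L) (b : Prop) :
    DecO I A V T σ fun _ => b := by
  obtain ⟨M, hM, hL⟩ := h
  refine ⟨withAcc M fun _ => b, hM, fun x => ?_⟩
  rw [withAcc_accepts]

/-- PP mode is contained in PSPACE mode -/
theorem pp {W : ℕ} {L : (I → A) → Prop} (h : UM.InPP (DecO I A V T σ) W L) :
    InPSPACE (DecO I A V T σ) (W * (W + 3) / 2) L :=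
  UM.MODES.pp (fun _ b h => const h b) h

variable {n m : ℕ}

/-- the four cells of a monomial -/
def cells (q : Mon n m) : Finset (ECell n m) :=
  {Sum.inl (q.2.1, q.2.2.1), Sum.inr (q.1, 0, q.2.2.2.1), Sum.inr (q.1, 1, q.2.2.2.2.1),
    Sum.inr (q.1, 2, q.2.2.2.2.2)}

/-- the machine of a monomial -/
noncomputable def ordM (α : Fin n → GaloisField 2 n) (σ : Fin T → ECell n m) (q : Mon n m) :
    Mach (ECell n m) (ZMod 2) (ZMod 2) Unit where
  start := coef α q
  init := fun _ => ()
  query := fun t _ => if h : t < T then σ ⟨t, h⟩ else Sum.inl (q.2.1, q.2.2.1)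
  addr := fun _ _ => 0
  next := fun t v a _ => (if h : t < T then (if σ ⟨t, h⟩ ∈ cells q then v * a else v) else v, ())
  acc := fun v => v = 1

theorem ordM_state (α : Fin n → GaloisField 2 n) (σ : Fin T → ECell n m) (q : Mon n m)
    (z : ECell n m → ZMod 2) (t : ℕ) : ((ordM α σ q).conf z t).1 = coef α q *
      ∏ i ∈ range t, (if h : i < T then (if σ ⟨i, h⟩ ∈ cells q then z (σ ⟨i, h⟩) else 1) else 1) := by
  induction t with
  | zero =>
    rw [Finset.prod_range_zero, mul_one]
    rfl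
  | succ t ih =>
    rw [Finset.prod_range_succ, ← mul_assoc, ← ih]
    show (if h : t < T then (if σ ⟨t, h⟩ ∈ cells q then ((ordM α σ q).conf z t).1 *
      z (if h : t < T then σ ⟨t, h⟩ else Sum.inl (q.2.1, q.2.2.1)) else
        ((ordM α σ q).conf z t).1) else ((ordM α σ q).conf z t).1) = _
    by_cases h : t < T
    · rw [dif_pos h, dif_pos h, dif_pos h]
      by_cases h' : σ ⟨t, h⟩ ∈ cells q
      · rw [if_pos h', if_pos h']
      · rw [if_neg h', if_neg h', mul_one]
    · rw [dif_neg h, dif_neg h, mul_one]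

theorem ordM_fin (α : Fin n → GaloisField 2 n) (σ : Fin T ≃ ECell n m) (q : Mon n m)
    (z : ECell n m → ZMod 2) : ((ordM α σ q).conf z T).1 = mon α q z := by
  rw [ordM_state, ← Fin.prod_univ_eq_prod_range (fun i => if h : i < T then
    (if σ ⟨i, h⟩ ∈ cells q then z (σ ⟨i, h⟩) else 1) else 1) T]
  have h1 : ∏ i : Fin T, (if h : i.val < T then
      (if σ ⟨i.val, h⟩ ∈ cells q then z (σ ⟨i.val, h⟩) else 1) else 1) =
      ∏ e, if e ∈ cells q then z e else 1 := by
    rw [← σ.prod_comp]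
    refine Finset.prod_congr rfl fun i _ => ?_
    rw [dif_pos i.2]
  rw [h1, Finset.prod_ite_mem, Finset.univ_inter]
  unfold cells mon
  rw [Finset.prod_insert, Finset.prod_insert, Finset.prod_insert, Finset.prod_singleton]
  · ring
  · simp
  · simp
  · simp

/-- the form is in parity mode -/
theorem parity (α : Fin n → GaloisField 2 n) (hn : 0 < n) (hm : 0 < m)
    (σ : Fin T ≃ ECell n m) :
    InParity (DecO (ECell n m) (ZMod 2) (ZMod 2) T σ) (Nat.clog 2 (m ^ 2 * n ^ 4))
      (fun z => form α z = 1) := by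
  have hD : ∀ q : Mon n m, DecO (ECell n m) (ZMod 2) (ZMod 2) T σ fun z => mon α q z = 1 := by
    intro q
    refine ⟨ordM α σ q, fun t v => ?_, fun x => ?_⟩
    · show (if h : t.val < T then σ ⟨t.val, h⟩ else Sum.inl (q.2.1, q.2.2.1)) = σ t
      rw [dif_pos t.2]
    · show mon α q x = 1 ↔ ((ordM α σ q).conf x T).1 = 1
      rw [ordM_fin]
  have h := par_sum (w := Nat.clog 2 (m ^ 2 * n ^ 4)) (DecO (ECell n m) (ZMod 2) (ZMod 2) T σ)
    (const (hD (⟨0, hm⟩, ⟨0, hm⟩, ⟨0, hn⟩, ⟨0, hn⟩, ⟨0, hn⟩, ⟨0, hn⟩)) False)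
    (fun (q : Mon n m) z => mon α q z) hD (by
      refine le_trans (le_of_eq ?_) (Nat.le_pow_clog (by norm_num) _)
      simp only [Fintype.card_prod, Fintype.card_fin]
      ring)
  have e : (fun z : ECell n m → ZMod 2 => form α z = 1) = fun z => ∑ q : Mon n m, mon α q z = 1 := by
    funext z
    rw [form_eq]
  rw [e]
  exact h

/-- the form is in PSPACE mode -/
theorem pspace (α : Fin n → GaloisField 2 n) (hn : 0 < n) (hm : 0 < m)
    (σ : Fin T ≃ ECell n m) :
    InPSPACE (DecO (ECell n m) (ZMod 2) (ZMod 2) T σ) (2 * Nat.clog 2 (m ^ 2 * n ^ 4))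
      (fun z => form α z = 1) :=
  UM.MODES.parity (fun _ b h => const h b) (fun _ h => compl h) (parity α hn hm σ)

end ORD

end Pool.Agent.UCN
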