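import Pool.Agent.UCN.Defs2
import Pool.Agent.UCN.Ord

/-!
# The form is in parity mode and in PSPACE mode with any fixed schedule of reading
-/

set_option autoImplicit false

namespace Pool.Agent.UCN

open Finset
open Pool.Agent.UM (Mach ECell form InParity InPSPACE)
open Pool.Agent.UM.PARM (Mon coef mon form_eq par_sum)
open Pool.Agent.UM.MODES (withAcc withAcc_accepts)

namespace SCH

variable {s : ℕ} {I A V : Type} {T : ℕ} {σ : Fin T → Fin s → I}

theorem compl {L : (I → A) → Prop} (h : DecOs s I A V T σ L) :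
    DecOs s I A V T σ fun x => ¬ L x := by
  obtain ⟨M, hM, hL⟩ := h
  refine ⟨withAcc M fun v => ¬ M.acc v, hM, fun x => ?_⟩
  rw [withAcc_accepts]
  exact not_congr (hL x)

theorem const {L : (I → A) → Prop} (h : DecOs s I A V T σ L) (b : Prop) :
    DecOs s I A V T σ fun _ => b := by
  obtain ⟨M, hM, hL⟩ := h
  refine ⟨withAcc M fun _ => b, hM, fun x => ?_⟩
  rw [withAcc_accepts]

variable {n m : ℕ}

open ORD (cells)

/-- the machine of a monomial -/
noncomputable def schM (α : Fin n → GaloisField 2 n) (σ : Fin T → Fin s → ECell n m)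
    (q : Mon n m) : Mach (Fin s → ECell n m) (Fin s → ZMod 2) (ZMod 2) Unit where
  start := coef α q
  init := fun _ => ()
  query := fun t _ => if h : t < T then σ ⟨t, h⟩ else fun _ => Sum.inl (q.2.1, q.2.2.1)
  addr := fun _ _ => 0
  next := fun t v a _ =>
    (if h : t < T then v * ∏ i, (if σ ⟨t, h⟩ i ∈ cells q then a i else 1) else v, ())
  acc := fun v => v = 1

theorem schM_state (α : Fin n → GaloisField 2 n) (σ : Fin T → Fin s → ECell n m) (q : Mon n m)
    (z : ECell n m → ZMod 2) (t : ℕ) : ((schM α σ q).conf (many s z) t).1 = coef α q *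
      ∏ τ ∈ range t, (if h : τ < T then ∏ i, (if σ ⟨τ, h⟩ i ∈ cells q then z (σ ⟨τ, h⟩ i) else 1)
        else 1) := by
  induction t with
  | zero =>
    rw [Finset.prod_range_zero, mul_one]
    rfl
  | succ t ih =>
    rw [Finset.prod_range_succ, ← mul_assoc, ← ih]
    show (if h : t < T then ((schM α σ q).conf (many s z) t).1 *
      ∏ i, (if σ ⟨t, h⟩ i ∈ cells q then many s z (if h : t < T then σ ⟨t, h⟩ else
        fun _ => Sum.inl (q.2.1, q.2.2.1)) i else 1) else ((schM α σ q).conf (many s z) t).1) = _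
    by_cases h : t < T
    · rw [dif_pos h, dif_pos h, dif_pos h]
      rfl
    · rw [dif_neg h, dif_neg h, mul_one]

theorem two_eq (a b : ZMod 2) (h : a = 0 ↔ b = 0) : a = b := by
  revert a b
  decide

theorem schM_fin (α : Fin n → GaloisField 2 n) (σ : Fin T → Fin s → ECell n m)
    (hσ : ∀ e, ∃ t i, σ t i = e) (q : Mon n m)
    (z : ECell n m → ZMod 2) : ((schM α σ q).conf (many s z) T).1 = mon α q z := by
  rw [schM_state, ← Fin.prod_univ_eq_prod_range (fun τ => if h : τ < T then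
    ∏ i, (if σ ⟨τ, h⟩ i ∈ cells q then z (σ ⟨τ, h⟩ i) else 1) else 1) T]
  have h1 : ∏ τ : Fin T, (if h : τ.val < T then
      ∏ i, (if σ ⟨τ.val, h⟩ i ∈ cells q then z (σ ⟨τ.val, h⟩ i) else 1) else 1) =
      ∏ e ∈ cells q, z e := by
    apply two_eq
    rw [Finset.prod_eq_zero_iff, Finset.prod_eq_zero_iff]
    constructor
    · rintro ⟨τ, -, h2⟩
      rw [dif_pos τ.2, Finset.prod_eq_zero_iff] at h2
      obtain ⟨i, -, h3⟩ := h2
      by_cases h4 : σ τ i ∈ cells q
      · rw [if_pos h4] at h3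
        exact ⟨σ τ i, h4, h3⟩
      · rw [if_neg h4] at h3
        exact absurd h3 one_ne_zero
    · rintro ⟨e, he, h2⟩
      obtain ⟨τ, i, h3⟩ := hσ e
      refine ⟨τ, mem_univ _, ?_⟩
      rw [dif_pos τ.2, Finset.prod_eq_zero_iff]
      refine ⟨i, mem_univ _, ?_⟩
      show (if σ τ i ∈ cells q then z (σ τ i) else 1) = 0
      rw [h3, if_pos he, h2]
  rw [h1]
  unfold cells mon
  rw [Finset.prod_insert, Finset.prod_insert, Finset.prod_insert, Finset.prod_singleton]
  · ring
  · simp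
  · simp
  · simp

/-- the form is in parity mode -/
theorem parity (α : Fin n → GaloisField 2 n) (hn : 0 < n) (hm : 0 < m)
    (σ : Fin T → Fin s → ECell n m) (hσ : ∀ e, ∃ t i, σ t i = e) :
    InParity (DecOs s (ECell n m) (ZMod 2) (ZMod 2) T σ) (Nat.clog 2 (m ^ 2 * n ^ 4))
      (fun z => form α z = 1) := by
  have hD : ∀ q : Mon n m, DecOs s (ECell n m) (ZMod 2) (ZMod 2) T σ
      fun z => mon α q z = 1 := by
    intro q
    refine ⟨schM α σ q, fun t v => ?_, fun x => ?_⟩
    · show (if h : t.val < T then σ ⟨t.val, h⟩ else fun _ => Sum.inl (q.2.1, q.2.2.1)) = σ t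
      rw [dif_pos t.2]
    · show mon α q x = 1 ↔ ((schM α σ q).conf (many s x) T).1 = 1
      rw [schM_fin α σ hσ]
  have h := par_sum (w := Nat.clog 2 (m ^ 2 * n ^ 4))
    (DecOs s (ECell n m) (ZMod 2) (ZMod 2) T σ)
    (const (hD (⟨0, hm⟩, ⟨0, hm⟩, ⟨0, hn⟩, ⟨0, hn⟩, ⟨0, hn⟩, ⟨0, hn⟩)) False)
    (fun (q : Mon n m) z => mon α q z) hD (by
      refine le_trans (le_of_eq ?_) (Nat.le_pow_clog (by norm_num) _)
      simp only [Fintype.card_prod, Fintype.card_fin]
      ring)
  have e : (fun z : ECell n m → ZMod 2 => form α z = 1) = fun z => ∑ q : Mon n m, mon α q z = 1 := by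
    funext z
    rw [form_eq]
  rw [e]
  exact h

/-- the form is in PSPACE mode -/
theorem pspace (α : Fin n → GaloisField 2 n) (hn : 0 < n) (hm : 0 < m)
    (σ : Fin T → Fin s → ECell n m) (hσ : ∀ e, ∃ t i, σ t i = e) :
    InPSPACE (DecOs s (ECell n m) (ZMod 2) (ZMod 2) T σ) (2 * Nat.clog 2 (m ^ 2 * n ^ 4))
      (fun z => form α z = 1) :=
  UM.MODES.parity (fun _ b h => const h b) (fun _ h => compl h) (parity α hn hm σ hσ)

end SCH

end Pool.Agent.UCN
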