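import Mathlib

/-!
# Forster's theorem, first part: positive definite matrices in balanced position
-/

set_option autoImplicit false

namespace Pool.Agent.UCN

open Finset Matrix Polynomial

variable {X : Type} [Fintype X] {d : ℕ}

/-- The sum of the matrices with the weights `c`. -/
def ms (A : X → Matrix (Fin d) (Fin d) ℝ) (c : X → ℝ) : Matrix (Fin d) (Fin d) ℝ :=
  ∑ x, c x • A x

theorem ms_posDef (A : X → Matrix (Fin d) (Fin d) ℝ) (hA : ∀ x, (A x).PosDef) (c : X → ℝ)
    (h0 : ∀ x, 0 ≤ c x) (h1 : ∃ x, 0 < c x) : (ms A c).PosDef := by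
  classical
  obtain ⟨x0, hx0⟩ := h1
  unfold ms
  rw [← Finset.add_sum_erase _ _ (mem_univ x0)]
  refine ((hA x0).smul hx0).add_posSemidef ?_
  exact Matrix.posSemidef_sum _ fun x _ => (hA x).posSemidef.smul (h0 x)

theorem ms_smul (A : X → Matrix (Fin d) (Fin d) ℝ) (r : ℝ) (c : X → ℝ) :
    ms A (fun x => r * c x) = r • ms A c := by
  unfold ms
  rw [Finset.smul_sum]
  exact Finset.sum_congr rfl fun x _ => by rw [smul_smul]

theorem ms_update [DecidableEq X] (A : X → Matrix (Fin d) (Fin d) ℝ) (c : X → ℝ) (x : X) (s : ℝ) :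
    ms A (Function.update c x ((1 + s) * c x)) = ms A c + (s * c x) • A x := by
  unfold ms
  rw [← Finset.add_sum_erase _ _ (mem_univ x), ← Finset.add_sum_erase univ (fun y => c y • A y)
    (mem_univ x), Function.update_self]
  rw [Finset.sum_congr rfl (g := fun y => c y • A y)]
  · rw [add_mul, add_smul, one_mul]
    abel
  · intro y hy
    rw [Function.update_of_ne (Finset.ne_of_mem_erase hy)]

/-- the function that is maximised -/
noncomputable def psi (A : X → Matrix (Fin d) (Fin d) ℝ) (c : X → ℝ) : ℝ :=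
  (∏ x, c x) ^ d / (ms A c).det ^ Fintype.card X

theorem psi_smul (A : X → Matrix (Fin d) (Fin d) ℝ) (r : ℝ) (hr : 0 < r) (c : X → ℝ) :
    psi A (fun x => r * c x) = psi A c := by
  unfold psi
  rw [ms_smul, Finset.prod_mul_distrib, Finset.prod_const, card_univ, Matrix.det_smul,
    Fintype.card_fin, mul_pow, mul_pow, ← pow_mul, ← pow_mul, mul_comm d]
  exact mul_div_mul_left _ _ (by positivity)

theorem det_poly (N : Matrix (Fin d) (Fin d) ℝ) (s : ℝ) :
    (det (1 + (Polynomial.X : ℝ[X]) • N.map Polynomial.C)).eval s = det (1 + s • N) := by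
  have h := RingHom.map_det (Polynomial.evalRingHom s) (1 + (Polynomial.X : ℝ[X]) • N.map Polynomial.C)
  rw [Polynomial.coe_evalRingHom] at h
  rw [h]
  congr 1
  ext i j
  simp only [RingHom.mapMatrix_apply, Matrix.map_apply, Matrix.add_apply, Matrix.smul_apply,
    smul_eq_mul, Polynomial.coe_evalRingHom, Polynomial.eval_add, Polynomial.eval_mul,
    Polynomial.eval_X, Polynomial.eval_C]
  congr 1
  rw [Matrix.one_apply, Matrix.one_apply]
  split_ifs <;> simp

/-- the derivative at a local minimum -/
theorem deriv_zero (N : Matrix (Fin d) (Fin d) ℝ) (m : ℕ)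
    (h : ∀ s : ℝ, -1 < s → (1 + s) ^ d ≤ det (1 + s • N) ^ m) : m * N.trace = d := by
  set p : ℝ[X] := det (1 + (Polynomial.X : ℝ[X]) • N.map Polynomial.C) with hp
  set q : ℝ[X] := p ^ m - (1 + Polynomial.X) ^ d with hq
  have hq0 : q.eval 0 = 0 := by
    rw [hq, Polynomial.eval_sub, Polynomial.eval_pow, Polynomial.eval_pow, hp, det_poly]
    simp
  have hq1 : ∀ s : ℝ, -1 < s → 0 ≤ q.eval s := by
    intro s hs
    rw [hq, Polynomial.eval_sub, Polynomial.eval_pow, Polynomial.eval_pow, hp, det_poly]
    have := h s hs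
    simpa using this
  have hmin : IsLocalMin (fun s => q.eval s) 0 := by
    have h1 : Set.Ioi (-1 : ℝ) ∈ nhds (0 : ℝ) := Ioi_mem_nhds (by norm_num)
    filter_upwards [h1] with s hs
    show q.eval 0 ≤ q.eval s
    rw [hq0]
    exact hq1 s hs
  have hder := hmin.hasDerivAt_eq_zero (q.hasDerivAt 0)
  rw [hq, Polynomial.derivative_sub, Polynomial.derivative_pow, Polynomial.derivative_pow,
    Polynomial.eval_sub, Polynomial.eval_mul, Polynomial.eval_mul, Polynomial.eval_mul, hp,
    Matrix.derivative_det_one_add_X_smul] at hder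
  have hp0 : p.eval 0 = 1 := by
    rw [hp, det_poly]
    simp
  rw [← hp, Polynomial.eval_pow, hp0] at hder
  simp at hder
  linarith

/-- balanced position of positive definite matrices -/
theorem balanced [Nonempty X] (hd : 0 < d) (A : X → Matrix (Fin d) (Fin d) ℝ)
    (hA : ∀ x, (A x).PosDef) :
    ∃ c : X → ℝ, (∀ x, 0 < c x) ∧
      ∀ x, Fintype.card X * (c x * ((ms A c)⁻¹ * A x).trace) = d := by
  classical
  have hS : ∀ c ∈ stdSimplex ℝ X, (ms A c).PosDef := by
    intro c hc
    refine ms_posDef A hA c hc.1 ?_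
    by_contra hcon
    push Not at hcon
    have h1 : ∑ x, c x ≤ 0 := Finset.sum_nonpos fun x _ => hcon x
    rw [hc.2] at h1
    exact absurd h1 (by norm_num)
  have hcont : ContinuousOn (psi A) (stdSimplex ℝ X) := by
    unfold psi
    refine ContinuousOn.div ?_ ?_ fun c hc => pow_ne_zero _ (hS c hc).det_pos.ne'
    · exact (continuous_finsetProd _ fun x _ => continuous_apply x).pow d |>.continuousOn
    · refine Continuous.continuousOn (Continuous.pow ?_ _)
      refine Continuous.matrix_det ?_
      unfold ms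
      exact continuous_finsetSum _ fun x _ => (continuous_apply x).smul continuous_const
  obtain ⟨x0⟩ := ‹Nonempty X›
  have hm : (0 : ℝ) < Fintype.card X := by
    have : 0 < Fintype.card X := Fintype.card_pos_iff.2 ⟨x0⟩
    exact_mod_cast this
  -- the centre
  set u : X → ℝ := fun _ => 1 / (Fintype.card X : ℝ) with hu
  have huS : u ∈ stdSimplex ℝ X := by
    refine ⟨fun x => by rw [hu]; positivity, ?_⟩
    rw [hu, Finset.sum_const, card_univ, nsmul_eq_mul]
    field_simp
  obtain ⟨c, hcS, hmax⟩ := (isCompact_stdSimplex ℝ X).exists_isMaxOn ⟨u, huS⟩ hcont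
  have hpsi0 : 0 < psi A c := by
    have h1 : psi A u ≤ psi A c := hmax huS
    refine lt_of_lt_of_le ?_ h1
    unfold psi
    refine div_pos (pow_pos (Finset.prod_pos fun x _ => ?_) _) (pow_pos (hS u huS).det_pos _)
    rw [hu]
    positivity
  have hc : ∀ x, 0 < c x := by
    intro x
    rcases (hcS.1 x).lt_or_eq with h | h
    · exact h
    · exfalso
      have h1 : ∏ y, c y = 0 := Finset.prod_eq_zero (mem_univ x) h.symm
      unfold psi at hpsi0
      rw [h1, zero_pow hd.ne', zero_div] at hpsi0
      exact lt_irrefl _ hpsi0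
  refine ⟨c, hc, fun x => ?_⟩
  -- global maximality
  have hglob : ∀ c' : X → ℝ, (∀ y, 0 < c' y) → psi A c' ≤ psi A c := by
    intro c' hc'
    have hs : 0 < ∑ y, c' y := Finset.sum_pos (fun y _ => hc' y) ⟨x0, mem_univ _⟩
    have h1 : (fun y => (∑ y, c' y)⁻¹ * c' y) ∈ stdSimplex ℝ X := by
      refine ⟨fun y => mul_nonneg (inv_nonneg.2 hs.le) (hc' y).le, ?_⟩
      rw [← Finset.mul_sum]
      exact inv_mul_cancel₀ hs.ne'
    have h2 := hmax h1
    have h3 : psi A (fun y => (∑ y, c' y)⁻¹ * c' y) ≤ psi A c := h2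
    rwa [psi_smul A _ (inv_pos.2 hs)] at h3
  have hM := (hS c hcS)
  have hdet := hM.det_pos
  set N : Matrix (Fin d) (Fin d) ℝ := (c x) • ((ms A c)⁻¹ * A x) with hN
  have hkey : ∀ s : ℝ, -1 < s → (1 + s) ^ d ≤ det (1 + s • N) ^ Fintype.card X := by
    intro s hs
    have hs1 : 0 < 1 + s := by linarith
    have h1 := hglob (Function.update c x ((1 + s) * c x)) (by
      intro y
      by_cases hy : y = x
      · subst hy
        rw [Function.update_self]
        exact mul_pos hs1 (hc y)
      · rw [Function.update_of_ne hy]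
        exact hc y)
    unfold psi at h1
    rw [ms_update] at h1
    have h2 : ∏ y, Function.update c x ((1 + s) * c x) y = (1 + s) * ∏ y, c y := by
      rw [Finset.prod_update_of_mem (mem_univ x), mul_assoc]
      congr 1
      rw [← Finset.mul_prod_erase univ c (mem_univ x), Finset.sdiff_singleton_eq_erase]
    have h3 : ms A c + (s * c x) • A x = ms A c * (1 + s • N) := by
      rw [mul_add, mul_one, hN, smul_smul, Matrix.mul_smul, ← mul_assoc,
        Matrix.mul_nonsing_inv _ (by exact isUnit_iff_ne_zero.2 hdet.ne'), one_mul]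
    have hP : 0 < (∏ y, c y) ^ d := pow_pos (Finset.prod_pos fun y _ => hc y) _
    have hpos : 0 < (ms A c * (1 + s • N)).det := by
      rw [← h3, ← ms_update]
      refine (ms_posDef A hA _ (fun y => ?_) ⟨x, ?_⟩).det_pos
      · by_cases hy : y = x
        · subst hy
          rw [Function.update_self]
          exact (mul_pos hs1 (hc y)).le
        · rw [Function.update_of_ne hy]
          exact (hc y).le
      · rw [Function.update_self]
        exact mul_pos hs1 (hc x)
    rw [h2, h3, div_le_div_iff₀ (pow_pos hpos _) (pow_pos hdet _), Matrix.det_mul, mul_pow,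
      mul_pow] at h1
    have h4 : (∏ y, c y) ^ d * (ms A c).det ^ Fintype.card X * (1 + s) ^ d ≤
        (∏ y, c y) ^ d * (ms A c).det ^ Fintype.card X * (1 + s • N).det ^ Fintype.card X := by
      calc _ = (1 + s) ^ d * (∏ y, c y) ^ d * (ms A c).det ^ Fintype.card X := by ring
        _ ≤ _ := h1
        _ = _ := by ring
    exact le_of_mul_le_mul_left h4 (mul_pos hP (pow_pos hdet _))
  have h5 := deriv_zero N (Fintype.card X) hkey
  rw [hN, Matrix.trace_smul, smul_eq_mul] at h5
  exact h5

end Pool.Agent.UCN
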