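import Mathlib

/-!
# The numbers of the asymptotic form (statement)
-/

set_option autoImplicit false

namespace Pool.Agent.UCN

/-- HEAD: for `m = ⌈n ^ (ε / 20)⌉` and `N = 4 n m`, time `c N log N / log log N` and memory
`N ^ (1 - ε)`. -/
def HEAD_Stmt : Prop :=
  ∀ (C : ℕ) (ε : ℝ), 0 < ε → ε < 1 → ∃ c : ℝ, 0 < c ∧ ∃ n₀ : ℕ, ∀ n ≥ n₀, ∀ m N : ℕ,
    m = ⌈(n : ℝ) ^ (ε / 20)⌉₊ → N = 4 * n * m →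
    0 < n ∧ ∃ k : ℕ, 1 ≤ k ∧ (k + 1) ^ (C * k) ≤ m ∧
      (∀ T : ℕ, (T : ℝ) ≤ c * N * Real.log N / Real.log (Real.log N) → T ≤ k * N) ∧
      ∀ v : ℕ, n < (Nat.log 2 v + Nat.log 2 n + 1) * (Nat.log 2 n + 1) * m ^ 16 →
        (2 : ℝ) ^ ((N : ℝ) ^ (1 - ε)) ≤ v

end Pool.Agent.UCN
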