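import Pool.Agent.UCN.Defs
import Pool.Agent.UM.Stmts

/-!
# Statements of the modules (unlimited coins, real weights, MP_153864_lc)

Architect helper79. Every module file `Pool/Agent/UCN/<Name>.lean` imports `Pool.Agent.UCN.Stmts`
and proves the named statement, using other modules only as hypotheses.
-/

set_option autoImplicit false

namespace Pool.Agent.UCN

open Finset
open Pool.Agent.Lib_helper26.TS (fil)
open Pool.Agent.Lib_helper26.TB (Cell cub sg side Closed PP fam DS mix)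
open Pool.Agent.UM (Sys RichAt GoodS ECell Mach einp erd form)

/-! ### Systems of pieces with outcomes -/

/-- A system of pieces for inputs `x : I → A` and strings of outcomes `c : τ → C`. `pc x e` is the
set of the pieces of the computation on `x` that read the cell `e`, `tc x t` the piece of the time
`t` (both do not depend on the outcomes), `data ω x c` the information kept for the colouring `ω`,
`wt t x c` the weight of the step at time `t`, `out` the value of the data. -/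
structure CSys (I A P D τ C : Type) [Fintype τ] (Acc : (I → A) → Prop)
    (W : (I → A) → (τ → C) → ℝ) where
  pc : (I → A) → I → Finset P
  tc : (I → A) → τ → P
  data : (P → Bool) → (I → A) → (τ → C) → D
  wt : τ → (I → A) → (τ → C) → ℝ
  out : D → ℝ
  mix : ∀ (ω : P → Bool) (x y z : I → A) (c c' c'' : τ → C), data ω x c = data ω y c' →
    (∀ e, (∃ j ∈ pc x e, ω j = true) → z e = x e) →
    (∀ e, (∃ j ∈ pc y e, ω j = false) → z e = y e) →
    (∀ t, ω (tc x t) = true → c'' t = c t) →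
    (∀ t, ω (tc y t) = false → c'' t = c' t) →
    data ω z c'' = data ω x c ∧
      (∀ e j, j ∈ pc z e ↔ if ω j = true then j ∈ pc x e else j ∈ pc y e) ∧
      ∀ t, wt t z c'' = if ω (tc x t) = true then wt t x c else wt t y c'
  time : ∀ (ω : P → Bool) (x y : I → A) (c c' : τ → C), data ω x c = data ω y c' →
    ∀ t, tc y t = tc x t
  recov : ∀ (ω : P → Bool) (x y : I → A) (c : τ → C), data ω x c = data ω y c →
    (∀ e, (∃ j ∈ pc x e, ω j = false) → (∃ j ∈ pc y e, ω j = false) → x e = y e) →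
    ∀ e j, ω j = false → (j ∈ pc x e ↔ j ∈ pc y e)
  acc : ∀ (ω : P → Bool) (x y : I → A) (c c' : τ → C), data ω x c = data ω y c' → (Acc x ↔ Acc y)
  fin : ∀ (ω : P → Bool) (x : I → A) (c : τ → C), W x c = (∏ t, wt t x c) * out (data ω x c)

/-- The system for fixed outcomes. -/
def CSys.base {I A P D τ C : Type} [Fintype τ] {Acc : (I → A) → Prop}
    {W : (I → A) → (τ → C) → ℝ} (S : CSys I A P D τ C Acc W) (c0 : τ → C) : Sys I A P D Acc where
  pc := S.pc
  data := fun ω x => S.data ω x c0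
  mix := fun ω x y z h hx hy =>
    have h1 := S.mix ω x y z c0 c0 c0 h hx hy (fun _ _ => rfl) fun _ _ => rfl
    ⟨h1.1, h1.2.1⟩
  recov := fun ω x y h hxy => S.recov ω x y c0 h hxy
  acc := fun ω x y h => S.acc ω x y c0 c0 h

/-- RANK: on a combinatorial rectangle of inputs with the same data (for one fixed string `c0` of
outcomes) the total weight is a matrix of rank at most the number of data. -/
def RANK_Stmt : Prop :=
  ∀ (I A P D τ C X Y : Type) [Fintype P] [DecidableEq P] [Fintype D] [Fintype τ] [DecidableEq τ]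
    [Fintype C] (Acc : (I → A) → Prop) (W : (I → A) → (τ → C) → ℝ) (S : CSys I A P D τ C Acc W)
    (ω : P → Bool) (c0 : τ → C) (g : X → Y → I → A),
    (∀ u u' v v', S.data ω (g u v) c0 = S.data ω (g u' v') c0) →
    (∀ u v v' e, (∃ j ∈ S.pc (g u v') e, ω j = true) → g u v e = g u v' e) →
    (∀ u u' v e, (∃ j ∈ S.pc (g u' v) e, ω j = false) → g u v e = g u' v e) →
    ∃ (f : D → X → ℝ) (h : D → Y → ℝ), ∀ u v, ∑ c, W (g u v) c = ∑ d, f d u * h d v

/-! ### The form -/

/-- the input `z` with the cells of `P` replaced by those of `c` and the bits with numbers in `Q` of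
the third word replaced by those of `v` -/
def gin {n : ℕ} (P : Finset (Cell n)) (Q : Finset (Fin n)) (z c : Cell n → ZMod 2)
    (v : Fin n → ZMod 2) : Cell n → ZMod 2 :=
  mix P c (mix (side 2 Q) (fun e => v e.2) z)

/-- NORM: the spectral norm of the sign matrix of a rich form. -/
def NORM_Stmt : Prop :=
  ∀ (n ρ : ℕ) (M : Fin n → Fin n → Fin n → ZMod 2) (A B Q : Finset (Fin n))
    (z : Cell n → ZMod 2) (X : Finset (Cell n → ZMod 2)) (Y : Finset (Fin n → ZMod 2))
    (α : (Cell n → ZMod 2) → ℝ) (β : (Fin n → ZMod 2) → ℝ),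
    RichAt ρ M → A.card = 4 * ρ → B.card = 4 * ρ → (∀ v ∈ Y, ∀ l, l ∉ Q → v l = 0) →
    (∑ c ∈ X, ∑ v ∈ Y, sg (cub M (gin (PP (A, B)) Q z c v)) * (α c * β v)) ^ 2 ≤
      (2 ^ (3 * n) * (1 + (Y.card : ℝ) / 2 ^ ρ)) * ((∑ c ∈ X, α c ^ 2) * ∑ v ∈ Y, β v ^ 2)

/-- the rows of a slice -/
noncomputable def rowS {n : ℕ} (Z : (Cell n → ZMod 2) → Prop) (P : Finset (Cell n))
    (Q : Finset (Fin n)) (z : Cell n → ZMod 2) : Finset (Cell n → ZMod 2) :=
  fil fun c => ∃ v, Z (gin P Q z c v)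

/-- the columns of a slice -/
noncomputable def colS {n : ℕ} (Z : (Cell n → ZMod 2) → Prop) (P : Finset (Cell n))
    (Q : Finset (Fin n)) (z : Cell n → ZMod 2) : Finset (Fin n → ZMod 2) :=
  fil fun v => (∀ l, l ∉ Q → v l = 0) ∧ ∃ c, Z (gin P Q z c v)

/-- DENSE: a slice with many rows and columns. -/
def DENSE_Stmt : Prop :=
  ∀ (n ρ : ℕ) (Q : Finset (Fin n)) (F : Finset (Finset (Fin n) × Finset (Fin n)))
    (Z : Finset (Fin n) × Finset (Fin n) → (Cell n → ZMod 2) → Prop) (η : ℝ),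
    (∀ p ∈ F, Closed (PP p) (side 2 Q) (Z p)) →
    (∀ p ∈ F, ∀ p' ∈ F, ∀ z z' w : Cell n → ZMod 2, Z p z → Z p' z' →
      (∀ i, i ∉ PP p → z i = w i) → (∀ i, i ∉ PP p' → z' i = w i) → p = p') →
    0 < η → η * 2 ^ (3 * n) ≤ ∑ p ∈ F, ((fil (Z p)).card : ℝ) →
    4 * (F.card : ℝ) * 2 ^ ρ ≤ η * 2 ^ Q.card →
    ∃ p ∈ F, ∃ z : Cell n → ZMod 2,
      η / 4 * 2 ^ (3 * n) ≤ ((rowS (Z p) (PP p) Q z).card : ℝ) ∧
      2 ^ ρ ≤ (colS (Z p) (PP p) Q z).card

/-! ### One point of the input -/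

/-- the weight of a string of outcomes -/
def WMach.weight {I A V G C : Type} [Inhabited C] (M : WMach I A V G C) (T : ℕ) (x : I → A)
    (c : Fin T → C) : ℝ :=
  (∏ t : Fin T, M.stepWt x (ext c) t) * M.val ((M.fix (ext c)).conf x T).1

/-- CSYS: the system of pieces of a machine whose outcomes do not influence the cells read and the
registers used, for the inputs that differ from `p` at the point `l` only. -/
def CSYS_Stmt : Prop :=
  ∀ (n m L T δ J b B : ℕ) (V G C : Type) [Fintype V] [Fintype G] [Fintype C] [Inhabited C]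
    (Q : WMach (ECell n m) (ZMod 2) V G C) (s : Fin m × Fin n → ZMod 2)
    (p : Fin m → Cell n → ZMod 2) (l : Fin m),
    (∀ x c, (Q.fix c).far δ T x ≤ J) →
    (∀ x c c', ∀ t < T, cell (Q.fix c) x t = cell (Q.fix c') x t ∧
      (Q.fix c).reg x t = (Q.fix c').reg x t) →
    0 < L → 0 < b →
    ∃ (P D : Type) (_ : Fintype P) (_ : DecidableEq P) (_ : Fintype D)
      (S : CSys (Cell n) (ZMod 2) P D (Fin T) C
        (fun x => erd (Q.fix fun _ => default) T (einp s (Function.update p l x)) l ≤ B)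
        (fun x c => Q.weight T (einp s (Function.update p l x)) c)),
      (∀ x j, (fil fun e => j ∈ S.pc x e).card ≤ L) ∧
      (∀ x, ∑ e, (S.pc x e).card ≤
        erd (Q.fix fun _ => default) T (einp s (Function.update p l x)) l) ∧
      Fintype.card D ≤ (T + 1) ^ (2 * (b + 1)) * (T * Fintype.card V + 1) ^ (T * δ / b + J) *
        (T * (Fintype.card V * (Fintype.card G + 1) ^ b) + 1) ^ (T / L) * Fintype.card V

/-- SYSC: a small system of pieces with outcomes does not recognise a rich form. -/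
def SYSC_Stmt : Prop :=
  ∀ (n ρ k γ X B L K : ℕ) (M : Fin n → Fin n → Fin n → ZMod 2) (P D τ C : Type) [Fintype P]
    [DecidableEq P] [Fintype D] [Fintype τ] [DecidableEq τ] [Fintype C] [Nonempty C]
    (Acc : (Cell n → ZMod 2) → Prop) (W : (Cell n → ZMod 2) → (τ → C) → ℝ)
    (S : CSys (Cell n) (ZMod 2) P D τ C Acc W) (κ : ZMod 2) (θ : ℝ),
    RichAt ρ M → 1 ≤ k → 32 ≤ X → X = k * γ → 83200 * X ^ 2 ≤ 2 ^ γ → 32 ≤ γ →
    n ≤ 2 ^ (6 * X + 5) * ρ → 2 ^ (6 * X + 4) * ρ ≤ n → 1024 ≤ ρ →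
    n ≤ 2 ^ (ρ / 32) → 32 * K ≤ ρ → 0 < L → B ≤ k * (3 * n) →
    L * (k * (3 * n)) * 8 ≤ 8 * ρ ^ 2 → 2 * 4 ^ γ * L * 8 ≤ k * (3 * n) →
    (∀ x j, (fil fun e => j ∈ S.pc x e).card ≤ L) →
    (∀ x, Acc x → ∑ e, (S.pc x e).card ≤ B) →
    Fintype.card D ≤ 2 ^ K →
    2 ^ (3 * n) ≤ 2 * (fil Acc).card →
    ¬ ∀ x, Acc x → (cub M x = κ ↔ θ < ∑ c, W x c)

/-- LOWC: the lower bound. -/
def LOWC_Stmt : Prop :=
  ∀ (n m k T δ J : ℕ) (V G C : Type) [Fintype V] [Fintype G] [Fintype C] [Inhabited C]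
    (α : Module.Basis (Fin n) (ZMod 2) (GaloisField 2 n)), 0 < n → 1 ≤ k →
    (k + 1) ^ (23040 * k) ≤ m → T ≤ k * (4 * n * m) →
    InThr C (ECell n m) (ZMod 2) V G T δ J (fun z => form α z = 1) →
    n < (Nat.log 2 (Fintype.card V) + Nat.log 2 n + 1) *
      (J + (Nat.log 2 (Fintype.card G) + 1) * (δ + 1) * (Nat.log 2 n + 1)) * m ^ 16

end Pool.Agent.UCN
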